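import Pool.Agent.Lib.BV.Defs
import Pool.Agent.Lib.MP_7b7e48_nt.GT.ExpTools

/-!
# BV-Gram: sum of squares of geometric sums at spaced points

PROOF. The term j = i is |∑_{k<H} 1|² = H². For j ≠ i put t = x i - x j, y = t - round t, so |y| ≤ 1/2 and
|y| ≥ δ, and |t - n| ≥ |y| for all integers n (`round_le`), so `GT.RE.norm_geom_le` with η = |y| gives
‖∑‖² ≤ 1/(4 y²). It remains: ∑_{j ≠ i} 1/(4 y_j²) ≤ 1/δ². The map j ↦ (sign of y_j, ⌊|y_j|/δ⌋) is injective on s without i: if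
j ≠ l have the same sign and floor then |y_j - y_l| < δ, but y_j - y_l = x l - x j - (integer), so ≥ δ by hypothesis. Its second
component m = ⌊|y_j|/δ⌋ is ≥ 1 and |y_j| ≥ m δ. So the sum is ≤ 2 ∑_{m=1}^{M} 1/(4 m² δ²) ≤ 1/δ² because
∑_{m=1}^M 1/m² ≤ 2 - 1/M ≤ 2 (induction; or Mathlib `sum_Ioc_inv_sq_le_sub`/`sum_Ioo_inv_sq_le`).
(Use e from Pool.Agent.Lib.GT.)
-/

set_option autoImplicit false

open Finset

namespace Pool.Agent.Lib.BV

private theorem gram_nat_sq (t : Finset ℕ) (ht : ∀ m ∈ t, 1 ≤ m) :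
    ∑ m ∈ t, ((m : ℝ) ^ 2)⁻¹ ≤ 2 := by
  have h1 : t ⊆ Ioo 0 (t.sup id + 1) := by
    intro m hm
    rw [mem_Ioo]
    have h2 : m ≤ t.sup id := le_sup (f := id) hm
    have h3 := ht m hm
    omega
  refine (sum_le_sum_of_subset_of_nonneg h1 fun m _ _ => by positivity).trans ?_
  refine (sum_Ioo_inv_sq_le 0 (t.sup id + 1)).trans ?_
  norm_num

private theorem gram_half {ι : Type*} [DecidableEq ι] (t : Finset ι) (y : ι → ℝ) (δ : ℝ) (hδ : 0 < δ)
    (h1 : ∀ j ∈ t, δ ≤ y j) (h2 : ∀ j ∈ t, ∀ l ∈ t, j ≠ l → δ ≤ |y j - y l|) :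
    ∑ j ∈ t, 1 / (4 * y j ^ 2) ≤ 1 / (2 * δ ^ 2) := by
  have hinj : Set.InjOn (fun j => ⌊y j / δ⌋₊) (t : Set ι) := by
    intro j hj l hl hjl
    by_contra hne
    have h3 := h2 j hj l hl hne
    simp only at hjl
    have hj0 : 0 ≤ y j / δ := by
      have := h1 j hj
      have : 0 ≤ y j := by linarith
      positivity
    have hl0 : 0 ≤ y l / δ := by
      have := h1 l hl
      have : 0 ≤ y l := by linarith
      positivity
    have a1 := Nat.floor_le hj0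
    have a2 := Nat.lt_floor_add_one (y j / δ)
    have a3 := Nat.floor_le hl0
    have a4 := Nat.lt_floor_add_one (y l / δ)
    rw [hjl] at a1 a2
    have a5 : |y j / δ - y l / δ| < 1 := by
      rw [abs_lt]
      constructor <;> linarith
    rw [← sub_div, abs_div, abs_of_pos hδ, div_lt_one hδ] at a5
    linarith
  have hterm : ∀ j ∈ t, 1 / (4 * y j ^ 2) ≤ 1 / (4 * δ ^ 2) * (((⌊y j / δ⌋₊ : ℕ) : ℝ) ^ 2)⁻¹ := by
    intro j hj
    have h3 := h1 j hj
    have hj1 : 1 ≤ y j / δ := by rwa [one_le_div hδ]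
    have a1 := Nat.floor_le (zero_le_one.trans hj1)
    have a0 : 1 ≤ ⌊y j / δ⌋₊ := Nat.le_floor (by exact_mod_cast hj1)
    have a0' : (1 : ℝ) ≤ (⌊y j / δ⌋₊ : ℝ) := by exact_mod_cast a0
    rw [le_div_iff₀ hδ] at a1
    rw [← one_div, one_div_mul_one_div]
    apply one_div_le_one_div_of_le (by positivity)
    have a6 : (((⌊y j / δ⌋₊ : ℕ) : ℝ) * δ) ^ 2 ≤ y j ^ 2 := pow_le_pow_left₀ (by positivity) a1 2
    nlinarith [a6]
  calc ∑ j ∈ t, 1 / (4 * y j ^ 2)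
      ≤ ∑ j ∈ t, 1 / (4 * δ ^ 2) * (((⌊y j / δ⌋₊ : ℕ) : ℝ) ^ 2)⁻¹ := sum_le_sum hterm
    _ = 1 / (4 * δ ^ 2) * ∑ j ∈ t, (((⌊y j / δ⌋₊ : ℕ) : ℝ) ^ 2)⁻¹ := by rw [mul_sum]
    _ = 1 / (4 * δ ^ 2) * ∑ m ∈ t.image (fun j => ⌊y j / δ⌋₊), ((m : ℝ) ^ 2)⁻¹ := by
        rw [sum_image hinj]
    _ ≤ 1 / (4 * δ ^ 2) * 2 := by
        apply mul_le_mul_of_nonneg_left _ (by positivity)
        apply gram_nat_sq
        intro m hm
        rw [mem_image] at hm
        obtain ⟨j, hj, rfl⟩ := hm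
        have h3 := h1 j hj
        have hj1 : 1 ≤ y j / δ := by rwa [one_le_div hδ]
        exact Nat.le_floor (by exact_mod_cast hj1)
    _ = 1 / (2 * δ ^ 2) := by
        field_simp
        ring

open Pool.Agent.Lib.GT in
theorem gram_sum {ι : Type*} [DecidableEq ι] (s : Finset ι) (x : ι → ℝ) (δ : ℝ) (hδ : 0 < δ)
    (hx : ∀ i ∈ s, ∀ j ∈ s, i ≠ j → ∀ k : ℤ, δ ≤ |x i - x j - k|) (H : ℕ) (i : ι) (hi : i ∈ s) :
    ∑ j ∈ s, ‖∑ k ∈ range H, e ((x i - x j) * k)‖ ^ 2 ≤ (H : ℝ) ^ 2 + 1 / δ ^ 2 := by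
  set y : ι → ℝ := fun j => (x i - x j) - round (x i - x j) with hy
  have hydiff : ∀ j ∈ s, ∀ l ∈ s, j ≠ l → δ ≤ |y j - y l| := by
    intro j hj l hl hjl
    have h1 := hx l hl j hj (Ne.symm hjl) (round (x i - x j) - round (x i - x l))
    have h2 : y j - y l = x l - x j - ((round (x i - x j) - round (x i - x l) : ℤ) : ℝ) := by
      rw [hy]
      push_cast
      ring
    rw [h2]
    exact h1
  have hyδ : ∀ j ∈ s.erase i, δ ≤ |y j| := by
    intro j hj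
    rw [mem_erase] at hj
    exact hx i hi j hj.2 (Ne.symm hj.1) _
  have hterm : ∀ j ∈ s.erase i, ‖∑ k ∈ range H, e ((x i - x j) * k)‖ ^ 2 ≤ 1 / (4 * |y j| ^ 2) := by
    intro j hj
    have h1 := hyδ j hj
    have h0 : 0 < |y j| := by linarith
    have h2 := Pool.Agent.Lib.GT.RE.norm_geom_le (x i - x j) |y j| h0 (fun n => by
      exact round_le (x i - x j) n) H
    have h3 : ‖∑ k ∈ range H, e ((x i - x j) * k)‖ ^ 2 ≤ (1 / (2 * |y j|)) ^ 2 :=
      pow_le_pow_left₀ (norm_nonneg _) h2 2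
    refine h3.trans (le_of_eq ?_)
    rw [div_pow, mul_pow]
    norm_num
  have hsplit : ∑ j ∈ s.erase i, 1 / (4 * |y j| ^ 2) ≤ 1 / δ ^ 2 := by
    rw [← sum_filter_add_sum_filter_not (s.erase i) (fun j => 0 ≤ y j)]
    have hA : ∑ j ∈ (s.erase i).filter (fun j => 0 ≤ y j), 1 / (4 * |y j| ^ 2) ≤ 1 / (2 * δ ^ 2) := by
      have := gram_half ((s.erase i).filter (fun j => 0 ≤ y j)) (fun j => |y j|) δ hδ
        (fun j hj => hyδ j (mem_filter.mp hj).1) (fun j hj l hl hjl => by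
          rw [mem_filter, mem_erase] at hj hl
          rw [abs_of_nonneg hj.2, abs_of_nonneg hl.2]
          exact hydiff j hj.1.2 l hl.1.2 hjl)
      exact this
    have hB : ∑ j ∈ (s.erase i).filter (fun j => ¬ 0 ≤ y j), 1 / (4 * |y j| ^ 2) ≤
        1 / (2 * δ ^ 2) := by
      have := gram_half ((s.erase i).filter (fun j => ¬ 0 ≤ y j)) (fun j => |y j|) δ hδ
        (fun j hj => hyδ j (mem_filter.mp hj).1) (fun j hj l hl hjl => by
          rw [mem_filter, mem_erase] at hj hl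
          rw [abs_of_neg (not_le.mp hj.2), abs_of_neg (not_le.mp hl.2)]
          have := hydiff l hl.1.2 j hj.1.2 (Ne.symm hjl)
          rw [show - y j - - y l = y l - y j by ring]
          exact this)
      exact this
    have hC : 1 / (2 * δ ^ 2) + 1 / (2 * δ ^ 2) = 1 / δ ^ 2 := by
      field_simp
      ring
    linarith
  rw [← add_sum_erase s _ hi]
  refine add_le_add ?_ ((sum_le_sum hterm).trans hsplit)
  have h1 : ∑ k ∈ range H, e ((x i - x i) * k) = (H : ℂ) := by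
    rw [sub_self]
    simp [e_zero]
  rw [h1, Complex.norm_natCast]

end Pool.Agent.Lib.BV
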