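import Pool.Agent.Lib.BV.Defs
import Pool.Agent.Lib.BV.Gram

/-!
# BV-Quad: the dual large sieve (quadratic form)

PROOF. N = 0: the left side is 0. Let N ≥ 1, H = N + 1 + ⌈1/δ⌉₊, c = N / 2 (natural division). For u, v ∈ range H consider
W = ∑_{u<H} ∑_{v<H} |∑_i b_i e((u - v + c) x_i)|² (u - v + c as a real or integer number). (1) LOWER BOUND: W ≥ (H/2) ∑_{n=1}^N
|∑_i b_i e(n x_i)|²: for every n ∈ [1,N] the pairs (u,v) with u - v = n - c =: m are H - |m| in number, and |m| ≤ (N+1)/2 ≤ H/2;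
pairs for different n are disjoint, all terms are ≥ 0. (Concretely: for m ≥ 0 the pairs (v + m, v), v < H - m; for m < 0 the pairs
(u, u - m), u < H + m; as a Finset: card of (range H ×ˢ range H).filter (u + c = v + n) ≥ H/2.) (2) UPPER BOUND: expanding the
square, W = ∑_{i,j} b_i conj(b_j) e(c (x_i - x_j)) |∑_{u<H} e(u (x_i - x_j))|² ≤ ∑_{i,j} |b_i| |b_j| K(i,j), K(i,j) = ‖∑_{u<H} e((x_i - x_j) u)‖²
symmetric, ≤ ∑_{i,j} (|b_i|² + |b_j|²)/2 K(i,j) = ∑_i |b_i|² ∑_j K(i,j) ≤ (H² + 1/δ²) ∑ |b_i|² by `gram_sum`.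
So the left side is ≤ (2/H)(H² + 1/δ²) ∑|b_i|² = (2H + 2/(H δ²)) ∑|b_i|², and H ≤ N + 2 + 1/δ, H δ ≥ 1 give
≤ 2N + 4 + 4/δ ≤ 6 (N + 1/δ) as N ≥ 1.
-/

set_option autoImplicit false

open Finset

namespace Pool.Agent.Lib.BV

open Pool.Agent.Lib.GT in
private theorem quad_conj_e (x : ℝ) : (starRingEnd ℂ) (e x) = e (-x) := by
  unfold e
  rw [← Complex.exp_conj]
  congr 1
  simp only [map_mul, Complex.conj_I, Complex.conj_ofReal, map_ofNat]
  push_cast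
  ring

open Pool.Agent.Lib.GT in
private theorem quad_K_symm {t : ℝ} (H : ℕ) :
    ‖∑ k ∈ range H, e ((-t) * k)‖ = ‖∑ k ∈ range H, e (t * k)‖ := by
  rw [← Complex.norm_conj (∑ k ∈ range H, e (t * k)), map_sum]
  congr 1
  refine sum_congr rfl fun k _ => ?_
  rw [quad_conj_e]
  congr 1
  ring

private theorem quad_card (N n H : ℕ) (hn : n ∈ Icc 1 N) (hH : N + 1 ≤ H) :
    (H : ℝ) / 2 ≤ (((range H ×ˢ range H).filter (fun p => p.1 + N / 2 = p.2 + n)).card : ℝ) := by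
  rw [mem_Icc] at hn
  rcases le_or_gt (N / 2) n with h | h
  · have h1 : ((range (H - (n - N / 2))).image (fun v => (v + (n - N / 2), v))) ⊆
        (range H ×ˢ range H).filter (fun p => p.1 + N / 2 = p.2 + n) := by
      intro p hp
      rw [mem_image] at hp
      obtain ⟨v, hv, rfl⟩ := hp
      rw [mem_range] at hv
      rw [mem_filter, mem_product, mem_range, mem_range]
      simp only
      omega
    have h2 := card_le_card h1
    rw [card_image_of_injective _ (fun a b hab => by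
      simp only [Prod.mk.injEq] at hab
      exact hab.2), card_range] at h2
    have h3 : H ≤ 2 * (H - (n - N / 2)) := by omega
    have h4 : (H : ℝ) ≤ 2 * ((H - (n - N / 2) : ℕ) : ℝ) := by exact_mod_cast h3
    have h5 : ((H - (n - N / 2) : ℕ) : ℝ) ≤
        (((range H ×ˢ range H).filter (fun p => p.1 + N / 2 = p.2 + n)).card : ℝ) := by
      exact_mod_cast h2
    linarith
  · have h1 : ((range (H - (N / 2 - n))).image (fun v => (v, v + (N / 2 - n)))) ⊆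
        (range H ×ˢ range H).filter (fun p => p.1 + N / 2 = p.2 + n) := by
      intro p hp
      rw [mem_image] at hp
      obtain ⟨v, hv, rfl⟩ := hp
      rw [mem_range] at hv
      rw [mem_filter, mem_product, mem_range, mem_range]
      simp only
      omega
    have h2 := card_le_card h1
    rw [card_image_of_injective _ (fun a b hab => by
      simp only [Prod.mk.injEq] at hab
      exact hab.1), card_range] at h2
    have h3 : H ≤ 2 * (H - (N / 2 - n)) := by omega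
    have h4 : (H : ℝ) ≤ 2 * ((H - (N / 2 - n) : ℕ) : ℝ) := by exact_mod_cast h3
    have h5 : ((H - (N / 2 - n) : ℕ) : ℝ) ≤
        (((range H ×ˢ range H).filter (fun p => p.1 + N / 2 = p.2 + n)).card : ℝ) := by
      exact_mod_cast h2
    linarith

private theorem quad_lower (N H : ℕ) (hH : N + 1 ≤ H) (F : ℤ → ℝ) (hF : ∀ m, 0 ≤ F m) :
    (H : ℝ) / 2 * ∑ n ∈ Icc 1 N, F (n : ℤ) ≤
      ∑ p ∈ range H ×ˢ range H, F ((p.1 : ℤ) - p.2 + (N / 2 : ℕ)) := by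
  have h1 : ∀ n ∈ Icc 1 N, (H : ℝ) / 2 * F (n : ℤ) ≤
      ∑ p ∈ range H ×ˢ range H, if p.1 + N / 2 = p.2 + n then F (n : ℤ) else 0 := by
    intro n hn
    rw [← sum_filter, sum_const, nsmul_eq_mul]
    exact mul_le_mul_of_nonneg_right (quad_card N n H hn hH) (hF _)
  rw [mul_sum]
  refine (sum_le_sum h1).trans ?_
  rw [sum_comm]
  refine sum_le_sum fun p _ => ?_
  by_cases h2 : ∃ n ∈ Icc 1 N, p.1 + N / 2 = p.2 + n
  · obtain ⟨n, hn, hpn⟩ := h2
    rw [sum_eq_single n]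
    · rw [if_pos hpn]
      have : ((p.1 : ℤ) - p.2 + (N / 2 : ℕ)) = (n : ℤ) := by
        have h3 : ((p.1 + N / 2 : ℕ) : ℤ) = ((p.2 + n : ℕ) : ℤ) := by exact_mod_cast hpn
        rw [Nat.cast_add, Nat.cast_add] at h3
        linarith
      rw [this]
    · intro n' _ hne
      rw [if_neg]
      intro h3
      apply hne
      omega
    · intro hn'
      exact absurd hn hn'
  · rw [sum_eq_zero]
    · exact hF _
    · intro n hn
      rw [if_neg]
      intro h3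
      exact h2 ⟨n, hn, h3⟩

open Pool.Agent.Lib.GT in
private theorem quad_expand {ι : Type*} (s : Finset ι) (x : ι → ℝ) (b : ι → ℂ) (H : ℕ) (c : ℝ) :
    ((∑ p ∈ range H ×ˢ range H, ‖∑ i ∈ s, b i * e (((p.1 : ℝ) - p.2 + c) * x i)‖ ^ 2 : ℝ) : ℂ) =
      ∑ i ∈ s, ∑ j ∈ s, b i * (starRingEnd ℂ) (b j) * e (c * (x i - x j)) *
        ((∑ k ∈ range H, e ((x i - x j) * k)) * (starRingEnd ℂ) (∑ k ∈ range H, e ((x i - x j) * k))) := by
  rw [Complex.ofReal_sum]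
  have h1 : ∀ p : ℕ × ℕ, ((‖∑ i ∈ s, b i * e (((p.1 : ℝ) - p.2 + c) * x i)‖ ^ 2 : ℝ) : ℂ) =
      ∑ i ∈ s, ∑ j ∈ s, b i * (starRingEnd ℂ) (b j) * e (c * (x i - x j)) *
        (e ((x i - x j) * p.1) * (starRingEnd ℂ) (e ((x i - x j) * p.2))) := by
    intro p
    rw [Complex.ofReal_pow, ← Complex.mul_conj', map_sum, sum_mul_sum]
    refine sum_congr rfl fun i _ => sum_congr rfl fun j _ => ?_
    rw [map_mul, quad_conj_e, quad_conj_e]
    have h2 : e (((p.1 : ℝ) - p.2 + c) * x i) * e (-(((p.1 : ℝ) - p.2 + c) * x j)) =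
        e (c * (x i - x j)) * (e ((x i - x j) * p.1) * e (-((x i - x j) * p.2))) := by
      rw [← e_add, ← e_add, ← e_add]
      congr 1
      ring
    linear_combination (b i * (starRingEnd ℂ) (b j)) * h2
  rw [sum_congr rfl fun p _ => h1 p, sum_comm]
  refine sum_congr rfl fun i _ => ?_
  rw [sum_comm]
  refine sum_congr rfl fun j _ => ?_
  rw [← mul_sum, map_sum, sum_mul_sum, sum_product]

open Pool.Agent.Lib.GT in
theorem quad_form {ι : Type*} [DecidableEq ι] (s : Finset ι) (x : ι → ℝ) (δ : ℝ) (hδ : 0 < δ)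
    (hx : ∀ i ∈ s, ∀ j ∈ s, i ≠ j → ∀ k : ℤ, δ ≤ |x i - x j - k|) (N : ℕ) (b : ι → ℂ) :
    ∑ n ∈ Icc 1 N, ‖∑ i ∈ s, b i * e (n * x i)‖ ^ 2 ≤ 6 * (N + 1 / δ) * ∑ i ∈ s, ‖b i‖ ^ 2 := by
  have hB : 0 ≤ ∑ i ∈ s, ‖b i‖ ^ 2 := sum_nonneg fun i _ => by positivity
  rcases Nat.eq_zero_or_pos N with hN | hN
  · subst hN
    simp only [zero_lt_one, Icc_eq_empty_of_lt, sum_empty]
    positivity
  set H : ℕ := N + 1 + ⌈1 / δ⌉₊ with hHdef
  have hH : N + 1 ≤ H := by omega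
  have hHpos : (0 : ℝ) < (H : ℝ) := by
    have : 0 < H := by omega
    exact_mod_cast this
  set F : ℤ → ℝ := fun m => ‖∑ i ∈ s, b i * e ((m : ℝ) * x i)‖ ^ 2 with hF
  have hlow := quad_lower N H hH F (fun m => by rw [hF]; positivity)
  set K : ι → ι → ℝ := fun i j => ‖∑ k ∈ range H, e ((x i - x j) * k)‖ ^ 2 with hK
  have hK0 : ∀ i j, 0 ≤ K i j := fun i j => by rw [hK]; positivity
  have hKs : ∀ i j, K i j = K j i := by
    intro i j
    rw [hK]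
    simp only
    rw [← quad_K_symm (t := x j - x i) H, neg_sub]
  have hup : ∑ p ∈ range H ×ˢ range H, F ((p.1 : ℤ) - p.2 + (N / 2 : ℕ)) ≤
      ∑ i ∈ s, ∑ j ∈ s, ‖b i‖ * ‖b j‖ * K i j := by
    have h1 : ∀ p : ℕ × ℕ, F ((p.1 : ℤ) - p.2 + (N / 2 : ℕ)) =
        ‖∑ i ∈ s, b i * e (((p.1 : ℝ) - p.2 + ((N / 2 : ℕ) : ℝ)) * x i)‖ ^ 2 := by
      intro p
      rw [hF]
      simp only
      push_cast
      rfl
    rw [sum_congr rfl fun p _ => h1 p]
    have h2 := quad_expand s x b H (((N / 2 : ℕ) : ℝ))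
    have h3 : ‖((∑ p ∈ range H ×ˢ range H,
        ‖∑ i ∈ s, b i * e (((p.1 : ℝ) - p.2 + ((N / 2 : ℕ) : ℝ)) * x i)‖ ^ 2 : ℝ) : ℂ)‖ =
        ∑ p ∈ range H ×ˢ range H,
        ‖∑ i ∈ s, b i * e (((p.1 : ℝ) - p.2 + ((N / 2 : ℕ) : ℝ)) * x i)‖ ^ 2 := by
      rw [Complex.norm_real, Real.norm_eq_abs, abs_of_nonneg (sum_nonneg fun p _ => by positivity)]
    rw [← h3, h2]
    refine (norm_sum_le _ _).trans (sum_le_sum fun i _ => ?_)
    refine (norm_sum_le _ _).trans (sum_le_sum fun j _ => ?_)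
    rw [Complex.mul_conj', norm_mul, norm_mul, norm_mul, Complex.norm_conj, norm_e, mul_one]
    rw [norm_pow, Complex.norm_real, norm_norm]
  have hup2 : ∑ i ∈ s, ∑ j ∈ s, ‖b i‖ * ‖b j‖ * K i j ≤
      ((H : ℝ) ^ 2 + 1 / δ ^ 2) * ∑ i ∈ s, ‖b i‖ ^ 2 := by
    have h1 : ∑ i ∈ s, ∑ j ∈ s, ‖b i‖ * ‖b j‖ * K i j ≤
        ∑ i ∈ s, ∑ j ∈ s, (‖b i‖ ^ 2 * K i j / 2 + ‖b j‖ ^ 2 * K i j / 2) := by
      refine sum_le_sum fun i _ => sum_le_sum fun j _ => ?_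
      have h2 := hK0 i j
      nlinarith [mul_nonneg (sq_nonneg (‖b i‖ - ‖b j‖)) h2]
    refine h1.trans ?_
    have h3 : ∑ i ∈ s, ∑ j ∈ s, (‖b i‖ ^ 2 * K i j / 2 + ‖b j‖ ^ 2 * K i j / 2) =
        ∑ i ∈ s, ‖b i‖ ^ 2 * ∑ j ∈ s, K i j := by
      have h4 : ∑ i ∈ s, ∑ j ∈ s, ‖b j‖ ^ 2 * K i j / 2 =
          ∑ i ∈ s, ∑ j ∈ s, ‖b i‖ ^ 2 * K i j / 2 := by
        rw [sum_comm]
        refine sum_congr rfl fun i _ => sum_congr rfl fun j _ => ?_
        rw [hKs j i]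
      simp only [sum_add_distrib]
      rw [h4, ← sum_add_distrib]
      refine sum_congr rfl fun i _ => ?_
      rw [← sum_add_distrib, mul_sum]
      refine sum_congr rfl fun j _ => ?_
      ring
    rw [h3, mul_sum]
    refine sum_le_sum fun i hi => ?_
    rw [mul_comm]
    refine mul_le_mul_of_nonneg_right ?_ (by positivity)
    exact gram_sum s x δ hδ hx H i hi
  have hmain : (H : ℝ) / 2 * ∑ n ∈ Icc 1 N, F (n : ℤ) ≤
      ((H : ℝ) ^ 2 + 1 / δ ^ 2) * ∑ i ∈ s, ‖b i‖ ^ 2 := hlow.trans (hup.trans hup2)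
  have hFn : ∑ n ∈ Icc 1 N, F (n : ℤ) = ∑ n ∈ Icc 1 N, ‖∑ i ∈ s, b i * e (n * x i)‖ ^ 2 := by
    refine sum_congr rfl fun n _ => ?_
    rw [hF]
    simp only [Int.cast_natCast]
  rw [← hFn]
  have hNr : (1 : ℝ) ≤ (N : ℝ) := by exact_mod_cast hN
  have hHle : (H : ℝ) ≤ N + 2 + 1 / δ := by
    have h1 := Nat.ceil_lt_add_one (a := 1 / δ) (by positivity)
    rw [hHdef]
    push_cast
    linarith
  have hHge : 1 / δ ≤ (H : ℝ) := by
    have h1 := Nat.le_ceil (1 / δ)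
    rw [hHdef]
    push_cast
    have h2 : (0 : ℝ) ≤ (N : ℝ) := by positivity
    linarith
  have hd2 : 1 / δ ^ 2 ≤ (H : ℝ) * (1 / δ) := by
    have h1 : 1 / δ ^ 2 = (1 / δ) * (1 / δ) := by
      rw [one_div_mul_one_div, sq]
    rw [h1]
    exact mul_le_mul_of_nonneg_right hHge (by positivity)
  have hbd : (H : ℝ) ^ 2 + 1 / δ ^ 2 ≤ (H : ℝ) / 2 * (6 * (N + 1 / δ)) := by
    have h1 : (H : ℝ) ^ 2 + 1 / δ ^ 2 ≤ (H : ℝ) * ((N + 2 + 1 / δ) + 1 / δ) := by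
      nlinarith
    refine h1.trans ?_
    have h2 : (0 : ℝ) < 1 / δ := by positivity
    have h3 : (N + 2 + 1 / δ) + 1 / δ ≤ 3 * (N + 1 / δ) := by linarith
    nlinarith
  have hfin : (H : ℝ) / 2 * ∑ n ∈ Icc 1 N, F (n : ℤ) ≤
      (H : ℝ) / 2 * (6 * (N + 1 / δ) * ∑ i ∈ s, ‖b i‖ ^ 2) := by
    refine hmain.trans ?_
    rw [← mul_assoc]
    exact mul_le_mul_of_nonneg_right hbd hB
  exact le_of_mul_le_mul_left hfin (by positivity)

end Pool.Agent.Lib.BV
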