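import Pool.Agent.Lib.BV.Defs
import Pool.Agent.Lib.BV.Quad

/-!
# BV-Farey: the additive large sieve for Farey fractions

PROOF. (1) DUALITY. Let Δ = 6 (N + 1/δ), T = ∑_{i∈s} |S_i|², S_i = ∑_{n ≤ N} a_n e(n x_i). With b_i = conj(S_i):
T = ∑_i b_i S_i = ∑_n a_n ∑_i b_i e(n x_i) ≤ (∑|a_n|²)^(1/2) (∑_n |∑_i b_i e(n x_i)|²)^(1/2) ≤ (∑|a_n|² Δ T)^(1/2) by
Cauchy-Schwarz and `quad_form`; hence T ≤ Δ ∑|a_n|². (2) FAREY. Index set: pairs (q,c), q ∈ Icc 1 Q, c ∈ range q coprime to q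
(a Finset.sigma), x = c/q, δ = 1/Q² (Q ≥ 1; for Q = 0 both sides are trivial). For different pairs (q,c), (q',c') and every integer k:
|c/q - c'/q' - k| = |c q' - c' q - k q q'|/(q q') and the numerator is a nonzero integer: if it is 0 then c/q - c'/q' is an integer of
absolute value < 1, so c/q = c'/q', and both fractions are reduced, so the pairs are equal. Hence ≥ 1/(q q') ≥ 1/Q².
-/

set_option autoImplicit false

open Finset

namespace Pool.Agent.Lib.BV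

open Pool.Agent.Lib.GT in
theorem large_sieve_add {ι : Type*} [DecidableEq ι] (s : Finset ι) (x : ι → ℝ) (δ : ℝ) (hδ : 0 < δ)
    (hx : ∀ i ∈ s, ∀ j ∈ s, i ≠ j → ∀ k : ℤ, δ ≤ |x i - x j - k|) (N : ℕ) (a : ℕ → ℂ) :
    ∑ i ∈ s, ‖∑ n ∈ Icc 1 N, a n * e (n * x i)‖ ^ 2 ≤ 6 * (N + 1 / δ) * ∑ n ∈ Icc 1 N, ‖a n‖ ^ 2 := by
  set S : ι → ℂ := fun i => ∑ n ∈ Icc 1 N, a n * e (n * x i) with hS
  set T : ℝ := ∑ i ∈ s, ‖S i‖ ^ 2 with hT
  set b : ι → ℂ := fun i => (starRingEnd ℂ) (S i) with hb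
  set U : ℕ → ℂ := fun n => ∑ i ∈ s, b i * e (n * x i) with hU
  have hA : 0 ≤ ∑ n ∈ Icc 1 N, ‖a n‖ ^ 2 := sum_nonneg fun _ _ => by positivity
  have hT0 : 0 ≤ T := sum_nonneg fun _ _ => by positivity
  have h1 : (T : ℂ) = ∑ n ∈ Icc 1 N, a n * U n := by
    rw [hT, Complex.ofReal_sum]
    have h2 : ∀ i ∈ s, ((‖S i‖ ^ 2 : ℝ) : ℂ) = ∑ n ∈ Icc 1 N, a n * (b i * e (n * x i)) := by
      intro i _
      rw [Complex.ofReal_pow, ← Complex.mul_conj']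
      show S i * b i = _
      rw [hS]
      simp only
      rw [sum_mul]
      refine sum_congr rfl fun n _ => ?_
      ring
    rw [sum_congr rfl h2, sum_comm]
    refine sum_congr rfl fun n _ => ?_
    rw [hU, ← mul_sum]
  have h2 : T ≤ ∑ n ∈ Icc 1 N, ‖a n‖ * ‖U n‖ := by
    have h3 : T = ‖(T : ℂ)‖ := by
      rw [Complex.norm_real, Real.norm_eq_abs, abs_of_nonneg hT0]
    rw [h3, h1]
    refine (norm_sum_le _ _).trans (sum_le_sum fun n _ => ?_)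
    rw [norm_mul]
  have h3 : T ^ 2 ≤ (∑ n ∈ Icc 1 N, ‖a n‖ ^ 2) * ∑ n ∈ Icc 1 N, ‖U n‖ ^ 2 :=
    (pow_le_pow_left₀ hT0 h2 2).trans (sum_mul_sq_le_sq_mul_sq _ _ _)
  have h4 : ∑ n ∈ Icc 1 N, ‖U n‖ ^ 2 ≤ 6 * (N + 1 / δ) * T := by
    have h5 := quad_form s x δ hδ hx N b
    refine h5.trans (le_of_eq ?_)
    rw [hT, hb]
    simp only [Complex.norm_conj]
  have h5 : T ^ 2 ≤ (∑ n ∈ Icc 1 N, ‖a n‖ ^ 2) * (6 * (N + 1 / δ) * T) :=
    h3.trans (mul_le_mul_of_nonneg_left h4 hA)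
  rcases eq_or_lt_of_le hT0 with h6 | h6
  · rw [← h6]
    positivity
  · have h7 : T * T ≤ T * (6 * (N + 1 / δ) * ∑ n ∈ Icc 1 N, ‖a n‖ ^ 2) := by
      calc T * T = T ^ 2 := by ring
        _ ≤ (∑ n ∈ Icc 1 N, ‖a n‖ ^ 2) * (6 * (N + 1 / δ) * T) := h5
        _ = T * (6 * (N + 1 / δ) * ∑ n ∈ Icc 1 N, ‖a n‖ ^ 2) := by ring
    exact le_of_mul_le_mul_left h7 h6

private theorem farey_num {q c q' c' : ℕ} (k : ℤ) (hc : c < q) (hc' : c' < q') (h : c.Coprime q)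
    (h' : c'.Coprime q') (h0 : (c : ℤ) * q' - c' * q - k * q * q' = 0) : q = q' ∧ c = c' := by
  have hco : IsCoprime (q : ℤ) (c : ℤ) := (Nat.isCoprime_iff_coprime.mpr h).symm
  have hco' : IsCoprime (q' : ℤ) (c' : ℤ) := (Nat.isCoprime_iff_coprime.mpr h').symm
  have h1 : (q : ℤ) ∣ (c : ℤ) * q' := ⟨c' + k * q', by linarith⟩
  have h2 : (q' : ℤ) ∣ (c' : ℤ) * q := ⟨c - k * q, by linarith⟩
  have h3 : (q : ℤ) ∣ q' := hco.dvd_of_dvd_mul_left h1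
  have h4 : (q' : ℤ) ∣ q := hco'.dvd_of_dvd_mul_left h2
  have h5 : q = q' := Nat.dvd_antisymm (Int.natCast_dvd_natCast.mp h3) (Int.natCast_dvd_natCast.mp h4)
  subst h5
  refine ⟨rfl, ?_⟩
  have hq : (q : ℤ) ≠ 0 := by
    have : 0 < q := by omega
    exact_mod_cast this.ne'
  have h6 : (q : ℤ) * ((c : ℤ) - c' - k * q) = 0 := by linarith
  have h7 : (c : ℤ) - c' - k * q = 0 := by
    rcases mul_eq_zero.mp h6 with h8 | h8
    · exact absurd h8 hq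
    · exact h8
  have h8 : (q : ℤ) ∣ (c : ℤ) - c' := ⟨k, by linarith⟩
  have h9 : (c : ℤ) - c' = 0 := by
    apply Int.eq_zero_of_abs_lt_dvd h8
    rw [abs_lt]
    constructor <;> omega
  omega

open Pool.Agent.Lib.GT in
theorem farey_sieve (Q N : ℕ) (a : ℕ → ℂ) :
    ∑ q ∈ Icc 1 Q, ∑ c ∈ (range q).filter (fun c => c.Coprime q),
      ‖∑ n ∈ Icc 1 N, a n * e (n * ((c : ℝ) / q))‖ ^ 2 ≤
        6 * (N + (Q : ℝ) ^ 2) * ∑ n ∈ Icc 1 N, ‖a n‖ ^ 2 := by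
  have hA : 0 ≤ ∑ n ∈ Icc 1 N, ‖a n‖ ^ 2 := sum_nonneg fun _ _ => by positivity
  rcases Nat.eq_zero_or_pos Q with hQ | hQ
  · subst hQ
    simp only [zero_lt_one, Icc_eq_empty_of_lt, sum_empty]
    positivity
  have hQr : (0 : ℝ) < (Q : ℝ) := by exact_mod_cast hQ
  rw [sum_sigma']
  set x : ((_ : ℕ) × ℕ) → ℝ := fun p => (p.2 : ℝ) / p.1 with hxdef
  have hmain := large_sieve_add
    ((Icc 1 Q).sigma fun q => (range q).filter (fun c => c.Coprime q)) x (1 / (Q : ℝ) ^ 2)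
    (by positivity) (by
      intro p hp p' hp' hne k
      rw [mem_sigma, mem_filter, mem_Icc, mem_range] at hp hp'
      obtain ⟨⟨hq1, hq2⟩, hc, hco⟩ := hp
      obtain ⟨⟨hq1', hq2'⟩, hc', hco'⟩ := hp'
      have hqr : (0 : ℝ) < (p.1 : ℝ) := by exact_mod_cast hq1
      have hqr' : (0 : ℝ) < (p'.1 : ℝ) := by exact_mod_cast hq1'
      have hnum : (p.2 : ℤ) * p'.1 - p'.2 * p.1 - k * p.1 * p'.1 ≠ 0 := by
        intro h0
        obtain ⟨h1, h2⟩ := farey_num k hc hc' hco hco' h0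
        apply hne
        exact Sigma.ext h1 (heq_of_eq h2)
      have h1 : (1 : ℤ) ≤ |(p.2 : ℤ) * p'.1 - p'.2 * p.1 - k * p.1 * p'.1| := Int.one_le_abs hnum
      have h2 : (1 : ℝ) ≤ |(p.2 : ℝ) * p'.1 - p'.2 * p.1 - k * p.1 * p'.1| := by
        exact_mod_cast h1
      have h3 : x p - x p' - k =
          ((p.2 : ℝ) * p'.1 - p'.2 * p.1 - k * p.1 * p'.1) / ((p.1 : ℝ) * p'.1) := by
        rw [hxdef]
        simp only
        field_simp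
      rw [h3, abs_div, abs_of_pos (by positivity : (0 : ℝ) < (p.1 : ℝ) * p'.1)]
      have h4 : (p.1 : ℝ) ≤ Q := by exact_mod_cast hq2
      have h5 : (p'.1 : ℝ) ≤ Q := by exact_mod_cast hq2'
      have h6 : (p.1 : ℝ) * p'.1 ≤ (Q : ℝ) ^ 2 := by nlinarith
      exact div_le_div₀ (by positivity) h2 (by positivity) h6) N a
  have h1 : (1 : ℝ) / (1 / (Q : ℝ) ^ 2) = (Q : ℝ) ^ 2 := by
    rw [one_div_one_div]
  rw [h1] at hmain
  exact hmain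

end Pool.Agent.Lib.BV
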