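import Pool.Agent.Lib.BV.Defs

/-!
# BV-Gauss: the Gauss sum of a primitive character has modulus √q

PROOF. Mathlib: `gaussSum_mulShift_of_isPrimitive`: for primitive χ and all a: ∑_x χ(x) e(a x) = χ⁻¹(a) τ, where τ = gaussSum χ e and
e = ZMod.stdAddChar (mulShift a x = e (a x)). Take squared moduli and sum over a ∈ ZMod q: the left side is
∑_a ∑_{x,y} χ(x) conj(χ(y)) e(a (x - y)) = q ∑_x |χ(x)|² = q φ(q) (orthogonality: `AddChar.sum_eq_ite`/
`AddChar.sum_mulShift` : ∑_a e(a t) = if t = 0 then q else 0; conj(e(t)) = e(-t), |e| = 1; |χ(x)|² = 1 on units and 0 otherwise,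
number of units = φ(q), `ZMod.card_units_eq_totient`); the right side is |τ|² ∑_a |χ⁻¹(a)|² = |τ|² φ(q). Divide by φ(q) > 0.
-/

set_option autoImplicit false

open Finset

namespace Pool.Agent.Lib.BV

private theorem gauss_conj_char {q : ℕ} [NeZero q] (χ : DirichletCharacter ℂ q) (x : ZMod q) :
    (starRingEnd ℂ) (χ x) = χ⁻¹ x := by
  have h := MulChar.star_apply' χ x
  exact h

private theorem gauss_sumsq {q : ℕ} [NeZero q] (χ : DirichletCharacter ℂ q) :
    ∑ x : ZMod q, χ x * (starRingEnd ℂ) (χ x) = (q.totient : ℂ) := by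
  have h1 : ∀ x : ZMod q, χ x * (starRingEnd ℂ) (χ x) = (1 : DirichletCharacter ℂ q) x := by
    intro x
    rw [gauss_conj_char, ← MulChar.mul_apply, mul_inv_cancel]
  rw [sum_congr rfl fun x _ => h1 x, MulChar.sum_one_eq_card_units, ZMod.card_units_eq_totient]

private theorem gauss_shift {q : ℕ} [NeZero q] (χ : DirichletCharacter ℂ q) (hχ : χ.IsPrimitive)
    (a : ZMod q) :
    ∑ x : ZMod q, χ x * ZMod.stdAddChar (a * x) =
      χ⁻¹ a * gaussSum χ (ZMod.stdAddChar (N := q)) := by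
  rw [← gaussSum_mulShift_of_isPrimitive _ hχ a]
  rfl

theorem gauss_norm {q : ℕ} [NeZero q] (χ : DirichletCharacter ℂ q) (hχ : χ.IsPrimitive) :
    ‖gaussSum χ (ZMod.stdAddChar (N := q))‖ ^ 2 = q := by
  classical
  set τ : ℂ := gaussSum χ (ZMod.stdAddChar (N := q)) with hτ
  set e : AddChar (ZMod q) ℂ := ZMod.stdAddChar (N := q) with he
  -- the right side
  have h1 : ∑ a : ZMod q, (∑ x : ZMod q, χ x * e (a * x)) *
      (starRingEnd ℂ) (∑ x : ZMod q, χ x * e (a * x)) = (q.totient : ℂ) * (τ * (starRingEnd ℂ) τ) := by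
    rw [← gauss_sumsq χ⁻¹, sum_mul]
    refine sum_congr rfl fun a _ => ?_
    rw [gauss_shift χ hχ a, map_mul]
    ring
  -- the left side
  have h2 : ∑ a : ZMod q, (∑ x : ZMod q, χ x * e (a * x)) *
      (starRingEnd ℂ) (∑ x : ZMod q, χ x * e (a * x)) = (q : ℂ) * q.totient := by
    have h3 : ∀ a : ZMod q, (∑ x : ZMod q, χ x * e (a * x)) *
        (starRingEnd ℂ) (∑ x : ZMod q, χ x * e (a * x)) =
        ∑ x : ZMod q, ∑ y : ZMod q, χ x * (starRingEnd ℂ) (χ y) * e (a * (x - y)) := by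
      intro a
      rw [map_sum, sum_mul_sum]
      refine sum_congr rfl fun x _ => sum_congr rfl fun y _ => ?_
      rw [map_mul (starRingEnd ℂ), ← AddChar.map_neg_eq_conj, mul_sub, sub_eq_add_neg,
        AddChar.map_add_eq_mul]
      ring
    rw [sum_congr rfl fun a _ => h3 a, sum_comm]
    have h4 : ∀ x : ZMod q, ∑ a : ZMod q, ∑ y : ZMod q,
        χ x * (starRingEnd ℂ) (χ y) * e (a * (x - y)) = q * (χ x * (starRingEnd ℂ) (χ x)) := by
      intro x
      rw [sum_comm]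
      have h5 : ∀ y : ZMod q, ∑ a : ZMod q, χ x * (starRingEnd ℂ) (χ y) * e (a * (x - y)) =
          if y = x then (q : ℂ) * (χ x * (starRingEnd ℂ) (χ y)) else 0 := by
        intro y
        rw [← mul_sum, AddChar.sum_mulShift _ (ZMod.isPrimitive_stdAddChar q), ZMod.card]
        by_cases hyx : y = x
        · rw [if_pos hyx, if_pos (sub_eq_zero.2 hyx.symm)]
          ring
        · rw [if_neg hyx, if_neg (fun h => hyx (sub_eq_zero.1 h).symm)]
          simp
      rw [sum_congr rfl fun y _ => h5 y, sum_ite_eq' univ x]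
      simp
    rw [sum_congr rfl fun x _ => h4 x, ← mul_sum, gauss_sumsq]
  rw [h2] at h1
  have h6 : (q.totient : ℂ) ≠ 0 := by
    have : 0 < q.totient := Nat.totient_pos.2 (NeZero.pos q)
    exact_mod_cast this.ne'
  have h7 : τ * (starRingEnd ℂ) τ = (q : ℂ) := by
    apply mul_left_cancel₀ h6
    rw [← h1]
    ring
  rw [Complex.mul_conj, Complex.normSq_eq_norm_sq] at h7
  exact_mod_cast h7

/-- `∑_{n ≤ N} a_n χ⁻¹(n)` times the Gauss sum is the sum of `χ(x) S(x/q)` -/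
theorem gauss_expand {q : ℕ} [NeZero q] (χ : DirichletCharacter ℂ q) (hχ : χ.IsPrimitive) (N : ℕ)
    (a : ℕ → ℂ) :
    (∑ n ∈ Icc 1 N, a n * χ⁻¹ (n : ZMod q)) * gaussSum χ (ZMod.stdAddChar (N := q)) =
      ∑ x : ZMod q, χ x * ∑ n ∈ Icc 1 N, a n * ZMod.stdAddChar ((n : ZMod q) * x) := by
  rw [sum_mul]
  have h1 : ∀ x : ZMod q, χ x * ∑ n ∈ Icc 1 N, a n * ZMod.stdAddChar ((n : ZMod q) * x) =
      ∑ n ∈ Icc 1 N, a n * (χ x * ZMod.stdAddChar ((n : ZMod q) * x)) := by
    intro x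
    rw [mul_sum]
    refine sum_congr rfl fun n _ => ?_
    ring
  rw [sum_congr rfl fun x _ => h1 x, sum_comm]
  refine sum_congr rfl fun n _ => ?_
  rw [← mul_sum, gauss_shift χ hχ, mul_assoc]

end Pool.Agent.Lib.BV
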