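import Pool.Agent.Lib.BV.Defs

/-!
# BV-Orth: orthogonality of characters in mean square

PROOF. Expand: ∑_χ |∑_x χ(x) c(x)|² = ∑_{x,y} c(x) conj(c(y)) ∑_χ χ(x) conj(χ(y)). If y is not a unit χ(y) = 0 for all χ (same for x).
If y is a unit, conj(χ(y)) = χ(y⁻¹) (|χ(y)| = 1; `MulChar.star_apply'`/ `MulChar.star_eq_inv`, χ⁻¹ y = χ (Ring.inverse y)) and
∑_χ χ(y⁻¹) χ(x) = φ(q) if x = y and 0 otherwise (`DirichletCharacter.sum_char_inv_mul_char_eq ℂ`). Hence the sum is
φ(q) ∑_{y unit} |c(y)|². Work with complex numbers: (‖z‖²:ℂ) = z conj z (`Complex.mul_conj'`), then cast.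
-/

set_option autoImplicit false

open Finset

namespace Pool.Agent.Lib.BV

private theorem orth_conj {q : ℕ} [NeZero q] (χ : DirichletCharacter ℂ q) {y : ZMod q} (hy : IsUnit y) :
    (starRingEnd ℂ) (χ y) = χ y⁻¹ := by
  have h1 : ‖χ y‖ = 1 := by
    obtain ⟨u, rfl⟩ := hy
    exact DirichletCharacter.unit_norm_eq_one χ u
  rw [← Complex.inv_eq_conj h1]
  have h2 : χ y * χ y⁻¹ = 1 := by
    rw [← map_mul, ZMod.mul_inv_of_unit _ hy, map_one]
  exact (eq_inv_of_mul_eq_one_right h2).symm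

private theorem orth_pair {q : ℕ} [NeZero q] (x y : ZMod q) (hy : IsUnit y) :
    ∑ χ : DirichletCharacter ℂ q, χ x * (starRingEnd ℂ) (χ y) =
      if y = x then (q.totient : ℂ) else 0 := by
  rw [← DirichletCharacter.sum_char_inv_mul_char_eq ℂ hy x]
  refine sum_congr rfl fun χ _ => ?_
  rw [orth_conj χ hy, mul_comm]

open scoped Classical in
theorem orth {q : ℕ} [NeZero q] (c : ZMod q → ℂ) :
    ∑ χ : DirichletCharacter ℂ q, ‖∑ x : ZMod q, χ x * c x‖ ^ 2 =
      (q.totient : ℝ) * ∑ x ∈ univ.filter (fun x : ZMod q => IsUnit x), ‖c x‖ ^ 2 := by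
  have h1 : ((∑ χ : DirichletCharacter ℂ q, ‖∑ x : ZMod q, χ x * c x‖ ^ 2 : ℝ) : ℂ) =
      (((q.totient : ℝ) * ∑ x ∈ univ.filter (fun x : ZMod q => IsUnit x), ‖c x‖ ^ 2 : ℝ) : ℂ) := by
    rw [Complex.ofReal_sum]
    have h2 : ∀ χ : DirichletCharacter ℂ q, ((‖∑ x : ZMod q, χ x * c x‖ ^ 2 : ℝ) : ℂ) =
        ∑ y : ZMod q, ∑ x : ZMod q, (c x * (starRingEnd ℂ) (c y)) *
          (χ x * (starRingEnd ℂ) (χ y)) := by
      intro χ
      rw [Complex.ofReal_pow, ← Complex.mul_conj', map_sum, sum_mul_sum, sum_comm]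
      refine sum_congr rfl fun y _ => sum_congr rfl fun x _ => ?_
      rw [map_mul]
      ring
    rw [sum_congr rfl fun χ _ => h2 χ, sum_comm]
    push_cast
    rw [mul_sum, sum_filter]
    refine sum_congr rfl fun y _ => ?_
    rw [sum_comm]
    by_cases hy : IsUnit y
    · rw [if_pos hy]
      have h3 : ∀ x : ZMod q, ∑ χ : DirichletCharacter ℂ q, (c x * (starRingEnd ℂ) (c y)) *
          (χ x * (starRingEnd ℂ) (χ y)) =
          if y = x then (c x * (starRingEnd ℂ) (c y)) * (q.totient : ℂ) else 0 := by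
        intro x
        rw [← mul_sum, orth_pair x y hy]
        split_ifs <;> simp
      rw [sum_congr rfl fun x _ => h3 x, sum_ite_eq, if_pos (mem_univ _), Complex.mul_conj']
      ring
    · rw [if_neg hy]
      refine sum_eq_zero fun x _ => sum_eq_zero fun χ _ => ?_
      rw [MulChar.map_nonunit χ hy]
      simp
  exact_mod_cast h1

end Pool.Agent.Lib.BV
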