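import Pool.Agent.Lib.BV.Defs
import Pool.Agent.Lib.BV.Farey
import Pool.Agent.Lib.BV.Gauss
import Pool.Agent.Lib.BV.Orth

/-!
# BV-LSM: the multiplicative large sieve

PROOF. Fix q ≥ 1 (NeZero). PS q is a sum over primitive χ; χ ↦ χ⁻¹ permutes the primitive characters (`DirichletCharacter.conductor_inv`), so
PS q (‖∑ a_n χ(n)‖²) = PS q (‖∑ a_n χ⁻¹(n)‖²). By `gauss_expand` and `gauss_norm`: q ‖∑ a_n χ⁻¹(n)‖² = ‖∑_x χ(x) S(x)‖²,
S(x) = ∑_n a_n stdAddChar(n x). Drop primitivity (`PS_le_univ`) and use `orth`: q PS q(...) ≤ φ(q) ∑_{x unit} ‖S(x)‖². Hence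
(q/φ(q)) PS q(...) ≤ ∑_{x unit} ‖S(x)‖² = ∑_{c < q, (c,q)=1} ‖∑ a_n e(n c/q)‖² (bijection x ↦ x.val, `ZMod.isUnit_iff_coprime`,
`ZMod.stdAddChar_coe`/`ZMod.toCircle` : stdAddChar (j : ZMod q) = exp(2 π i j / q) = e(j/q)). Sum over q ≤ Q and use `farey_sieve`.
-/

set_option autoImplicit false

open Finset

namespace Pool.Agent.Lib.BV

open Pool.Agent.Lib.GT in
private theorem LSM_stdAddChar {q : ℕ} [NeZero q] (n c : ℕ) :
    ZMod.stdAddChar ((n : ZMod q) * (c : ZMod q)) = e (n * ((c : ℝ) / q)) := by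
  have h1 : ((n : ZMod q) * (c : ZMod q)) = (((n * c : ℕ) : ℤ) : ZMod q) := by
    push_cast
    rfl
  rw [h1, ZMod.stdAddChar_coe]
  unfold e
  congr 1
  push_cast
  ring

open Pool.Agent.Lib.GT in
/-- One modulus. -/
private theorem LSM_one {q : ℕ} (hq : 1 ≤ q) (N : ℕ) (a : ℕ → ℂ) :
    ((q : ℝ) / q.totient) * PS q (fun χ => ‖∑ n ∈ Icc 1 N, a n * χ (n : ZMod q)‖ ^ 2) ≤
      ∑ c ∈ (range q).filter (fun c => c.Coprime q),
        ‖∑ n ∈ Icc 1 N, a n * e (n * ((c : ℝ) / q))‖ ^ 2 := by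
  classical
  have hne : NeZero q := ⟨by omega⟩
  have hq0 : (0 : ℝ) < q := by exact_mod_cast hq
  have hφ := tot_pos hq
  set S : ZMod q → ℂ := fun x => ∑ n ∈ Icc 1 N, a n * ZMod.stdAddChar ((n : ZMod q) * x) with hS
  -- inversion of the characters
  have h1 : PS q (fun χ => ‖∑ n ∈ Icc 1 N, a n * χ (n : ZMod q)‖ ^ 2) =
      PS q (fun χ => ‖∑ n ∈ Icc 1 N, a n * χ⁻¹ (n : ZMod q)‖ ^ 2) := by
    unfold PS
    refine sum_nbij' (fun χ => χ⁻¹) (fun χ => χ⁻¹) ?_ ?_ ?_ ?_ ?_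
    · intro χ hχ
      rw [mem_filter] at hχ ⊢
      refine ⟨mem_univ _, ?_⟩
      rw [DirichletCharacter.isPrimitive_def, DirichletCharacter.conductor_inv]
      exact hχ.2
    · intro χ hχ
      rw [mem_filter] at hχ ⊢
      refine ⟨mem_univ _, ?_⟩
      rw [DirichletCharacter.isPrimitive_def, DirichletCharacter.conductor_inv]
      exact hχ.2
    · intro χ _
      exact inv_inv χ
    · intro χ _
      exact inv_inv χ
    · intro χ _
      simp only [inv_inv]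
  -- Gauss sums
  have h2 : (q : ℝ) * PS q (fun χ => ‖∑ n ∈ Icc 1 N, a n * χ⁻¹ (n : ZMod q)‖ ^ 2) ≤
      PS q (fun χ => ‖∑ x : ZMod q, χ x * S x‖ ^ 2) := by
    rw [← PS_mul]
    refine PS_mono fun χ hχ => ?_
    rw [hS, ← gauss_expand χ hχ N a, norm_mul, mul_pow, gauss_norm χ hχ, mul_comm]
  have h3 : PS q (fun χ => ‖∑ x : ZMod q, χ x * S x‖ ^ 2) ≤
      (q.totient : ℝ) * ∑ x ∈ univ.filter (fun x : ZMod q => IsUnit x), ‖S x‖ ^ 2 := by
    refine (PS_le_univ fun χ => by positivity).trans (le_of_eq ?_)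
    exact orth S
  have h4 : ∑ x ∈ univ.filter (fun x : ZMod q => IsUnit x), ‖S x‖ ^ 2 =
      ∑ c ∈ (range q).filter (fun c => c.Coprime q),
        ‖∑ n ∈ Icc 1 N, a n * e (n * ((c : ℝ) / q))‖ ^ 2 := by
    symm
    refine sum_nbij' (fun c => (c : ZMod q)) (fun x => x.val) ?_ ?_ ?_ ?_ ?_
    · intro c hc
      rw [mem_filter] at hc ⊢
      exact ⟨mem_univ _, (ZMod.isUnit_iff_coprime c q).2 hc.2⟩
    · intro x hx
      rw [mem_filter] at hx ⊢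
      refine ⟨mem_range.2 (ZMod.val_lt x), ?_⟩
      rw [← ZMod.isUnit_iff_coprime, ZMod.natCast_zmod_val]
      exact hx.2
    · intro c hc
      exact ZMod.val_cast_of_lt (mem_range.1 (mem_filter.1 hc).1)
    · intro x _
      exact ZMod.natCast_zmod_val x
    · intro c _
      rw [hS]
      congr 2
      exact sum_congr rfl fun n _ => by rw [LSM_stdAddChar n c]
  rw [← h4, div_mul_eq_mul_div, div_le_iff₀ hφ, h1, mul_comm (∑ x ∈ _, _)]
  exact h2.trans h3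

/-- multiplicative large sieve -/
theorem large_sieve_mul (Q N : ℕ) (a : ℕ → ℂ) :
    ∑ q ∈ Icc 1 Q, ((q : ℝ) / q.totient) *
      PS q (fun χ => ‖∑ n ∈ Icc 1 N, a n * χ (n : ZMod q)‖ ^ 2) ≤
        6 * (N + (Q : ℝ) ^ 2) * ∑ n ∈ Icc 1 N, ‖a n‖ ^ 2 :=
  (sum_le_sum fun q hq => LSM_one (mem_Icc.1 hq).1 N a).trans (farey_sieve Q N a)

end Pool.Agent.Lib.BV
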