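import Pool.Agent.Lib.BV.Defs
import Pool.Agent.Lib.BV.LSM

/-!
# BV-BL: bilinear form of the large sieve

PROOF. Write A(ψ) = ‖∑ α ψ‖, B(ψ) = ‖∑ β ψ‖, a = √∑‖α‖², b = √∑‖β‖². If M = 0 or N = 0 both sides vanish / are ≥ 0. BLOCK: for E ≥ 1,
∑_{E < d ≤ 2E} (1/φ(d)) PS(A B) ≤ (1/E) ∑_{E<d≤2E} (d/φ(d)) PS(A B) ≤ (1/E) (∑_{d ≤ 2E} (d/φ) PS(A²))^(1/2) (∑_{d≤2E} (d/φ) PS(B²))^(1/2)
(Cauchy-Schwarz for the double sum over (d, ψ), or A B ≤ (λ A² + B²/λ)/2 with λ optimised) ≤ (6/E) √(M + 4E²) √(N + 4E²) a b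
≤ (6/E)(√M + 2E)(√N + 2E) a b = (6 √(MN)/E + 12 (√M + √N) + 24 E) a b. SUM over E = D 2^i, i < I, where I is the least number with D 2^I ≥ Q:
if I = 0 the sum LA is empty; otherwise D 2^(I-1) < Q, ∑ 1/E ≤ 2/D, ∑ E ≤ D 2^I < 2Q and I ≤ 1 + log Q/log 2 ≤ 2 (1 + log Q).
Total ≤ (12 √(MN)/D + 24 (1 + log Q)(√M + √N) + 48 Q) a b ≤ 48 DL a b. (Prove the statement LA D (min Q (D 2^I)) ≤ ∑_{i<I} block by
induction on I.)
-/

set_option autoImplicit false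

open Finset

namespace Pool.Agent.Lib.BV

private theorem bl_cs (S : Finset ℕ) (w : ℕ → ℝ) (hw : ∀ d, 0 ≤ w d)
    (A B : (d : ℕ) → DirichletCharacter ℂ d → ℝ) :
    ∑ d ∈ S, w d * PS d (fun χ => A d χ * B d χ) ≤
      √(∑ d ∈ S, w d * PS d (fun χ => A d χ ^ 2)) * √(∑ d ∈ S, w d * PS d (fun χ => B d χ ^ 2)) := by
  classical
  have e : ∀ F : (d : ℕ) → DirichletCharacter ℂ d → ℝ, ∑ d ∈ S, w d * PS d (F d) =
      ∑ x ∈ S.sigma (fun d => univ.filter (fun χ : DirichletCharacter ℂ d => χ.IsPrimitive)),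
        w x.1 * F x.1 x.2 := by
    intro F
    rw [Finset.sum_sigma]
    refine sum_congr rfl fun d _ => ?_
    unfold PS
    rw [mul_sum]
  rw [e, e, e]
  have h := Real.sum_mul_le_sqrt_mul_sqrt
    (S.sigma (fun d => univ.filter (fun χ : DirichletCharacter ℂ d => χ.IsPrimitive)))
    (fun x => √(w x.1) * A x.1 x.2) (fun x => √(w x.1) * B x.1 x.2)
  have e1 : ∀ x ∈ S.sigma (fun d => univ.filter (fun χ : DirichletCharacter ℂ d => χ.IsPrimitive)),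
      w x.1 * (A x.1 x.2 * B x.1 x.2) = √(w x.1) * A x.1 x.2 * (√(w x.1) * B x.1 x.2) := by
    intro x _
    have := Real.mul_self_sqrt (hw x.1)
    linear_combination (-(A x.1 x.2 * B x.1 x.2)) * this
  have e2 : ∀ F : (d : ℕ) → DirichletCharacter ℂ d → ℝ,
      ∀ x ∈ S.sigma (fun d => univ.filter (fun χ : DirichletCharacter ℂ d => χ.IsPrimitive)),
      w x.1 * F x.1 x.2 ^ 2 = (√(w x.1) * F x.1 x.2) ^ 2 := by
    intro F x _
    have := Real.mul_self_sqrt (hw x.1)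
    linear_combination (-(F x.1 x.2 ^ 2)) * this
  rw [sum_congr rfl e1, sum_congr rfl (e2 A), sum_congr rfl (e2 B)]
  exact h

private theorem bl_block (M N E : ℕ) (α β : ℕ → ℂ) (hE : 1 ≤ E) :
    LA E (2 * E) (fun d ψ => ‖∑ m ∈ Icc 1 M, α m * ψ (m : ZMod d)‖ *
        ‖∑ n ∈ Icc 1 N, β n * ψ (n : ZMod d)‖) ≤
      6 * (√M * √N / E + 2 * (√M + √N) + 4 * E) *
        (√(∑ m ∈ Icc 1 M, ‖α m‖ ^ 2) * √(∑ n ∈ Icc 1 N, ‖β n‖ ^ 2)) := by
  have hE' : (0 : ℝ) < E := by exact_mod_cast hE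
  have h1 : LA E (2 * E) (fun d ψ => ‖∑ m ∈ Icc 1 M, α m * ψ (m : ZMod d)‖ *
        ‖∑ n ∈ Icc 1 N, β n * ψ (n : ZMod d)‖) ≤
      (1 / (E : ℝ)) * ∑ d ∈ Icc 1 (2 * E), ((d : ℝ) / d.totient) *
        PS d (fun ψ => ‖∑ m ∈ Icc 1 M, α m * ψ (m : ZMod d)‖ *
        ‖∑ n ∈ Icc 1 N, β n * ψ (n : ZMod d)‖) := by
    unfold LA
    rw [mul_sum]
    refine (sum_le_sum fun d hd => ?_).trans
      (sum_le_sum_of_subset_of_nonneg (s := Ioc E (2 * E)) (fun d hd => ?_) fun d _ _ => ?_)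
    · rw [mem_Ioc] at hd
      rw [← mul_assoc]
      refine mul_le_mul_of_nonneg_right ?_ (PS_nonneg fun χ => by positivity)
      have h2 : (0 : ℝ) < d.totient := tot_pos (by omega)
      have h3 : (E : ℝ) ≤ d := by exact_mod_cast hd.1.le
      rw [one_div_mul_eq_div, div_div, div_le_div_iff₀ h2 (by positivity)]
      nlinarith
    · rw [mem_Ioc] at hd
      rw [mem_Icc]
      omega
    · have := PS_nonneg (d := d) (f := fun ψ => ‖∑ m ∈ Icc 1 M, α m * ψ (m : ZMod d)‖ *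
        ‖∑ n ∈ Icc 1 N, β n * ψ (n : ZMod d)‖) fun χ => by positivity
      positivity
  have h2 := bl_cs (Icc 1 (2 * E)) (fun d => (d : ℝ) / d.totient) (fun d => by positivity)
    (fun d ψ => ‖∑ m ∈ Icc 1 M, α m * ψ (m : ZMod d)‖)
    (fun d ψ => ‖∑ n ∈ Icc 1 N, β n * ψ (n : ZMod d)‖)
  have h3 : ∀ (K : ℕ) (γ : ℕ → ℂ),
      √(∑ d ∈ Icc 1 (2 * E), ((d : ℝ) / d.totient) *
        PS d (fun ψ => ‖∑ m ∈ Icc 1 K, γ m * ψ (m : ZMod d)‖ ^ 2)) ≤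
      √6 * (√K + 2 * E) * √(∑ m ∈ Icc 1 K, ‖γ m‖ ^ 2) := by
    intro K γ
    refine (Real.sqrt_le_sqrt (large_sieve_mul (2 * E) K γ)).trans ?_
    have h4 : (0 : ℝ) ≤ ∑ m ∈ Icc 1 K, ‖γ m‖ ^ 2 := sum_nonneg fun _ _ => by positivity
    rw [Real.sqrt_mul (by positivity), Real.sqrt_mul (by norm_num)]
    refine mul_le_mul_of_nonneg_right (mul_le_mul_of_nonneg_left ?_ (by positivity)) (by positivity)
    rw [Real.sqrt_le_left (by positivity)]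
    have h5 := Real.sq_sqrt (show (0 : ℝ) ≤ K by positivity)
    have h6 := Real.sqrt_nonneg (K : ℝ)
    push_cast
    nlinarith [mul_nonneg h6 hE'.le]
  set a := √(∑ m ∈ Icc 1 M, ‖α m‖ ^ 2) with ha
  set b := √(∑ n ∈ Icc 1 N, ‖β n‖ ^ 2) with hb
  have ha0 : 0 ≤ a := Real.sqrt_nonneg _
  have hb0 : 0 ≤ b := Real.sqrt_nonneg _
  refine h1.trans ?_
  have h4 := h2.trans (mul_le_mul (h3 M α) (h3 N β) (Real.sqrt_nonneg _) (by positivity))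
  have h5 : √(6 : ℝ) * √6 = 6 := Real.mul_self_sqrt (by norm_num)
  refine (mul_le_mul_of_nonneg_left h4 (by positivity)).trans (le_of_eq ?_)
  rw [← ha, ← hb]
  field_simp
  have h6 : √(6 : ℝ) ^ 2 = 6 := Real.sq_sqrt (by norm_num)
  rw [h6]
  ring

private theorem bl_tel (D : ℕ) (G : (d : ℕ) → DirichletCharacter ℂ d → ℝ) (I : ℕ) :
    LA D (D * 2 ^ I) G = ∑ i ∈ range I, LA (D * 2 ^ i) (2 * (D * 2 ^ i)) G := by
  induction I with
  | zero =>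
    simp [LA]
  | succ I ih =>
    rw [sum_range_succ, ← ih]
    unfold LA
    have e : D * 2 ^ (I + 1) = 2 * (D * 2 ^ I) := by ring
    rw [e, sum_Ioc_consecutive]
    · exact Nat.le_mul_of_pos_right D (by positivity)
    · omega

theorem bilinear : ∃ C : ℝ, 0 < C ∧ ∀ (M N D Q : ℕ) (α β : ℕ → ℂ), 1 ≤ D →
    LA D Q (fun d ψ => ‖∑ m ∈ Icc 1 M, α m * ψ (m : ZMod d)‖ * ‖∑ n ∈ Icc 1 N, β n * ψ (n : ZMod d)‖) ≤
      C * DL M N D Q * √(∑ m ∈ Icc 1 M, ‖α m‖ ^ 2) * √(∑ n ∈ Icc 1 N, ‖β n‖ ^ 2) := by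
  refine ⟨48, by norm_num, fun M N D Q α β hD => ?_⟩
  have hD' : (0 : ℝ) < D := by exact_mod_cast hD
  have hDL := DL_nonneg M N D Q
  rcases le_or_gt Q D with hQ | hQ
  · have : LA D Q (fun d ψ => ‖∑ m ∈ Icc 1 M, α m * ψ (m : ZMod d)‖ *
        ‖∑ n ∈ Icc 1 N, β n * ψ (n : ZMod d)‖) = 0 := by
      unfold LA
      rw [Ioc_eq_empty (by omega), sum_empty]
    rw [this]
    positivity
  have hex : ∃ I, Q ≤ D * 2 ^ I := ⟨Q, by
    have h1 : Q < 2 ^ Q := Nat.lt_two_pow_self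
    nlinarith [Nat.one_le_two_pow (n := Q)]⟩
  obtain ⟨I, hI, hmin⟩ : ∃ I, Q ≤ D * 2 ^ (I + 1) ∧ D * 2 ^ I < Q := by
    classical
    have h1 := Nat.find_spec hex
    have h0 : Nat.find hex ≠ 0 := by
      intro h0
      rw [h0] at h1
      omega
    obtain ⟨I, hI⟩ := Nat.exists_eq_succ_of_ne_zero h0
    refine ⟨I, ?_, ?_⟩
    · rw [hI] at h1
      exact h1
    · have := Nat.find_min hex (m := I) (by omega)
      omega
  set a := √(∑ m ∈ Icc 1 M, ‖α m‖ ^ 2) with ha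
  set b := √(∑ n ∈ Icc 1 N, ‖β n‖ ^ 2) with hb
  have ha0 : 0 ≤ a := Real.sqrt_nonneg _
  have hb0 : 0 ≤ b := Real.sqrt_nonneg _
  have h1 : LA D Q (fun d ψ => ‖∑ m ∈ Icc 1 M, α m * ψ (m : ZMod d)‖ *
        ‖∑ n ∈ Icc 1 N, β n * ψ (n : ZMod d)‖) ≤
      LA D (D * 2 ^ (I + 1)) (fun d ψ => ‖∑ m ∈ Icc 1 M, α m * ψ (m : ZMod d)‖ *
        ‖∑ n ∈ Icc 1 N, β n * ψ (n : ZMod d)‖) := by
    unfold LA
    refine sum_le_sum_of_subset_of_nonneg (Ioc_subset_Ioc le_rfl hI) fun d _ _ => ?_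
    refine mul_nonneg (by positivity) (PS_nonneg fun χ => by positivity)
  refine h1.trans ?_
  rw [bl_tel]
  have h2 : ∀ i ∈ range (I + 1), LA (D * 2 ^ i) (2 * (D * 2 ^ i))
      (fun d ψ => ‖∑ m ∈ Icc 1 M, α m * ψ (m : ZMod d)‖ *
        ‖∑ n ∈ Icc 1 N, β n * ψ (n : ZMod d)‖) ≤
      6 * (√M * √N / D * (1 / 2) ^ i + 2 * (√M + √N) + 4 * D * 2 ^ i) * (a * b) := by
    intro i _
    refine (bl_block M N (D * 2 ^ i) α β (Nat.mul_pos hD (by positivity))).trans (le_of_eq ?_)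
    rw [← ha, ← hb]
    push_cast
    rw [one_div, inv_pow]
    field_simp
  refine (sum_le_sum h2).trans ?_
  rw [← sum_mul, ← mul_sum, sum_add_distrib, sum_add_distrib, sum_const,
    card_range, nsmul_eq_mul, ← mul_sum, ← mul_sum]
  have h3 : ∑ i ∈ range (I + 1), (1 / 2 : ℝ) ^ i ≤ 2 := by
    rw [geom_sum_eq (by norm_num)]
    have : (0 : ℝ) < (1 / 2) ^ (I + 1) := by positivity
    rw [div_le_iff_of_neg (by norm_num)]
    linarith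
  have h4 : ∑ i ∈ range (I + 1), (2 : ℝ) ^ i ≤ 2 * 2 ^ I := by
    rw [geom_sum_eq (by norm_num)]
    rw [pow_succ]
    linarith
  have h5 : (D : ℝ) * 2 ^ I ≤ Q := by exact_mod_cast hmin.le
  have h6 : ((I + 1 : ℕ) : ℝ) ≤ 2 * (1 + Real.log Q) := by
    have h7 : (2 : ℝ) ^ I ≤ Q := by
      refine le_trans ?_ h5
      have : (1 : ℝ) ≤ D := by exact_mod_cast hD
      nlinarith [show (0 : ℝ) < 2 ^ I by positivity]
    have h8 := Real.log_le_log (by positivity) h7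
    rw [Real.log_pow] at h8
    have h9 := Real.log_two_gt_d9
    push_cast
    nlinarith [show (0 : ℝ) ≤ I by positivity]
  have hM : 0 ≤ √(M : ℝ) := Real.sqrt_nonneg _
  have hN : 0 ≤ √(N : ℝ) := Real.sqrt_nonneg _
  have hlog : 0 ≤ Real.log Q := Real.log_natCast_nonneg Q
  have h10 : 6 * (√M * √N / D * ∑ i ∈ range (I + 1), (1 / 2 : ℝ) ^ i +
      ((I + 1 : ℕ) : ℝ) * (2 * (√M + √N)) + 4 * D * ∑ i ∈ range (I + 1), (2 : ℝ) ^ i) ≤
      48 * DL M N D Q := by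
    unfold DL
    rw [Real.sqrt_mul (by positivity)]
    have e1 : √M * √N / D * ∑ i ∈ range (I + 1), (1 / 2 : ℝ) ^ i ≤ √M * √N / D * 2 :=
      mul_le_mul_of_nonneg_left h3 (by positivity)
    have e2 : ((I + 1 : ℕ) : ℝ) * (2 * (√M + √N)) ≤ 2 * (1 + Real.log Q) * (2 * (√M + √N)) :=
      mul_le_mul_of_nonneg_right h6 (by positivity)
    have e3 : 4 * D * ∑ i ∈ range (I + 1), (2 : ℝ) ^ i ≤ 4 * D * (2 * 2 ^ I) :=
      mul_le_mul_of_nonneg_left h4 (by positivity)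
    have e4 : 0 ≤ √M * √N / D := by positivity
    have e5 : 0 ≤ (1 + Real.log Q) * (√M + √N) := by positivity
    nlinarith
  refine (mul_le_mul_of_nonneg_right h10 (by positivity)).trans (le_of_eq ?_)
  ring

end Pool.Agent.Lib.BV
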