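import Pool.Agent.Lib.BV.Defs

/-!
# BV-RB: the character sum of FB as a double sum

PROOF. By definition CS (FB g b) X r ψ = ∑_{n ≤ X, (n,r)=1} ∑_{p | n, p ≤ b(n/p)} g(n/p) log p ψ(n). Group by (m, p) = (n/p, p): the map (n, p) ↦ (n/p, p) is a bijection from
{(n,p): 1 ≤ n ≤ X, (n,r) = 1, p prime divisor of n, p ≤ b(n/p)} onto {(m,p): 1 ≤ m ≤ X, 1 ≤ p ≤ X/m, p < b m + 1, (m,r) = 1 = (p,r), p prime}
(inverse (m,p) ↦ (m p, p); m p ≤ X because p ≤ X/m; (m p, r) = 1 iff both). ψ(m p) = ψ(m) ψ(p). Terms with p not prime vanish by th p = 0.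
(`Finset.sum_sigma'`, `Finset.sum_bij'` or `Finset.sum_nbij'`.)
-/

set_option autoImplicit false

open Finset

namespace Pool.Agent.Lib.BV

theorem CS_FB (g : ℕ → ℝ) (b : ℕ → ℕ) (X r : ℕ) {d : ℕ} (ψ : DirichletCharacter ℂ d) :
    CS (fun n => (FB g b n : ℂ)) X r ψ =
      ∑ m ∈ Icc 1 X, ∑ p ∈ (Icc 1 (X / m)).filter (fun p => p < b m + 1),
        (if m.Coprime r then (g m : ℂ) else 0) * (if p.Coprime r then (th p : ℂ) else 0) *
          ψ (m : ZMod d) * ψ (p : ZMod d) := by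
  classical
  rw [Finset.sum_sigma' (Icc 1 X) (fun m => (Icc 1 (X / m)).filter (fun p => p < b m + 1))
    (fun m p => (if m.Coprime r then (g m : ℂ) else 0) * (if p.Coprime r then (th p : ℂ) else 0) *
          ψ (m : ZMod d) * ψ (p : ZMod d))]
  rw [← Finset.sum_filter_of_ne (p := fun x : (_ : ℕ) × ℕ => x.1.Coprime r ∧ x.2.Coprime r ∧ x.2.Prime)
    (s := (Icc 1 X).sigma (fun m => (Icc 1 (X / m)).filter (fun p => p < b m + 1)))]
  · unfold CS FB
    have h1 : ∀ n ∈ (Icc 1 X).filter (fun n => n.Coprime r),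
        ((∑ p ∈ n.primeFactors.filter (fun p => p ≤ b (n / p)), g (n / p) * Real.log p : ℝ) : ℂ) *
          ψ (n : ZMod d) =
        ∑ p ∈ n.primeFactors.filter (fun p => p ≤ b (n / p)),
          ((g (n / p) * Real.log p : ℝ) : ℂ) * ψ (n : ZMod d) := by
      intro n _
      rw [Complex.ofReal_sum, sum_mul]
    rw [sum_congr rfl h1, Finset.sum_sigma']
    refine Finset.sum_nbij' (fun x : (_ : ℕ) × ℕ => (⟨x.1 / x.2, x.2⟩ : (_ : ℕ) × ℕ))
      (fun x : (_ : ℕ) × ℕ => (⟨x.1 * x.2, x.2⟩ : (_ : ℕ) × ℕ)) ?_ ?_ ?_ ?_ ?_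
    · rintro ⟨n, p⟩ hx
      simp only [mem_sigma, mem_filter, mem_Icc, Nat.mem_primeFactors] at hx
      obtain ⟨⟨⟨hn1, hnX⟩, hnr⟩, ⟨hp, hpn, _⟩, hb⟩ := hx
      obtain ⟨m, rfl⟩ := hpn
      rw [Nat.mul_div_cancel_left _ hp.pos] at hb
      have hm : 1 ≤ m := by
        rcases Nat.eq_zero_or_pos m with h | h
        · subst h
          omega
        · exact h
      simp only [mem_sigma, mem_filter, mem_Icc, Nat.mul_div_cancel_left _ hp.pos]
      refine ⟨⟨⟨hm, ?_⟩, ⟨hp.one_le, ?_⟩, by omega⟩, ?_, ?_, hp⟩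
      · exact (Nat.le_mul_of_pos_left m hp.pos).trans hnX
      · rw [Nat.le_div_iff_mul_le hm]
        exact hnX
      · exact Nat.Coprime.coprime_mul_left hnr
      · exact Nat.Coprime.coprime_mul_right hnr
    · rintro ⟨m, p⟩ hx
      simp only [mem_sigma, mem_filter, mem_Icc] at hx
      obtain ⟨⟨⟨hm1, hmX⟩, ⟨hp1, hpX⟩, hb⟩, hmr, hpr, hp⟩ := hx
      rw [Nat.le_div_iff_mul_le hm1] at hpX
      simp only [mem_sigma, mem_filter, mem_Icc, Nat.mem_primeFactors,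
        Nat.mul_div_cancel _ hp.pos]
      refine ⟨⟨⟨?_, ?_⟩, ?_⟩, ⟨hp, ?_, ?_⟩, ?_⟩
      · exact Nat.mul_pos hm1 hp1
      · rw [mul_comm]
        exact hpX
      · exact Nat.Coprime.mul_left hmr hpr
      · exact Dvd.intro_left m rfl
      · exact (Nat.mul_pos hm1 hp1).ne'
      · omega
    · rintro ⟨n, p⟩ hx
      simp only [mem_sigma, mem_filter, mem_Icc, Nat.mem_primeFactors] at hx
      simp only [Nat.div_mul_cancel hx.2.1.2.1]
    · rintro ⟨m, p⟩ hx
      simp only [mem_sigma, mem_filter, mem_Icc] at hx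
      simp only [Nat.mul_div_cancel _ hx.2.2.2.pos]
    · rintro ⟨n, p⟩ hx
      simp only [mem_sigma, mem_filter, mem_Icc, Nat.mem_primeFactors] at hx
      obtain ⟨⟨⟨hn1, hnX⟩, hnr⟩, ⟨hp, hpn, _⟩, hb⟩ := hx
      obtain ⟨m, rfl⟩ := hpn
      simp only [Nat.mul_div_cancel_left _ hp.pos]
      rw [if_pos (Nat.Coprime.coprime_mul_left hnr), if_pos (Nat.Coprime.coprime_mul_right hnr)]
      unfold th
      rw [if_pos hp]
      push_cast
      rw [map_mul]
      ring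
  · rintro ⟨m, p⟩ _ hne
    simp only at hne ⊢
    refine ⟨?_, ?_, ?_⟩
    · by_contra h
      rw [if_neg h] at hne
      simp at hne
    · by_contra h
      rw [if_neg h] at hne
      simp at hne
    · by_contra h
      unfold th at hne
      rw [if_neg h] at hne
      simp at hne

end Pool.Agent.Lib.BV
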