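import Pool.Agent.Lib.BV.Defs

/-!
# BV-Tree: binary tree form of the condition p < b

PROOF. Write P_k = p / 2^k, B_k = b / 2^k (natural division). For all k: [P_k < B_k] = [P_{k+1} < B_{k+1}] +
[there is c with B_k = 2c+1 and P_k = 2c] (omega, using P_{k+1} = P_k / 2, `Nat.div_div_eq_div_mul`): if P_k < B_k and the halves are
equal then P_k = 2c, B_k = 2c+1. Telescoping from k = 0 to k = J, where P_J = B_J = 0, gives the claim. The inner
sum over c ∈ range (2^J) has at most one nonzero term, c = P_k / 2 ≤ p < 2^J (`Finset.sum_eq_single` or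
`Finset.sum_ite_eq`). Induct on the number of levels: prove
[p < b] = ∑_{k < j} (...) + [p/2^j < b/2^j] for all j ≤ J.
-/

set_option autoImplicit false

open Finset

namespace Pool.Agent.Lib.BV

theorem tree_step (P B : ℕ) (m : ℕ) (hP : P < m) :
    (if P < B then (1 : ℂ) else 0) = (if P / 2 < B / 2 then (1 : ℂ) else 0) +
      ∑ c ∈ range m, (if B = 2 * c + 1 then (1 : ℂ) else 0) * (if P = 2 * c then (1 : ℂ) else 0) := by
  by_cases h : P = 2 * (P / 2) ∧ B = 2 * (P / 2) + 1
  · obtain ⟨h1, h2⟩ := h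
    rw [sum_eq_single (P / 2)]
    · rw [if_pos (by omega), if_neg (by omega), if_pos h2, if_pos h1]
      ring
    · intro c _ hc
      rw [if_neg (by omega), zero_mul]
    · intro hc
      exact absurd (mem_range.mpr (by omega)) hc
  · rw [sum_eq_zero, add_zero]
    · by_cases h1 : P < B
      · rw [if_pos h1, if_pos (by omega)]
      · rw [if_neg h1, if_neg (by omega)]
    · intro c _
      by_cases h1 : B = 2 * c + 1
      · have h2 : ¬ P = 2 * c := by omega
        rw [if_neg h2, mul_zero]
      · rw [if_neg h1, zero_mul]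

/-- the condition `p < b` as a sum of disjoint rectangles on every dyadic level -/
theorem tree (J p b : ℕ) (hp : p < 2 ^ J) (hb : b < 2 ^ J) :
    (if p < b then (1 : ℂ) else 0) = ∑ k ∈ range J, ∑ c ∈ range (2 ^ J),
      (if b / 2 ^ k = 2 * c + 1 then (1 : ℂ) else 0) * (if p / 2 ^ k = 2 * c then (1 : ℂ) else 0) := by
  have key : ∀ j : ℕ, (if p < b then (1 : ℂ) else 0) = ∑ k ∈ range j, ∑ c ∈ range (2 ^ J),
      (if b / 2 ^ k = 2 * c + 1 then (1 : ℂ) else 0) * (if p / 2 ^ k = 2 * c then (1 : ℂ) else 0) +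
        (if p / 2 ^ j < b / 2 ^ j then (1 : ℂ) else 0) := by
    intro j
    induction j with
    | zero => simp
    | succ j ih =>
      rw [ih, sum_range_succ, add_assoc]
      congr 1
      rw [tree_step (p / 2 ^ j) (b / 2 ^ j) (2 ^ J) ((Nat.div_le_self _ _).trans_lt hp),
        Nat.div_div_eq_div_mul, Nat.div_div_eq_div_mul, ← pow_succ, add_comm]
  rw [key J, Nat.div_eq_of_lt hp, Nat.div_eq_of_lt hb, if_neg (lt_irrefl 0), add_zero]

end Pool.Agent.Lib.BV
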