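import Pool.Agent.Lib.BV.Defs
import Pool.Agent.Lib.BV.BL
import Pool.Agent.Lib.BV.Tree

/-!
# BV-Thr: bilinear form with a threshold n < b(m)

PROOF. N = 0: both sides are 0 resp. ≥ 0. Let N ≥ 1, J = Nat.log 2 (N+1) + 1, so N + 1 < 2^J and J ≤ 1 + log(N+1)/log 2 ≤ 4 (1 + log N). Replace
b(m) by b'(m) = min (b m) (N+1) (same condition for n ≤ N). By `tree` (p = n, b = b'(m)) the inner double sum is
∑_{k<J} ∑_{c<2^J} A_{k,c}(ψ) B_{k,c}(ψ), A_{k,c} = ∑_m α_{k,c}(m) ψ(m), α_{k,c}(m) = α(m) [b'(m)/2^k = 2c+1], β_{k,c}(n) = β(n) [n/2^k = 2c].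
Take norms, `LA_mono`, `LA_sum`, `bilinear` for every (k,c): LA ≤ C DL ∑_k ∑_c ‖α_{k,c}‖₂ ‖β_{k,c}‖₂ ≤ C DL ∑_k (∑_c ‖α_{k,c}‖₂²)^(1/2)
(∑_c ‖β_{k,c}‖₂²)^(1/2) ≤ C DL J ‖α‖₂ ‖β‖₂, since for fixed k every m (resp. n) lies in at most one class c.
-/

set_option autoImplicit false

open Finset

namespace Pool.Agent.Lib.BV

/-- the pieces of the coefficients on a class of the tree -/
private noncomputable def thrA (α : ℕ → ℂ) (b : ℕ → ℕ) (N k c m : ℕ) : ℂ :=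
  if (min (b m) (N + 1)) / 2 ^ k = 2 * c + 1 then α m else 0

private noncomputable def thrB (β : ℕ → ℂ) (k c n : ℕ) : ℂ :=
  if n / 2 ^ k = 2 * c then β n else 0

private theorem thr_identity (M N J : ℕ) (hJ : N + 1 < 2 ^ J) (α β f g : ℕ → ℂ) (b : ℕ → ℕ) :
    ∑ m ∈ Icc 1 M, ∑ n ∈ (Icc 1 N).filter (fun n => n < b m), α m * β n * f m * g n =
      ∑ k ∈ range J, ∑ c ∈ range (2 ^ J),
        (∑ m ∈ Icc 1 M, thrA α b N k c m * f m) * (∑ n ∈ Icc 1 N, thrB β k c n * g n) := by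
  have h1 : ∀ m ∈ Icc 1 M, ∑ n ∈ (Icc 1 N).filter (fun n => n < b m), α m * β n * f m * g n =
      ∑ n ∈ Icc 1 N, ∑ k ∈ range J, ∑ c ∈ range (2 ^ J),
        (thrA α b N k c m * f m) * (thrB β k c n * g n) := by
    intro m _
    rw [sum_filter]
    refine sum_congr rfl fun n hn => ?_
    have hn' := (mem_Icc.mp hn).2
    have h2 := tree J n (min (b m) (N + 1)) (by omega) (lt_of_le_of_lt (min_le_right _ _) hJ)
    have h3 : (if n < b m then α m * β n * f m * g n else 0) =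
        (if n < min (b m) (N + 1) then (1 : ℂ) else 0) * (α m * β n * f m * g n) := by
      by_cases h : n < b m
      · rw [if_pos h, if_pos (by omega), one_mul]
      · rw [if_neg h, if_neg (by omega), zero_mul]
    rw [h3, h2, sum_mul]
    refine sum_congr rfl fun k _ => ?_
    rw [sum_mul]
    refine sum_congr rfl fun c _ => ?_
    unfold thrA thrB
    by_cases h4 : min (b m) (N + 1) / 2 ^ k = 2 * c + 1
    · by_cases h5 : n / 2 ^ k = 2 * c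
      · rw [if_pos h4, if_pos h5, if_pos h4, if_pos h5]
        ring
      · rw [if_pos h4, if_neg h5, if_pos h4, if_neg h5]
        ring
    · by_cases h5 : n / 2 ^ k = 2 * c
      · rw [if_neg h4, if_pos h5, if_neg h4, if_pos h5]
        ring
      · rw [if_neg h4, if_neg h5, if_neg h4, if_neg h5]
        ring
  rw [sum_congr rfl h1]
  have h2 : ∀ k ∈ range J, ∀ c ∈ range (2 ^ J),
      (∑ m ∈ Icc 1 M, thrA α b N k c m * f m) * (∑ n ∈ Icc 1 N, thrB β k c n * g n) =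
      ∑ m ∈ Icc 1 M, ∑ n ∈ Icc 1 N, (thrA α b N k c m * f m) * (thrB β k c n * g n) := by
    intro k _ c _
    rw [sum_mul_sum]
  rw [sum_congr rfl fun k hk => sum_congr rfl fun c hc => h2 k hk c hc]
  have h3 : ∑ m ∈ Icc 1 M, ∑ n ∈ Icc 1 N, ∑ k ∈ range J, ∑ c ∈ range (2 ^ J),
        (thrA α b N k c m * f m) * (thrB β k c n * g n) =
      ∑ k ∈ range J, ∑ m ∈ Icc 1 M, ∑ n ∈ Icc 1 N, ∑ c ∈ range (2 ^ J),
        (thrA α b N k c m * f m) * (thrB β k c n * g n) := by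
    rw [sum_comm]
    rw [show (∑ k ∈ range J, ∑ m ∈ Icc 1 M, ∑ n ∈ Icc 1 N, ∑ c ∈ range (2 ^ J),
        (thrA α b N k c m * f m) * (thrB β k c n * g n)) = ∑ k ∈ range J, ∑ n ∈ Icc 1 N,
        ∑ m ∈ Icc 1 M, ∑ c ∈ range (2 ^ J), (thrA α b N k c m * f m) * (thrB β k c n * g n) from
      sum_congr rfl fun k _ => sum_comm]
    rw [sum_comm (s := range J) (t := Icc 1 N)]
    refine sum_congr rfl fun n _ => ?_
    exact sum_comm
  rw [h3]
  refine sum_congr rfl fun k _ => ?_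
  have h4 : ∀ m ∈ Icc 1 M, ∑ n ∈ Icc 1 N, ∑ c ∈ range (2 ^ J),
        (thrA α b N k c m * f m) * (thrB β k c n * g n) =
      ∑ c ∈ range (2 ^ J), ∑ n ∈ Icc 1 N, (thrA α b N k c m * f m) * (thrB β k c n * g n) :=
    fun m _ => sum_comm
  rw [sum_congr rfl h4]
  exact sum_comm

private theorem thr_classA (α : ℕ → ℂ) (b : ℕ → ℕ) (M N K k : ℕ) :
    ∑ c ∈ range K, ∑ m ∈ Icc 1 M, ‖thrA α b N k c m‖ ^ 2 ≤ ∑ m ∈ Icc 1 M, ‖α m‖ ^ 2 := by
  rw [sum_comm]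
  refine sum_le_sum fun m _ => ?_
  by_cases h : ∃ c0 ∈ range K, (min (b m) (N + 1)) / 2 ^ k = 2 * c0 + 1
  · obtain ⟨c0, h1, h2⟩ := h
    rw [sum_eq_single_of_mem c0 h1]
    · unfold thrA
      rw [if_pos h2]
    · intro c _ hc
      unfold thrA
      rw [if_neg (by omega), norm_zero]
      norm_num
  · rw [sum_eq_zero]
    · positivity
    · intro c hc
      unfold thrA
      rw [if_neg (fun h3 => h ⟨c, hc, h3⟩), norm_zero]
      norm_num

private theorem thr_classB (β : ℕ → ℂ) (N K k : ℕ) :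
    ∑ c ∈ range K, ∑ n ∈ Icc 1 N, ‖thrB β k c n‖ ^ 2 ≤ ∑ n ∈ Icc 1 N, ‖β n‖ ^ 2 := by
  rw [sum_comm]
  refine sum_le_sum fun n _ => ?_
  by_cases h : ∃ c0 ∈ range K, n / 2 ^ k = 2 * c0
  · obtain ⟨c0, h1, h2⟩ := h
    rw [sum_eq_single_of_mem c0 h1]
    · unfold thrB
      rw [if_pos h2]
    · intro c _ hc
      unfold thrB
      rw [if_neg (by omega), norm_zero]
      norm_num
  · rw [sum_eq_zero]
    · positivity
    · intro c hc
      unfold thrB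
      rw [if_neg (fun h3 => h ⟨c, hc, h3⟩), norm_zero]
      norm_num

private theorem thr_log (N : ℕ) (hN : 1 ≤ N) :
    ((Nat.log 2 (N + 1) + 1 : ℕ) : ℝ) ≤ 4 * (1 + Real.log N) := by
  have h1 : 2 ^ (Nat.log 2 (N + 1)) ≤ N + 1 := Nat.pow_log_le_self 2 (by omega)
  have h2 : (2 : ℝ) ^ (Nat.log 2 (N + 1)) ≤ 2 * N := by
    have h3 : 2 ^ (Nat.log 2 (N + 1)) ≤ 2 * N := by omega
    exact_mod_cast h3
  have hN' : (0 : ℝ) < N := by exact_mod_cast hN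
  have h4 := Real.log_le_log (by positivity) h2
  rw [Real.log_pow, Real.log_mul (by norm_num) hN'.ne'] at h4
  have h5 := Real.log_two_gt_d9
  have h6 := Real.log_two_lt_d9
  have h7 : 0 ≤ Real.log N := Real.log_natCast_nonneg N
  push_cast
  have h8 : (0 : ℝ) ≤ (Nat.log 2 (N + 1) : ℝ) := by positivity
  nlinarith

theorem bilinear_thr : ∃ C : ℝ, 0 < C ∧ ∀ (M N D Q : ℕ) (α β : ℕ → ℂ) (b : ℕ → ℕ), 1 ≤ D →
    LA D Q (fun d ψ => ‖∑ m ∈ Icc 1 M, ∑ n ∈ (Icc 1 N).filter (fun n => n < b m),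
      α m * β n * ψ (m : ZMod d) * ψ (n : ZMod d)‖) ≤
        C * (1 + Real.log N) * DL M N D Q * √(∑ m ∈ Icc 1 M, ‖α m‖ ^ 2) *
          √(∑ n ∈ Icc 1 N, ‖β n‖ ^ 2) := by
  obtain ⟨C0, hC0, hbil⟩ := bilinear
  refine ⟨4 * C0, by positivity, fun M N D Q α β b hD => ?_⟩
  rcases Nat.eq_zero_or_pos N with rfl | hN
  · have h0 : LA D Q (fun d ψ => ‖∑ m ∈ Icc 1 M, ∑ n ∈ (Icc 1 0).filter (fun n => n < b m),
        α m * β n * ψ (m : ZMod d) * ψ (n : ZMod d)‖) ≤ 0 * Q := by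
      refine LA_le_const le_rfl fun d _ ψ _ => ?_
      simp
    refine h0.trans ?_
    rw [zero_mul]
    have h1 := DL_nonneg M (0 : ℕ) D Q
    have h2 : 0 ≤ Real.log ((0 : ℕ) : ℝ) := Real.log_natCast_nonneg 0
    positivity
  · set J := Nat.log 2 (N + 1) + 1 with hJdef
    have hJ : N + 1 < 2 ^ J := Nat.lt_pow_succ_log_self (by norm_num) _
    have hDL := DL_nonneg M N D Q
    have step1 : LA D Q (fun d ψ => ‖∑ m ∈ Icc 1 M, ∑ n ∈ (Icc 1 N).filter (fun n => n < b m),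
        α m * β n * ψ (m : ZMod d) * ψ (n : ZMod d)‖) ≤
        LA D Q (fun d ψ => ∑ k ∈ range J, ∑ c ∈ range (2 ^ J),
          ‖∑ m ∈ Icc 1 M, thrA α b N k c m * ψ (m : ZMod d)‖ *
          ‖∑ n ∈ Icc 1 N, thrB β k c n * ψ (n : ZMod d)‖) := by
      refine LA_mono fun d _ ψ _ => ?_
      rw [thr_identity M N J hJ α β (fun m => ψ (m : ZMod d)) (fun n => ψ (n : ZMod d)) b]
      refine (norm_sum_le _ _).trans (sum_le_sum fun k _ => ?_)
      refine (norm_sum_le _ _).trans (sum_le_sum fun c _ => ?_)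
      rw [norm_mul]
    have step2 : LA D Q (fun d ψ => ∑ k ∈ range J, ∑ c ∈ range (2 ^ J),
          ‖∑ m ∈ Icc 1 M, thrA α b N k c m * ψ (m : ZMod d)‖ *
          ‖∑ n ∈ Icc 1 N, thrB β k c n * ψ (n : ZMod d)‖) =
        ∑ k ∈ range J, ∑ c ∈ range (2 ^ J), LA D Q (fun d ψ =>
          ‖∑ m ∈ Icc 1 M, thrA α b N k c m * ψ (m : ZMod d)‖ *
          ‖∑ n ∈ Icc 1 N, thrB β k c n * ψ (n : ZMod d)‖) := by
      rw [LA_sum]
      refine sum_congr rfl fun k _ => ?_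
      rw [LA_sum]
    refine step1.trans (step2.le.trans ?_)
    have step3 : ∀ k ∈ range J, ∑ c ∈ range (2 ^ J), LA D Q (fun d ψ =>
          ‖∑ m ∈ Icc 1 M, thrA α b N k c m * ψ (m : ZMod d)‖ *
          ‖∑ n ∈ Icc 1 N, thrB β k c n * ψ (n : ZMod d)‖) ≤
        C0 * DL M N D Q * (√(∑ m ∈ Icc 1 M, ‖α m‖ ^ 2) * √(∑ n ∈ Icc 1 N, ‖β n‖ ^ 2)) := by
      intro k _
      have h1 : ∀ c ∈ range (2 ^ J), LA D Q (fun d ψ =>
          ‖∑ m ∈ Icc 1 M, thrA α b N k c m * ψ (m : ZMod d)‖ *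
          ‖∑ n ∈ Icc 1 N, thrB β k c n * ψ (n : ZMod d)‖) ≤ C0 * DL M N D Q *
          (√(∑ m ∈ Icc 1 M, ‖thrA α b N k c m‖ ^ 2) * √(∑ n ∈ Icc 1 N, ‖thrB β k c n‖ ^ 2)) := by
        intro c _
        refine (hbil M N D Q (thrA α b N k c) (thrB β k c) hD).trans (le_of_eq ?_)
        ring
      refine (sum_le_sum h1).trans ?_
      rw [← mul_sum]
      refine mul_le_mul_of_nonneg_left ?_ (by positivity)
      refine (Real.sum_sqrt_mul_sqrt_le (range (2 ^ J))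
        (f := fun c => ∑ m ∈ Icc 1 M, ‖thrA α b N k c m‖ ^ 2)
        (g := fun c => ∑ n ∈ Icc 1 N, ‖thrB β k c n‖ ^ 2)
        (fun c => by positivity) (fun c => by positivity)).trans ?_
      exact mul_le_mul (Real.sqrt_le_sqrt (thr_classA α b M N _ k))
        (Real.sqrt_le_sqrt (thr_classB β N _ k)) (Real.sqrt_nonneg _) (Real.sqrt_nonneg _)
    refine (sum_le_sum step3).trans ?_
    rw [sum_const, card_range, nsmul_eq_mul]
    have h5 := thr_log N hN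
    rw [← hJdef] at h5
    have h6 : 0 ≤ C0 * DL M N D Q * (√(∑ m ∈ Icc 1 M, ‖α m‖ ^ 2) * √(∑ n ∈ Icc 1 N, ‖β n‖ ^ 2)) := by
      positivity
    refine (mul_le_mul_of_nonneg_right h5 h6).trans (le_of_eq ?_)
    ring

end Pool.Agent.Lib.BV
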