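import Pool.Agent.Lib.BV.Defs
import Pool.Agent.Lib.BV.Thr

/-!
# BV-Ty2: type II sums (dyadic decomposition of the first variable)

PROOF. If M2 ≤ M1 the sum is empty. Blocks: l ∈ Ioc E (min (2E) M2) with E = M1 2^i, E < M2 (at most 1 + log X/log 2 ≤ 3 (1 + log X) values of i; prove
Ioc M1 (min M2 (M1 2^I)) is the disjoint union by induction on I). For one block let N = X / E, α' = α on the block and 0 elsewhere, b' l = min (b l) (X/l + 1).
For l in the block X/l ≤ N, and n ≤ X/l, n < b l iff n ≤ N, n < b' l (for n ≥ 1). `bilinear_thr` with M = 2E, this N: LA(block) ≤ C (1 + log X) DL(2E, N) √(∑‖α'‖²) √(∑_{n≤N}‖β‖²)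
and √(Lα E) √(Lβ X/E) = √(Lα Lβ X); DL(2E, N) ≤ √(2X)/D + (√(2 M2) + √(X/M1))(1 + log Q) + Q
(E < M2, N ≤ X/E ≤ X/M1) ≤ 2 (1 + log X) (√X/D + √M2 + √(X/M1) + Q). (min (2E) M2 ≤ X so the hypothesis hα at M = E applies, E ≤ X.)
Multiply by the number of blocks.
-/

set_option autoImplicit false

open Finset

namespace Pool.Agent.Lib.BV

/-- the inner sum of type II -/
private noncomputable def ty2F (X : ℕ) (α β : ℕ → ℂ) (b : ℕ → ℕ) (d : ℕ)
    (ψ : DirichletCharacter ℂ d) (l : ℕ) : ℂ :=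
  ∑ n ∈ (Icc 1 (X / l)).filter (fun n => n < b l), α l * β n * ψ (l : ZMod d) * ψ (n : ZMod d)

private lemma ty2_log_mono {a b : ℕ} (h : a ≤ b) : Real.log a ≤ Real.log b := by
  rcases Nat.eq_zero_or_pos a with rfl | ha
  · rw [Nat.cast_zero, Real.log_zero]
    exact Real.log_natCast_nonneg b
  · exact Real.log_le_log (by exact_mod_cast ha) (by exact_mod_cast h)

private lemma ty2_block {C0 : ℝ} (hC0 : 0 < C0)
    (hthr : ∀ (M N D Q : ℕ) (α β : ℕ → ℂ) (b : ℕ → ℕ), 1 ≤ D →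
      LA D Q (fun d ψ => ‖∑ m ∈ Icc 1 M, ∑ n ∈ (Icc 1 N).filter (fun n => n < b m),
        α m * β n * ψ (m : ZMod d) * ψ (n : ZMod d)‖) ≤
          C0 * (1 + Real.log N) * DL M N D Q * √(∑ m ∈ Icc 1 M, ‖α m‖ ^ 2) *
            √(∑ n ∈ Icc 1 N, ‖β n‖ ^ 2))
    (X Q D M1 M2 : ℕ) (Lα Lβ : ℝ) (α β : ℕ → ℂ) (b : ℕ → ℕ)
    (hD : 1 ≤ D) (hM1 : 1 ≤ M1) (hM2 : M2 ≤ X) (hQ : Q ≤ X) (hLα : 0 ≤ Lα) (hLβ : 0 ≤ Lβ)
    (hα : ∀ M, M1 ≤ M → M ≤ X → ∑ l ∈ Ioc M (2 * M), ‖α l‖ ^ 2 ≤ Lα * M)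
    (hβ : ∀ N, N ≤ X → ∑ n ∈ Icc 1 N, ‖β n‖ ^ 2 ≤ Lβ * N)
    (E : ℕ) (hE1 : M1 ≤ E) (hE2 : E < M2) :
    LA D Q (fun d ψ => ‖∑ l ∈ Ioc E (min M2 (2 * E)), ty2F X α β b d ψ l‖) ≤
      2 * C0 * (1 + Real.log X) ^ 2 * √(Lα * Lβ) * √X *
        (√X / D + √M2 + √((X : ℝ) / M1) + Q) := by
  set c : ℕ := min M2 (2 * E) with hc
  set N : ℕ := X / E with hN
  have hE0 : 0 < E := by omega
  have hEX : E ≤ X := by omega
  have hcM2 : c ≤ M2 := min_le_left _ _
  have hc2E : c ≤ 2 * E := min_le_right _ _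
  have hNX : N ≤ X := Nat.div_le_self _ _
  have hEN : E * N ≤ X := Nat.mul_div_le X E
  have hXR : (0 : ℝ) < X := by
    have : 0 < X := by omega
    exact_mod_cast this
  have hlogX : 0 ≤ Real.log X := Real.log_natCast_nonneg X
  have h := hthr c N D Q (fun l => if l ∈ Ioc E c then α l else 0) β
    (fun l => min (b l) (X / l + 1)) hD
  -- the sums agree
  have heq : ∀ (d : ℕ) (ψ : DirichletCharacter ℂ d),
      ∑ l ∈ Ioc E c, ty2F X α β b d ψ l =
      ∑ m ∈ Icc 1 c, ∑ n ∈ (Icc 1 N).filter (fun n => n < min (b m) (X / m + 1)),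
        (if m ∈ Ioc E c then α m else 0) * β n * ψ (m : ZMod d) * ψ (n : ZMod d) := by
    intro d ψ
    have hsub : Ioc E c ⊆ Icc 1 c := by
      intro m hm
      rw [mem_Ioc] at hm
      rw [mem_Icc]
      omega
    rw [← sum_subset hsub]
    · refine sum_congr rfl fun m hm => ?_
      unfold ty2F
      have hset : (Icc 1 (X / m)).filter (fun n => n < b m) =
          (Icc 1 N).filter (fun n => n < min (b m) (X / m + 1)) := by
        have hmE : E ≤ m := by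
          rw [mem_Ioc] at hm
          omega
        have hdiv : X / m ≤ N := Nat.div_le_div_left hmE hE0
        ext n
        simp only [mem_filter, mem_Icc, lt_min_iff]
        constructor
        · rintro ⟨⟨h1, h2⟩, h3⟩
          exact ⟨⟨h1, by omega⟩, h3, by omega⟩
        · rintro ⟨⟨h1, h2⟩, h3, h4⟩
          exact ⟨⟨h1, by omega⟩, h3⟩
      rw [hset, if_pos hm]
    · intro m _ hm
      refine sum_eq_zero fun n _ => ?_
      rw [if_neg hm]
      ring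
  have hLHS : LA D Q (fun d ψ => ‖∑ l ∈ Ioc E c, ty2F X α β b d ψ l‖) =
      LA D Q (fun d ψ => ‖∑ m ∈ Icc 1 c,
        ∑ n ∈ (Icc 1 N).filter (fun n => n < min (b m) (X / m + 1)),
        (if m ∈ Ioc E c then α m else 0) * β n * ψ (m : ZMod d) * ψ (n : ZMod d)‖) := by
    congr 1
    funext d ψ
    rw [heq d ψ]
  rw [hLHS]
  refine h.trans ?_
  -- the norms
  have hA : ∑ m ∈ Icc 1 c, ‖(if m ∈ Ioc E c then α m else 0 : ℂ)‖ ^ 2 ≤ Lα * E := by
    refine le_trans ?_ (hα E hE1 hEX)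
    have hsub : Ioc E c ⊆ Icc 1 c := by
      intro m hm
      rw [mem_Ioc] at hm
      rw [mem_Icc]
      omega
    rw [← sum_subset hsub]
    · have hsub2 : Ioc E c ⊆ Ioc E (2 * E) := Ioc_subset_Ioc_right hc2E
      refine le_trans (le_of_eq ?_)
        (sum_le_sum_of_subset_of_nonneg hsub2 fun _ _ _ => by positivity)
      refine sum_congr rfl fun m hm => ?_
      rw [if_pos hm]
    · intro m _ hm
      rw [if_neg hm]
      simp
  have hB : ∑ n ∈ Icc 1 N, ‖β n‖ ^ 2 ≤ Lβ * N := hβ N hNX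
  have hER : (0 : ℝ) < E := by exact_mod_cast hE0
  have hENR : (E : ℝ) * N ≤ X := by exact_mod_cast hEN
  have hAB : √(∑ m ∈ Icc 1 c, ‖(if m ∈ Ioc E c then α m else 0 : ℂ)‖ ^ 2) *
      √(∑ n ∈ Icc 1 N, ‖β n‖ ^ 2) ≤ √(Lα * Lβ) * √X := by
    calc √(∑ m ∈ Icc 1 c, ‖(if m ∈ Ioc E c then α m else 0 : ℂ)‖ ^ 2) *
          √(∑ n ∈ Icc 1 N, ‖β n‖ ^ 2) ≤ √(Lα * E) * √(Lβ * N) :=
          mul_le_mul (Real.sqrt_le_sqrt hA) (Real.sqrt_le_sqrt hB) (Real.sqrt_nonneg _)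
            (Real.sqrt_nonneg _)
      _ = √(Lα * Lβ * (E * N)) := by
          rw [← Real.sqrt_mul (by positivity)]
          congr 1
          ring
      _ ≤ √(Lα * Lβ * X) :=
          Real.sqrt_le_sqrt (mul_le_mul_of_nonneg_left hENR (by positivity))
      _ = √(Lα * Lβ) * √X := Real.sqrt_mul (by positivity) _
  have hDL : DL c N D Q ≤ 2 * (1 + Real.log X) * (√X / D + √M2 + √((X : ℝ) / M1) + Q) := by
    unfold DL
    have hDR : (0 : ℝ) < D := by
      have : 0 < D := by omega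
      exact_mod_cast this
    have a1 : √((c : ℝ) * N) ≤ 2 * √X := by
      have : (c : ℝ) * N ≤ 2 ^ 2 * X := by
        have h1 : (c : ℝ) ≤ 2 * E := by exact_mod_cast hc2E
        have h2 : (c : ℝ) * N ≤ 2 * E * N := mul_le_mul_of_nonneg_right h1 (Nat.cast_nonneg _)
        nlinarith
      calc √((c : ℝ) * N) ≤ √((2 : ℝ) ^ 2 * X) := Real.sqrt_le_sqrt this
        _ = 2 * √X := by rw [Real.sqrt_mul (by norm_num), Real.sqrt_sq (by norm_num)]
    have a2 : √(c : ℝ) ≤ √M2 := Real.sqrt_le_sqrt (by exact_mod_cast hcM2)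
    have a3 : √(N : ℝ) ≤ √((X : ℝ) / M1) := by
      refine Real.sqrt_le_sqrt ?_
      have hM1R : (0 : ℝ) < M1 := by exact_mod_cast hM1
      rw [le_div_iff₀ hM1R]
      have : (M1 : ℝ) ≤ E := by exact_mod_cast hE1
      calc (N : ℝ) * M1 ≤ N * E := mul_le_mul_of_nonneg_left this (Nat.cast_nonneg _)
        _ = E * N := by ring
        _ ≤ X := hENR
    have a4 : Real.log Q ≤ Real.log X := ty2_log_mono hQ
    have a5 : 0 ≤ Real.log Q := Real.log_natCast_nonneg Q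
    have b1 : √((c : ℝ) * N) / D ≤ 2 * (√X / D) := by
      rw [← mul_div_assoc]
      exact div_le_div_of_nonneg_right a1 hDR.le
    have b2 : (√(c : ℝ) + √(N : ℝ)) * (1 + Real.log Q) ≤
        (√M2 + √((X : ℝ) / M1)) * (1 + Real.log X) :=
      mul_le_mul (add_le_add a2 a3) (by linarith) (by linarith) (by positivity)
    have c1 : 0 ≤ √(X : ℝ) / D := by positivity
    have c2 : 0 ≤ √(M2 : ℝ) := Real.sqrt_nonneg _
    have c3 : 0 ≤ √((X : ℝ) / M1) := Real.sqrt_nonneg _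
    have c4 : (0 : ℝ) ≤ Q := Nat.cast_nonneg _
    nlinarith [mul_nonneg hlogX c1, mul_nonneg hlogX c2, mul_nonneg hlogX c3, mul_nonneg hlogX c4]
  have hlogN : Real.log N ≤ Real.log X := ty2_log_mono hNX
  have hlogN0 : 0 ≤ Real.log N := Real.log_natCast_nonneg N
  set R : ℝ := √X / D + √M2 + √((X : ℝ) / M1) + Q with hR
  have hR0 : 0 ≤ R := by positivity
  calc C0 * (1 + Real.log N) * DL c N D Q *
        √(∑ m ∈ Icc 1 c, ‖(if m ∈ Ioc E c then α m else 0 : ℂ)‖ ^ 2) *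
        √(∑ n ∈ Icc 1 N, ‖β n‖ ^ 2)
      = (C0 * (1 + Real.log N)) * DL c N D Q *
        (√(∑ m ∈ Icc 1 c, ‖(if m ∈ Ioc E c then α m else 0 : ℂ)‖ ^ 2) *
        √(∑ n ∈ Icc 1 N, ‖β n‖ ^ 2)) := by ring
    _ ≤ (C0 * (1 + Real.log X)) * (2 * (1 + Real.log X) * R) * (√(Lα * Lβ) * √X) := by
        refine mul_le_mul (mul_le_mul ?_ hDL (DL_nonneg _ _ _ _) (by positivity)) hAB
          (by positivity) (by positivity)
        exact mul_le_mul_of_nonneg_left (by linarith) hC0.le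
    _ = 2 * C0 * (1 + Real.log X) ^ 2 * √(Lα * Lβ) * √X * R := by ring

theorem type2 : ∃ C : ℝ, 0 < C ∧ ∀ (X Q D M1 M2 : ℕ) (Lα Lβ : ℝ) (α β : ℕ → ℂ) (b : ℕ → ℕ),
    1 ≤ D → 1 ≤ M1 → M2 ≤ X → Q ≤ X → 0 ≤ Lα → 0 ≤ Lβ →
    (∀ M, M1 ≤ M → M ≤ X → ∑ l ∈ Ioc M (2 * M), ‖α l‖ ^ 2 ≤ Lα * M) →
    (∀ N, N ≤ X → ∑ n ∈ Icc 1 N, ‖β n‖ ^ 2 ≤ Lβ * N) →
    LA D Q (fun d ψ => ‖∑ l ∈ Ioc M1 M2, ∑ n ∈ (Icc 1 (X / l)).filter (fun n => n < b l),
      α l * β n * ψ (l : ZMod d) * ψ (n : ZMod d)‖) ≤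
        C * (1 + Real.log X) ^ 3 * √(Lα * Lβ) * √X * (√X / D + √M2 + √((X : ℝ) / M1) + Q) := by
  obtain ⟨C0, hC0, hthr⟩ := bilinear_thr
  refine ⟨4 * C0, by positivity, ?_⟩
  intro X Q D M1 M2 Lα Lβ α β b hD hM1 hM2 hQ hLα hLβ hα hβ
  have hlogX : 0 ≤ Real.log X := Real.log_natCast_nonneg X
  set R : ℝ := √X / D + √M2 + √((X : ℝ) / M1) + Q with hR
  have hR0 : 0 ≤ R := by positivity
  set B : ℝ := 2 * C0 * (1 + Real.log X) ^ 2 * √(Lα * Lβ) * √X * R with hB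
  have hB0 : 0 ≤ B := by positivity
  have hzero : LA D Q (fun _ _ => (0 : ℝ)) = 0 := by
    unfold LA PS
    simp
  rcases le_or_gt M2 M1 with hle | hlt
  · have : LA D Q (fun d ψ => ‖∑ l ∈ Ioc M1 M2, ∑ n ∈ (Icc 1 (X / l)).filter (fun n => n < b l),
      α l * β n * ψ (l : ZMod d) * ψ (n : ZMod d)‖) = 0 := by
      rw [← hzero]
      congr 1
      funext d ψ
      rw [Ioc_eq_empty_of_le hle, sum_empty, norm_zero]
    rw [this]
    positivity
  · have hind : ∀ I : ℕ, LA D Q (fun d ψ => ‖∑ l ∈ Ioc M1 (min M2 (M1 * 2 ^ I)),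
        ty2F X α β b d ψ l‖) ≤ I * B := by
      intro I
      induction I with
      | zero =>
        have : LA D Q (fun d ψ => ‖∑ l ∈ Ioc M1 (min M2 (M1 * 2 ^ 0)),
            ty2F X α β b d ψ l‖) = 0 := by
          rw [← hzero]
          congr 1
          funext d ψ
          rw [pow_zero, mul_one, min_eq_right hlt.le, Ioc_self, sum_empty, norm_zero]
        rw [this]
        simp
      | succ I ih =>
        have hm1 : M1 ≤ min M2 (M1 * 2 ^ I) :=
          le_min hlt.le (Nat.le_mul_of_pos_right _ (by positivity))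
        have hm2 : min M2 (M1 * 2 ^ I) ≤ min M2 (M1 * 2 ^ (I + 1)) := by
          refine min_le_min le_rfl (Nat.mul_le_mul_left _ ?_)
          exact Nat.pow_le_pow_right (by norm_num) (by omega)
        have hstep : LA D Q (fun d ψ => ‖∑ l ∈ Ioc (min M2 (M1 * 2 ^ I))
            (min M2 (M1 * 2 ^ (I + 1))), ty2F X α β b d ψ l‖) ≤ B := by
          rcases le_or_gt M2 (M1 * 2 ^ I) with h1 | h1
          · have h2 : M2 ≤ M1 * 2 ^ (I + 1) := h1.trans (Nat.mul_le_mul_left _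
              (Nat.pow_le_pow_right (by norm_num) (by omega)))
            have : LA D Q (fun d ψ => ‖∑ l ∈ Ioc (min M2 (M1 * 2 ^ I))
                (min M2 (M1 * 2 ^ (I + 1))), ty2F X α β b d ψ l‖) = 0 := by
              rw [← hzero]
              congr 1
              funext d ψ
              rw [min_eq_left h1, min_eq_left h2, Ioc_self, sum_empty, norm_zero]
            rw [this]
            exact hB0
          · have h2 : M1 * 2 ^ (I + 1) = 2 * (M1 * 2 ^ I) := by ring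
            rw [min_eq_right h1.le, h2]
            exact ty2_block hC0 hthr X Q D M1 M2 Lα Lβ α β b hD hM1 hM2 hQ hLα hLβ hα hβ
              (M1 * 2 ^ I) (Nat.le_mul_of_pos_right _ (by positivity)) h1
        calc LA D Q (fun d ψ => ‖∑ l ∈ Ioc M1 (min M2 (M1 * 2 ^ (I + 1))),
              ty2F X α β b d ψ l‖)
            ≤ LA D Q (fun d ψ => ‖∑ l ∈ Ioc M1 (min M2 (M1 * 2 ^ I)), ty2F X α β b d ψ l‖ +
              ‖∑ l ∈ Ioc (min M2 (M1 * 2 ^ I)) (min M2 (M1 * 2 ^ (I + 1))),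
                ty2F X α β b d ψ l‖) := by
              refine LA_mono fun d _ ψ _ => ?_
              rw [← sum_Ioc_consecutive _ hm1 hm2]
              exact norm_add_le _ _
          _ = LA D Q (fun d ψ => ‖∑ l ∈ Ioc M1 (min M2 (M1 * 2 ^ I)), ty2F X α β b d ψ l‖) +
              LA D Q (fun d ψ => ‖∑ l ∈ Ioc (min M2 (M1 * 2 ^ I)) (min M2 (M1 * 2 ^ (I + 1))),
                ty2F X α β b d ψ l‖) := LA_add _ _
          _ ≤ I * B + B := add_le_add ih hstep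
          _ = ((I + 1 : ℕ) : ℝ) * B := by push_cast; ring
    have hX0 : X ≠ 0 := by omega
    set I : ℕ := Nat.log 2 X + 1 with hI
    have hbig : M2 ≤ M1 * 2 ^ I := by
      have h1 : X < 2 ^ I := Nat.lt_pow_succ_log_self (by norm_num) X
      have h2 : 2 ^ I ≤ M1 * 2 ^ I := Nat.le_mul_of_pos_left _ (by omega)
      omega
    have hfin := hind I
    rw [min_eq_left hbig] at hfin
    have hIle : (I : ℝ) ≤ 2 * (1 + Real.log X) := by
      have h1 : 2 ^ Nat.log 2 X ≤ X := Nat.pow_log_le_self 2 hX0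
      have h2 : ((2 : ℝ) ^ Nat.log 2 X) ≤ X := by exact_mod_cast h1
      have h3 : Real.log ((2 : ℝ) ^ Nat.log 2 X) ≤ Real.log X :=
        Real.log_le_log (by positivity) h2
      rw [Real.log_pow] at h3
      have h4 : (0.6931471803 : ℝ) < Real.log 2 := Real.log_two_gt_d9
      have h5 : (0 : ℝ) ≤ (Nat.log 2 X : ℝ) := Nat.cast_nonneg _
      rw [hI]
      push_cast
      nlinarith
    change LA D Q (fun d ψ => ‖∑ l ∈ Ioc M1 M2, ty2F X α β b d ψ l‖) ≤ _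
    calc LA D Q (fun d ψ => ‖∑ l ∈ Ioc M1 M2, ty2F X α β b d ψ l‖) ≤ I * B := hfin
      _ ≤ 2 * (1 + Real.log X) * B := mul_le_mul_of_nonneg_right hIle hB0
      _ = 4 * C0 * (1 + Real.log X) ^ 3 * √(Lα * Lβ) * √X * R := by
          rw [hB]; ring

end Pool.Agent.Lib.BV
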