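import Pool.Agent.Lib.BV.Defs
import Pool.Agent.Lib.BV.RB
import Pool.Agent.Lib.BV.Ty2

/-!
# BV-BLg: large conductors for FB

PROOF. Take B = k + 5. `CS_FB` writes the sum as in `type2` with α m = g m [(m,r)=1], β p = th p [(p,r)=1], b m + 1 for b, and the range of m: only m with
g m ≠ 0, i.e. X^δ ≤ m ≤ X^(1-δ): so Icc 1 X may be replaced by Ioc M1 M2, M1 = ⌈X^δ⌉ - 1 (≥ 1 for X large), M2 = ⌊X^(1-δ)⌋ ≤ X. Lα = 1
(∑_{M<l≤2M} |α|² ≤ M), Lβ = (1 + log X)² (∑_{n≤N} th(n)² ≤ N (log N)²). Q ≤ X^(1/2-ε) ≤ X. `type2`: LA ≤ C (1 + log X)^4 √X (√X/D + X^((1-δ)/2) + √(X/M1) + X^(1/2-ε)) with D = ⌊(log X)^B⌋ ≥ (log X)^B/2,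
M1 ≥ X^δ/2 (X large): √(X/M1) ≤ 2 X^((1-δ)/2). So LA ≤ C' (log X)^4 (2X/(log X)^B + 3 X^(1-δ/2) + X^(1-ε)) ≤ X/(log X)^k for X large, because B = k + 5.
(If δ > 1/2 there may be no admissible m at all: then M2 < M1 and the sum is empty; the estimate above is still fine. For δ > 1 no g m ≠ 0 with m ≥ 1 exists; note that m = 0 is not in Icc 1 X.)
-/

set_option autoImplicit false

open Finset

namespace Pool.Agent.Lib.BV

/-- the real variable estimate -/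
private theorem BLg_event (k : ℕ) (η K : ℝ) (hη : 0 < η) (hK : 0 < K) :
    ∀ᶠ X : ℕ in Filter.atTop, 1 ≤ Real.log X ∧
      K * ((1 + Real.log X) ^ 4 * (X : ℝ) ^ (1 - η) +
        (1 + Real.log X) ^ 4 * (X / (Real.log X) ^ (k + 5))) ≤ X / (Real.log X) ^ k := by
  have hL : Filter.Tendsto (fun X : ℕ => Real.log X) Filter.atTop Filter.atTop :=
    Real.tendsto_log_atTop.comp tendsto_natCast_atTop_atTop
  have h1 : ∀ᶠ X : ℕ in Filter.atTop, max 1 (32 * K) ≤ Real.log X := hL.eventually_ge_atTop _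
  have h2 : ∀ᶠ X : ℕ in Filter.atTop, ‖(Real.log X) ^ ((k : ℝ) + 4)‖ ≤
      (1 / (32 * K)) * ‖(X : ℝ) ^ η‖ := by
    have h3 := (isLittleO_log_rpow_rpow_atTop ((k : ℝ) + 4) (s := η) (by positivity)).def
      (c := 1 / (32 * K)) (by positivity)
    exact tendsto_natCast_atTop_atTop.eventually h3
  have h3 : ∀ᶠ X : ℕ in Filter.atTop, 1 ≤ X := Filter.eventually_ge_atTop 1
  filter_upwards [h1, h2, h3] with X h1 h2 h3
  have hx : (0 : ℝ) < X := by exact_mod_cast h3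
  have hL1 : 1 ≤ Real.log X := (le_max_left _ _).trans h1
  have hL2 : 32 * K ≤ Real.log X := (le_max_right _ _).trans h1
  refine ⟨hL1, ?_⟩
  set L := Real.log X with hLdef
  have hL0 : 0 < L := by linarith
  have hW : (X : ℝ) ^ (1 - η) = X / (X : ℝ) ^ η := by
    rw [Real.rpow_sub hx, Real.rpow_one]
  have hz : 0 < (X : ℝ) ^ η := Real.rpow_pos_of_pos hx _
  set z := (X : ℝ) ^ η with hzdef
  rw [Real.norm_of_nonneg (by positivity), Real.norm_of_nonneg hz.le] at h2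
  have h4 : L ^ ((k : ℝ) + 4) = L ^ (k + 4) := by
    rw [← Real.rpow_natCast]
    congr 1
    push_cast
    ring
  rw [h4] at h2
  rw [hW]
  have h5 : (1 + L) ^ 4 ≤ 16 * L ^ 4 := by
    calc (1 + L) ^ 4 ≤ (2 * L) ^ 4 := by
          gcongr
          linarith
      _ = 16 * L ^ 4 := by ring
  have h6 : K * (16 * L ^ 4 * (X / z)) ≤ (X / L ^ k) / 2 := by
    rw [div_div, le_div_iff₀ (by positivity)]
    have h7 : K * (16 * L ^ 4 * (X / z)) * (L ^ k * 2) = X * (32 * K * L ^ (k + 4) / z) := by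
      rw [pow_add]
      field_simp
      ring
    rw [h7]
    have h8 : 32 * K * L ^ (k + 4) / z ≤ 1 := by
      rw [div_le_one hz]
      calc 32 * K * L ^ (k + 4) ≤ 32 * K * (1 / (32 * K) * z) := by gcongr
        _ = z := by field_simp
    calc (X : ℝ) * (32 * K * L ^ (k + 4) / z) ≤ X * 1 := by gcongr
      _ = X := mul_one _
  have h9 : K * (16 * L ^ 4 * (X / L ^ (k + 5))) ≤ (X / L ^ k) / 2 := by
    rw [div_div, le_div_iff₀ (by positivity)]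
    have h7 : K * (16 * L ^ 4 * (X / L ^ (k + 5))) * (L ^ k * 2) = X * (32 * K / L) := by
      rw [pow_add]
      field_simp
      ring
    rw [h7]
    have h8 : 32 * K / L ≤ 1 := by
      rw [div_le_one (by positivity)]
      exact hL2
    calc (X : ℝ) * (32 * K / L) ≤ X * 1 := by gcongr
      _ = X := mul_one _
  calc K * ((1 + L) ^ 4 * (X / z) + (1 + L) ^ 4 * (X / L ^ (k + 5)))
      ≤ K * (16 * L ^ 4 * (X / z) + 16 * L ^ 4 * (X / L ^ (k + 5))) := by gcongr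
    _ = K * (16 * L ^ 4 * (X / z)) + K * (16 * L ^ 4 * (X / L ^ (k + 5))) := by ring
    _ ≤ (X / L ^ k) / 2 + (X / L ^ k) / 2 := add_le_add h6 h9
    _ = X / L ^ k := by ring

private theorem BLg_floor {t : ℝ} (ht : 1 ≤ t) : 1 ≤ ⌊t⌋₊ ∧ (⌊t⌋₊ : ℝ) ≤ t ∧ t ≤ 2 * ⌊t⌋₊ := by
  have h1 : 1 ≤ ⌊t⌋₊ := (Nat.one_le_floor_iff t).2 ht
  have h2 : (⌊t⌋₊ : ℝ) ≤ t := Nat.floor_le (by linarith)
  have h3 : t < ⌊t⌋₊ + 1 := Nat.lt_floor_add_one t
  have h4 : (1 : ℝ) ≤ ⌊t⌋₊ := by exact_mod_cast h1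
  exact ⟨h1, h2, by linarith⟩

theorem fb_large (k : ℕ) (ε δ : ℝ) (hε : 0 < ε) (hδ : 0 < δ) : ∃ B X0 : ℕ, ∀ X : ℕ, X0 ≤ X →
    ∀ Q : ℕ, (Q : ℝ) ≤ (X : ℝ) ^ (1 / 2 - ε) → ∀ (g : ℕ → ℝ) (b : ℕ → ℕ), (∀ m, |g m| ≤ 1) →
    (∀ m, g m ≠ 0 → (X : ℝ) ^ δ ≤ m ∧ (m : ℝ) ≤ (X : ℝ) ^ (1 - δ)) →
    ∀ r ∈ Icc 1 Q, LA ⌊(Real.log X) ^ B⌋₊ Q (fun _ ψ => ‖CS (fun n => (FB g b n : ℂ)) X r ψ‖) ≤
      X / (Real.log X) ^ k := by
  obtain ⟨C, hC, hty⟩ := type2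
  set η := min (δ / 2) ε with hη
  have hη0 : 0 < η := lt_min (by positivity) hε
  have hη1 : η ≤ δ / 2 := min_le_left _ _
  have hη2 : η ≤ ε := min_le_right _ _
  have hxδ : ∀ᶠ X : ℕ in Filter.atTop, 2 ≤ (X : ℝ) ^ δ :=
    ((tendsto_rpow_atTop hδ).comp tendsto_natCast_atTop_atTop).eventually_ge_atTop 2
  obtain ⟨X0, hX0⟩ := Filter.eventually_atTop.1
    ((BLg_event k η (4 * C) hη0 (by positivity)).and (hxδ.and (Filter.eventually_ge_atTop 3)))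
  refine ⟨k + 5, X0, fun X hX Q hQ g b hg1 hg2 r hr => ?_⟩
  obtain ⟨⟨hL1, hfin⟩, hxδ2, hX3⟩ := hX0 X hX
  have hx1 : (1 : ℝ) ≤ X := by exact_mod_cast (by omega : 1 ≤ X)
  have hx0 : (0 : ℝ) < X := by linarith
  have hL0 : 0 < Real.log X := by linarith
  rw [mem_Icc] at hr
  obtain ⟨hD1, hD2, hD3⟩ := BLg_floor (one_le_pow₀ hL1 (n := k + 5))
  set D := ⌊(Real.log X) ^ (k + 5)⌋₊ with hD
  set L := Real.log X with hLdef
  have hQx : (X : ℝ) ^ (1 / 2 - ε) ≤ X := by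
    calc (X : ℝ) ^ (1 / 2 - ε) ≤ (X : ℝ) ^ (1 : ℝ) :=
          Real.rpow_le_rpow_of_exponent_le hx1 (by linarith)
      _ = X := Real.rpow_one _
  have hQX : Q ≤ X := by exact_mod_cast hQ.trans hQx
  set W := (X : ℝ) ^ (1 - η) with hW
  have hW0 : 0 < W := Real.rpow_pos_of_pos hx0 _
  have hQ0 : (0 : ℝ) ≤ Q := Nat.cast_nonneg Q
  -- the ends of the range
  obtain ⟨M1, hM1⟩ : ∃ M1 : ℕ, M1 + 1 = ⌈(X : ℝ) ^ δ⌉₊ := by
    have : 0 < ⌈(X : ℝ) ^ δ⌉₊ := Nat.ceil_pos.2 (by linarith)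
    exact ⟨⌈(X : ℝ) ^ δ⌉₊ - 1, by omega⟩
  have hM1a : (X : ℝ) ^ δ ≤ M1 + 1 := by
    have := Nat.le_ceil ((X : ℝ) ^ δ)
    rw [← hM1] at this
    exact_mod_cast this
  have hM1b : (X : ℝ) ^ δ ≤ 2 * M1 := by linarith
  have hM1c : (1 : ℝ) ≤ M1 := by linarith
  have hM1d : 1 ≤ M1 := by exact_mod_cast hM1c
  set M2 := ⌊(X : ℝ) ^ (1 - δ)⌋₊ with hM2
  have hxd0 : (0 : ℝ) ≤ (X : ℝ) ^ (1 - δ) := by positivity
  have hM2a : (M2 : ℝ) ≤ (X : ℝ) ^ (1 - δ) := Nat.floor_le hxd0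
  have hM2b : M2 ≤ X := by
    have : (X : ℝ) ^ (1 - δ) ≤ X := by
      calc (X : ℝ) ^ (1 - δ) ≤ (X : ℝ) ^ (1 : ℝ) :=
            Real.rpow_le_rpow_of_exponent_le hx1 (by linarith)
        _ = X := Real.rpow_one _
    exact_mod_cast hM2a.trans this
  -- products
  have hsq : √(X : ℝ) = (X : ℝ) ^ (1 / 2 : ℝ) := Real.sqrt_eq_rpow _
  have hp1 : √(X : ℝ) * Q ≤ W := by
    rw [hsq]
    calc (X : ℝ) ^ (1 / 2 : ℝ) * Q ≤ (X : ℝ) ^ (1 / 2 : ℝ) * (X : ℝ) ^ (1 / 2 - ε) := by gcongr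
      _ = (X : ℝ) ^ (1 - ε) := by
        rw [← Real.rpow_add hx0]
        congr 1
        ring
      _ ≤ W := Real.rpow_le_rpow_of_exponent_le hx1 (by linarith)
  have hWsq : (X : ℝ) * (X : ℝ) ^ (1 - δ) ≤ W ^ 2 := by
    rw [hW, ← Real.rpow_natCast, ← Real.rpow_mul hx0.le]
    nth_rewrite 1 [← Real.rpow_one (X : ℝ)]
    rw [← Real.rpow_add hx0]
    refine Real.rpow_le_rpow_of_exponent_le hx1 ?_
    push_cast
    linarith
  have hp2 : √(X : ℝ) * √(M2 : ℝ) ≤ W := by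
    rw [← Real.sqrt_mul hx0.le]
    refine Real.sqrt_le_iff.2 ⟨hW0.le, ?_⟩
    calc (X : ℝ) * M2 ≤ X * (X : ℝ) ^ (1 - δ) := by gcongr
      _ ≤ W ^ 2 := hWsq
  have hp4 : √(X : ℝ) * √((X : ℝ) / M1) ≤ 3 / 2 * W := by
    have h1 : (X : ℝ) / M1 ≤ 2 * (X : ℝ) ^ (1 - δ) := by
      rw [div_le_iff₀ (by linarith)]
      calc (X : ℝ) = (X : ℝ) ^ (1 - δ) * (X : ℝ) ^ δ := by
            rw [← Real.rpow_add hx0]
            rw [show 1 - δ + δ = (1 : ℝ) by ring, Real.rpow_one]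
        _ ≤ (X : ℝ) ^ (1 - δ) * (2 * M1) := by gcongr
        _ = 2 * (X : ℝ) ^ (1 - δ) * M1 := by ring
    rw [← Real.sqrt_mul hx0.le]
    refine Real.sqrt_le_iff.2 ⟨by positivity, ?_⟩
    calc (X : ℝ) * (X / M1) ≤ X * (2 * (X : ℝ) ^ (1 - δ)) := by gcongr
      _ = 2 * (X * (X : ℝ) ^ (1 - δ)) := by ring
      _ ≤ 2 * W ^ 2 := by gcongr
      _ ≤ (3 / 2 * W) ^ 2 := by nlinarith [sq_nonneg W]
  have hp5 : √(X : ℝ) * (√(X : ℝ) / D) ≤ 2 * (X / L ^ (k + 5)) := by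
    rw [← mul_div_assoc, Real.mul_self_sqrt hx0.le]
    have hD0 : (0 : ℝ) < D := by exact_mod_cast hD1
    rw [div_le_iff₀ hD0]
    have h1 : 2 * ((X : ℝ) / L ^ (k + 5)) * D = X * ((2 * D) / L ^ (k + 5)) := by ring
    rw [h1]
    have h2 : 1 ≤ (2 * (D : ℝ)) / L ^ (k + 5) := by
      rw [le_div_iff₀ (by positivity), one_mul]
      exact hD3
    nlinarith
  -- the sum as a type II sum
  set α : ℕ → ℂ := fun m => if m.Coprime r then (g m : ℂ) else 0 with hα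
  set β : ℕ → ℂ := fun p => if p.Coprime r then (th p : ℂ) else 0 with hβ
  have hrw : ∀ (d : ℕ) (ψ : DirichletCharacter ℂ d), CS (fun n => (FB g b n : ℂ)) X r ψ =
      ∑ l ∈ Ioc M1 M2, ∑ n ∈ (Icc 1 (X / l)).filter (fun n => n < b l + 1),
        α l * β n * ψ (l : ZMod d) * ψ (n : ZMod d) := by
    intro d ψ
    rw [CS_FB]
    symm
    refine sum_subset (fun l hl => ?_) (fun l hl hl' => ?_)
    · rw [mem_Ioc] at hl
      rw [mem_Icc]
      omega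
    · have h1 : g l = 0 := by
        by_contra h
        obtain ⟨h2, h3⟩ := hg2 l h
        apply hl'
        rw [mem_Ioc]
        constructor
        · have h4 : ⌈(X : ℝ) ^ δ⌉₊ ≤ l := Nat.ceil_le.2 h2
          omega
        · exact Nat.le_floor h3
      refine sum_eq_zero fun n _ => ?_
      have h2 : α l = 0 := by
        rw [hα]
        simp [h1]
      rw [h2]
      ring
  have ht := hty X Q D M1 M2 1 ((1 + L) ^ 2) α β (fun l => b l + 1) hD1 hM1d hM2b hQX (by norm_num)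
    (by positivity) (fun M _ _ => by
      have h1 : ∀ l ∈ Ioc M (2 * M), ‖α l‖ ^ 2 ≤ 1 := by
        intro l _
        have h2 : ‖α l‖ ≤ 1 := by
          rw [hα]
          dsimp only
          split_ifs
          · rw [Complex.norm_real]
            exact hg1 l
          · simp
        exact pow_le_one₀ (norm_nonneg _) h2
      refine (sum_le_card_nsmul _ _ _ h1).trans ?_
      rw [nsmul_eq_mul, Nat.card_Ioc, mul_one, one_mul]
      exact_mod_cast (by omega : 2 * M - M ≤ M)) (fun N hN => by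
      have h1 : ∀ n ∈ Icc 1 N, ‖β n‖ ^ 2 ≤ (1 + L) ^ 2 := by
        intro n hn
        rw [mem_Icc] at hn
        have h2 : ‖β n‖ ≤ 1 + L := by
          rw [hβ]
          dsimp only
          split_ifs
          · rw [Complex.norm_real, Real.norm_of_nonneg (th_nonneg n)]
            have h3 := th_le n
            have h4 : Real.log n ≤ L := by
              refine Real.log_le_log (by exact_mod_cast (by omega : 0 < n)) ?_
              exact_mod_cast hn.2.trans hN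
            linarith
          · rw [norm_zero]
            positivity
        exact pow_le_pow_left₀ (norm_nonneg _) h2 2
      refine (sum_le_card_nsmul _ _ _ h1).trans ?_
      rw [nsmul_eq_mul, Nat.card_Icc, Nat.add_sub_cancel, mul_comm])
  have hLA : LA D Q (fun _ ψ => ‖CS (fun n => (FB g b n : ℂ)) X r ψ‖) =
      LA D Q (fun d ψ => ‖∑ l ∈ Ioc M1 M2, ∑ n ∈ (Icc 1 (X / l)).filter (fun n => n < b l + 1),
        α l * β n * ψ (l : ZMod d) * ψ (n : ZMod d)‖) := by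
    congr 1
    funext d ψ
    rw [hrw d ψ]
  rw [hLA]
  refine ht.trans ?_
  have hsq2 : √(1 * (1 + L) ^ 2) = 1 + L := by
    rw [one_mul]
    exact Real.sqrt_sq (by linarith)
  rw [hsq2]
  calc C * (1 + L) ^ 3 * (1 + L) * √X * (√X / D + √M2 + √((X : ℝ) / M1) + Q) =
        C * (1 + L) ^ 4 * (√X * (√X / D) + √X * √M2 + √X * √((X : ℝ) / M1) + √X * Q) := by ring
    _ ≤ C * (1 + L) ^ 4 * (2 * (X / L ^ (k + 5)) + W + 3 / 2 * W + W) := by gcongr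
    _ ≤ C * (1 + L) ^ 4 * (4 * (X / L ^ (k + 5)) + 4 * W) := by
      have h1 : 0 ≤ (X : ℝ) / L ^ (k + 5) := by positivity
      refine mul_le_mul_of_nonneg_left ?_ (by positivity)
      linarith
    _ = 4 * C * ((1 + L) ^ 4 * W + (1 + L) ^ 4 * (X / L ^ (k + 5))) := by ring
    _ ≤ X / L ^ k := hfin

end Pool.Agent.Lib.BV
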