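import Pool.Agent.Lib.BV.Defs
import Pool.Agent.Lib.SW.SWFinal

/-!
# BV-SWt: Siegel-Walfisz for primes with characters, uniform in y ≤ Y

PROOF. `SW.psi_char k ε`: ‖∑_{n ≤ x} χ(n) Λ(n)‖ ≤ C d^ε x/(log x)^k for real x ≥ 2, χ ≠ 1 (chL χ n = χ n * Λ n). (1) For naturals 2 ≤ y ≤ Y: if y ≥ √Y then log y ≥ (log Y)/2 and
y/(log y)^k ≤ 2^k Y/(log Y)^k; if y < √Y then the sum is trivially ≤ ψ(y) ≤ y log y·... use simply ∑_{n≤y} Λ(n) ≤ y log y ≤ √Y log Y ≤ C' Y/(log Y)^k (`SWF_sqrt`). (2) Λ - th is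
supported on prime powers p^j, j ≥ 2, and ∑_{n ≤ y} (Λ(n) - th n) ≤ C √y log y ≤ C' Y/(log Y)^k (Mathlib Chebyshev: psi - theta, e.g.
`Chebyshev.abs_psi_sub_theta_le_sqrt_mul_log`; ∑_{n∈Icc 1 y} Λ = psi y, ∑ th = theta y, floor of a cast). y = 0, 1: the sum is 0 (th 1 = 0). d^ε ≥ 1 absorbs constants.
Second statement: same sum over Icc 1 X of Λ - th.
-/

set_option autoImplicit false

open Finset

namespace Pool.Agent.Lib.BV

private theorem SWt_diff (X : ℕ) (hX : 1 ≤ X) :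
    ∑ n ∈ Icc 1 X, (ArithmeticFunction.vonMangoldt n - th n) ≤ 2 * √X * Real.log X := by
  have hI : Icc 1 X = Ioc 0 X := by
    ext n
    rw [mem_Icc, mem_Ioc]
    omega
  have h1 : ∑ n ∈ Icc 1 X, ArithmeticFunction.vonMangoldt n = Chebyshev.psi (X : ℝ) := by
    rw [Chebyshev.psi, Nat.floor_natCast, hI]
  have h2 : ∑ n ∈ Icc 1 X, th n = Chebyshev.theta (X : ℝ) := by
    rw [Chebyshev.theta, Nat.floor_natCast, hI, sum_filter]
    rfl
  rw [sum_sub_distrib, h1, h2]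
  exact Chebyshev.psi_sub_theta_le (by exact_mod_cast hX)

theorem sum_vonMangoldt_sub_th : ∃ C : ℝ, 0 < C ∧ ∀ X : ℕ, 1 ≤ X →
    ∑ n ∈ Icc 1 X, (ArithmeticFunction.vonMangoldt n - th n) ≤ C * √X * (1 + Real.log X) := by
  refine ⟨2, by norm_num, fun X hX => (SWt_diff X hX).trans ?_⟩
  refine mul_le_mul_of_nonneg_left ?_ (by positivity)
  linarith

theorem theta_char (k : ℕ) (ε : ℝ) (hε : 0 < ε) : ∃ C : ℝ, 0 < C ∧
    ∀ (d : ℕ) [NeZero d] (χ : DirichletCharacter ℂ d), χ ≠ 1 → ∀ Y y : ℕ, 2 ≤ Y → y ≤ Y →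
      ‖∑ p ∈ Icc 1 y, (th p : ℂ) * χ (p : ZMod d)‖ ≤ C * (d : ℝ) ^ ε * Y / (Real.log Y) ^ k := by
  obtain ⟨C1, hC1, h1⟩ := SW.psi_char k ε hε
  obtain ⟨C2, hC2, h2⟩ := SW.SWF_sqrt k
  refine ⟨2 ^ k * C1 + 2 * C2, by positivity, ?_⟩
  intro d _ χ hχ Y y hY hy
  have hd : 1 ≤ d := Nat.one_le_iff_ne_zero.mpr (NeZero.ne d)
  have hY' : (2 : ℝ) ≤ Y := by exact_mod_cast hY
  have hLY : 0 < Real.log Y := SW.SWF_logpos hY'
  have hdε : (1 : ℝ) ≤ (d : ℝ) ^ ε := SW.SWF_one_le hd hε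
  have hdε0 : (0 : ℝ) ≤ (d : ℝ) ^ ε := by linarith
  have hE : 0 ≤ (Y : ℝ) / (Real.log Y) ^ k := by positivity
  rcases Nat.lt_or_ge y 2 with hy2 | hy2
  · have h3 : ∑ p ∈ Icc 1 y, (th p : ℂ) * χ (p : ZMod d) = 0 := by
      refine sum_eq_zero fun p hp => ?_
      rw [mem_Icc] at hp
      have hp1 : p = 1 := by omega
      subst hp1
      have : th 1 = 0 := by
        unfold th
        simp
      rw [this]
      simp
    rw [h3, norm_zero]
    positivity
  · have hy' : (2 : ℝ) ≤ y := by exact_mod_cast hy2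
    have hyY : (y : ℝ) ≤ Y := by exact_mod_cast hy
    have hLy : 0 < Real.log y := SW.SWF_logpos hy'
    have hsplit : ∑ p ∈ Icc 1 y, (th p : ℂ) * χ (p : ZMod d) =
        ∑ n ∈ Icc 1 y, SW.chL χ n -
          ∑ n ∈ Icc 1 y, ((ArithmeticFunction.vonMangoldt n - th n : ℝ) : ℂ) * χ (n : ZMod d) := by
      rw [← sum_sub_distrib]
      refine sum_congr rfl fun n _ => ?_
      unfold SW.chL
      push_cast
      ring
    have hB : ‖∑ n ∈ Icc 1 y, ((ArithmeticFunction.vonMangoldt n - th n : ℝ) : ℂ) * χ (n : ZMod d)‖ ≤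
        C2 * Y / (Real.log Y) ^ k := by
      refine (norm_sum_le _ _).trans ?_
      refine le_trans (sum_le_sum fun n _ => ?_) (le_trans (SWt_diff y (by omega)) ?_)
      · have h5 : 0 ≤ ArithmeticFunction.vonMangoldt n - th n := sub_nonneg.2 (th_le_vonMangoldt n)
        rw [norm_mul, Complex.norm_real, Real.norm_of_nonneg h5]
        exact mul_le_of_le_one_right h5 (DirichletCharacter.norm_le_one χ _)
      · refine le_trans ?_ (h2 Y hY')
        have h6 : √(y : ℝ) ≤ √(Y : ℝ) := Real.sqrt_le_sqrt hyY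
        have h7 : Real.log y ≤ Real.log Y := Real.log_le_log (by linarith) hyY
        gcongr
    have hA : ‖∑ n ∈ Icc 1 y, SW.chL χ n‖ ≤ (2 ^ k * C1 + C2) * ((d : ℝ) ^ ε * (Y / (Real.log Y) ^ k)) := by
      rcases le_or_gt Y (y * y) with hyy | hyy
      · have h5 := h1 d χ hχ y hy'
        rw [Nat.floor_natCast] at h5
        refine h5.trans ?_
        have h6 : Real.log Y ≤ 2 * Real.log y := by
          have h7 : (Y : ℝ) ≤ (y : ℝ) * y := by exact_mod_cast hyy
          have h8 := Real.log_le_log (by linarith) h7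
          rw [Real.log_mul (by linarith) (by linarith)] at h8
          linarith
        have h9 : (y : ℝ) / (Real.log y) ^ k ≤ 2 ^ k * (Y / (Real.log Y) ^ k) := by
          rw [← mul_div_assoc, div_le_div_iff₀ (by positivity) (by positivity)]
          have h10 : (Real.log Y) ^ k ≤ 2 ^ k * (Real.log y) ^ k := by
            rw [← mul_pow]
            gcongr
          calc (y : ℝ) * (Real.log Y) ^ k ≤ Y * (2 ^ k * (Real.log y) ^ k) := by gcongr
            _ = 2 ^ k * Y * (Real.log y) ^ k := by ring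
        have h11 : C1 * (d : ℝ) ^ ε * y / (Real.log y) ^ k =
            C1 * (d : ℝ) ^ ε * (y / (Real.log y) ^ k) := by ring
        rw [h11]
        calc C1 * (d : ℝ) ^ ε * (y / (Real.log y) ^ k)
            ≤ C1 * (d : ℝ) ^ ε * (2 ^ k * (Y / (Real.log Y) ^ k)) := by gcongr
          _ = 2 ^ k * C1 * ((d : ℝ) ^ ε * (Y / (Real.log Y) ^ k)) := by ring
          _ ≤ (2 ^ k * C1 + C2) * ((d : ℝ) ^ ε * (Y / (Real.log Y) ^ k)) := by
            gcongr
            linarith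
      · have h5 : ‖∑ n ∈ Icc 1 y, SW.chL χ n‖ ≤ 2 * √Y * Real.log Y := by
          refine (norm_sum_le _ _).trans ?_
          have h6 : ∀ n ∈ Icc 1 y, ‖SW.chL χ n‖ ≤ Real.log Y := by
            intro n hn
            rw [mem_Icc] at hn
            refine (SW.SWF_chL χ n).trans (ArithmeticFunction.vonMangoldt_le_log.trans ?_)
            refine Real.log_le_log (by exact_mod_cast (by omega : 0 < n)) ?_
            exact_mod_cast hn.2.trans hy
          refine (sum_le_card_nsmul _ _ _ h6).trans ?_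
          rw [nsmul_eq_mul, Nat.card_Icc, Nat.add_sub_cancel]
          have h7 : (y : ℝ) ≤ √Y := by
            refine Real.le_sqrt_of_sq_le ?_
            rw [sq]
            exact_mod_cast hyy.le
          have h8 : 0 ≤ √(Y : ℝ) * Real.log Y := by positivity
          calc (y : ℝ) * Real.log Y ≤ √Y * Real.log Y := by gcongr
            _ ≤ 2 * √Y * Real.log Y := by linarith
        refine h5.trans ((h2 Y hY').trans ?_)
        calc C2 * Y / (Real.log Y) ^ k = C2 * (1 * (Y / (Real.log Y) ^ k)) := by ring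
          _ ≤ (2 ^ k * C1 + C2) * ((d : ℝ) ^ ε * (Y / (Real.log Y) ^ k)) := by
            have : C2 ≤ 2 ^ k * C1 + C2 := by
              have : 0 < 2 ^ k * C1 := by positivity
              linarith
            gcongr
    rw [hsplit]
    refine (norm_sub_le _ _).trans ?_
    have h20 : C2 * Y / (Real.log Y) ^ k ≤ C2 * ((d : ℝ) ^ ε * (Y / (Real.log Y) ^ k)) := by
      calc C2 * Y / (Real.log Y) ^ k = C2 * (1 * (Y / (Real.log Y) ^ k)) := by ring
        _ ≤ C2 * ((d : ℝ) ^ ε * (Y / (Real.log Y) ^ k)) := by gcongr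
    have h21 : (2 ^ k * C1 + 2 * C2) * (d : ℝ) ^ ε * Y / (Real.log Y) ^ k =
        (2 ^ k * C1 + C2) * ((d : ℝ) ^ ε * (Y / (Real.log Y) ^ k)) +
          C2 * ((d : ℝ) ^ ε * (Y / (Real.log Y) ^ k)) := by ring
    rw [h21]
    linarith

end Pool.Agent.Lib.BV
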