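import Pool.Agent.Lib.BV.Defs
import Pool.Agent.Lib.BV.RB
import Pool.Agent.Lib.BV.SWt

/-!
# BV-BSm: small conductors for FB

PROOF. By `CS_FB` the sum is ∑_m g(m) 1_{(m,r)=1} ψ(m) T(m), T(m) = ∑_{p ≤ y, (p,r)=1} th(p) ψ(p), y = min (X/m) (b m). Only m with g m ≠ 0, so m ≤ X^(1-δ), matter (1 ≤ m). Put Y = X/m + 1 (so
Y ≥ X^δ, Y ≤ 2X/m, Y ≥ 2 for X large). `theta_char` with exponent k' = k + B + 3 and ε = 1 (d ≤ (log X)^B): |∑_{p≤y} th ψ| ≤ C (log X)^B Y/(log Y)^k' ≤ C (log X)^B 2X/(m (δ log X)^k').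
The p dividing r contribute at most ∑_{p | r} log p ≤ log r ≤ log X. Sum over m ≤ X^(1-δ): ≤ 2 C δ^(-k') X (log X)^(B - k') (1 + log X) + X^(1-δ) log X
≤ X/(log X)^k for X large (∑_{m≤X} 1/m ≤ 1 + log X). ψ ≠ 1 by `ne_one_of_prim`. If δ ≥ 1 then X^(1-δ) ≤ 1 and everything still holds (Y ≥ X^δ is used only for 1 ≤ m ≤ X^(1-δ):
if δ > 1 there is no such m for X ≥ 2); you may treat 0 < δ ≤ 1 and δ > 1 separately.
-/

set_option autoImplicit false

open Finset Filter Asymptotics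

namespace Pool.Agent.Lib.BV

private lemma bsm_primes (r y : ℕ) (hr : 1 ≤ r) :
    ∑ p ∈ Icc 1 y, (if p.Coprime r then 0 else th p) ≤ Real.log r := by
  have h1 : ∑ p ∈ Icc 1 y, (if p.Coprime r then 0 else th p) ≤ ∑ p ∈ r.primeFactors, Real.log p := by
    have h2 : ∀ p ∈ Icc 1 y, (if p.Coprime r then 0 else th p) =
        if (p.Prime ∧ ¬ p.Coprime r) then Real.log p else 0 := by
      intro p _
      unfold th
      by_cases hp : p.Prime <;> by_cases hc : p.Coprime r <;> simp [hp, hc]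
    rw [sum_congr rfl h2, ← sum_filter]
    refine sum_le_sum_of_subset_of_nonneg ?_ fun p _ _ => Real.log_natCast_nonneg p
    intro p hp
    rw [mem_filter] at hp
    rw [Nat.mem_primeFactors]
    refine ⟨hp.2.1, ?_, by omega⟩
    by_contra hcon
    exact hp.2.2 ((Nat.Prime.coprime_iff_not_dvd hp.2.1).mpr hcon)
  refine h1.trans ?_
  rw [← Real.log_prod (fun p hp => by
    have := (Nat.prime_of_mem_primeFactors hp).pos
    positivity)]
  refine Real.log_le_log ?_ ?_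
  · refine prod_pos fun p hp => ?_
    have := (Nat.prime_of_mem_primeFactors hp).pos
    positivity
  · have h2 : (∏ p ∈ r.primeFactors, p) ∣ r := Nat.prod_primeFactors_dvd r
    have h3 := Nat.le_of_dvd (by omega) h2
    have h4 : ((∏ p ∈ r.primeFactors, p : ℕ) : ℝ) ≤ r := by exact_mod_cast h3
    rwa [Nat.cast_prod] at h4

private lemma bsm_T (r y : ℕ) (hr : 1 ≤ r) {d : ℕ} (ψ : DirichletCharacter ℂ d) :
    ‖∑ p ∈ Icc 1 y, (if p.Coprime r then (th p : ℂ) else 0) * ψ (p : ZMod d)‖ ≤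
      ‖∑ p ∈ Icc 1 y, (th p : ℂ) * ψ (p : ZMod d)‖ + Real.log r := by
  have h1 : ∑ p ∈ Icc 1 y, (if p.Coprime r then (th p : ℂ) else 0) * ψ (p : ZMod d) =
      ∑ p ∈ Icc 1 y, (th p : ℂ) * ψ (p : ZMod d) -
        ∑ p ∈ Icc 1 y, ((if p.Coprime r then 0 else th p : ℝ) : ℂ) * ψ (p : ZMod d) := by
    rw [← sum_sub_distrib]
    refine sum_congr rfl fun p _ => ?_
    split_ifs <;> simp
  rw [h1]
  refine (norm_sub_le _ _).trans (add_le_add le_rfl ?_)
  refine (norm_sum_le _ _).trans ((sum_le_sum fun p _ => ?_).trans (bsm_primes r y hr))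
  rw [norm_mul, Complex.norm_real, Real.norm_eq_abs, abs_of_nonneg]
  · exact mul_le_of_le_one_right (by split_ifs; exacts [le_rfl, th_nonneg p])
      (DirichletCharacter.norm_le_one ψ _)
  · split_ifs
    exacts [le_rfl, th_nonneg p]

private lemma bsm_harm (X : ℕ) : ∑ m ∈ Icc 1 X, (1 / (m : ℝ)) ≤ 1 + Real.log X := by
  have h := harmonic_le_one_add_log X
  rw [harmonic_eq_sum_Icc] at h
  push_cast at h
  simpa [one_div] using h

private lemma bsm_aux (k B : ℕ) (δ : ℝ) (hδ : 0 < δ) (hδ1 : δ ≤ 1) : ∃ X0 : ℕ, ∀ X : ℕ, X0 ≤ X →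
    ∀ (g : ℕ → ℝ) (b : ℕ → ℕ), (∀ m, |g m| ≤ 1) → (∀ m, g m ≠ 0 → (m : ℝ) ≤ (X : ℝ) ^ (1 - δ)) →
    ∀ r ∈ Icc 1 X, ∀ d : ℕ, 1 < d → (d : ℝ) ≤ (Real.log X) ^ B → ∀ ψ : DirichletCharacter ℂ d,
      ψ.IsPrimitive → ‖CS (fun n => (FB g b n : ℂ)) X r ψ‖ ≤ X / (Real.log X) ^ k := by
  obtain ⟨C1, hC1, hth⟩ := theta_char (k + B + 2) 1 one_pos
  set k' : ℕ := k + B + 2 with hk'
  have e1 : ∀ᶠ X : ℕ in atTop, 8 * C1 * (δ⁻¹) ^ k' ≤ Real.log X :=
    (Real.tendsto_log_atTop.comp tendsto_natCast_atTop_atTop).eventually_ge_atTop _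
  have e2 : ∀ᶠ X : ℕ in atTop, 2 * (Real.log X) ^ (k + 1) ≤ (X : ℝ) ^ δ := by
    have h := (isLittleO_log_rpow_rpow_atTop ((k + 1 : ℕ) : ℝ) hδ).bound
      (by norm_num : (0 : ℝ) < 1 / 2)
    have h' := tendsto_natCast_atTop_atTop (R := ℝ) |>.eventually h
    filter_upwards [h', eventually_ge_atTop 1] with X hX hX1
    have hX1' : (1 : ℝ) ≤ X := by exact_mod_cast hX1
    rw [Real.norm_of_nonneg (Real.rpow_nonneg (Real.log_nonneg hX1') _),
      Real.norm_of_nonneg (Real.rpow_nonneg (by linarith : (0 : ℝ) ≤ X) _), Real.rpow_natCast] at hX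
    linarith
  obtain ⟨X0, hX0⟩ := eventually_atTop.mp ((e1.and e2).and (eventually_ge_atTop 3))
  refine ⟨X0, fun X hX g b hg hgs r hr d hd1 hdB ψ hψ => ?_⟩
  obtain ⟨⟨h1, h2⟩, h3⟩ := hX0 X hX
  rw [mem_Icc] at hr
  have hXR : (3 : ℝ) ≤ X := by exact_mod_cast h3
  have hXpos : (0 : ℝ) < X := by linarith
  set L : ℝ := Real.log X with hL
  have hL1 : 1 ≤ L := by
    rw [hL, Real.le_log_iff_exp_le hXpos]
    linarith [Real.exp_one_lt_d9]
  have hL0 : 0 < L := by linarith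
  have hψ1 : ψ ≠ 1 := ne_one_of_prim hd1 hψ
  have : NeZero d := ⟨by omega⟩
  rw [CS_FB]
  -- one summand
  have hterm : ∀ m ∈ Icc 1 X, ‖∑ p ∈ (Icc 1 (X / m)).filter (fun p => p < b m + 1),
        (if m.Coprime r then (g m : ℂ) else 0) * (if p.Coprime r then (th p : ℂ) else 0) *
          ψ (m : ZMod d) * ψ (p : ZMod d)‖ ≤
      2 * C1 * (δ⁻¹) ^ k' * X * (L ^ B / L ^ k') * (1 / m) +
        (if (m : ℝ) ≤ (X : ℝ) ^ (1 - δ) then L else 0) := by
    intro m hm
    rw [mem_Icc] at hm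
    have hm0 : (0 : ℝ) < m := by exact_mod_cast (by omega : 0 < m)
    have hA0 : 0 ≤ 2 * C1 * (δ⁻¹) ^ k' * X * (L ^ B / L ^ k') * (1 / m) := by positivity
    by_cases hgm : g m = 0
    · have hz : ∑ p ∈ (Icc 1 (X / m)).filter (fun p => p < b m + 1),
        (if m.Coprime r then (g m : ℂ) else 0) * (if p.Coprime r then (th p : ℂ) else 0) *
          ψ (m : ZMod d) * ψ (p : ZMod d) = 0 := by
        refine sum_eq_zero fun p _ => ?_
        rw [hgm]
        simp
      rw [hz, norm_zero]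
      split_ifs <;> linarith
    · have hms := hgs m hgm
      rw [if_pos hms]
      have hfilt : (Icc 1 (X / m)).filter (fun p => p < b m + 1) = Icc 1 (min (X / m) (b m)) := by
        ext p
        simp only [mem_filter, mem_Icc, le_min_iff]
        omega
      rw [hfilt]
      have hfac : ∑ p ∈ Icc 1 (min (X / m) (b m)),
          (if m.Coprime r then (g m : ℂ) else 0) * (if p.Coprime r then (th p : ℂ) else 0) *
          ψ (m : ZMod d) * ψ (p : ZMod d) =
          ((if m.Coprime r then (g m : ℂ) else 0) * ψ (m : ZMod d)) *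
          ∑ p ∈ Icc 1 (min (X / m) (b m)), (if p.Coprime r then (th p : ℂ) else 0) *
            ψ (p : ZMod d) := by
        rw [mul_sum]
        exact sum_congr rfl fun p _ => by ring
      rw [hfac, norm_mul]
      have hone : ‖(if m.Coprime r then (g m : ℂ) else 0) * ψ (m : ZMod d)‖ ≤ 1 := by
        rw [norm_mul]
        have a1 : ‖(if m.Coprime r then (g m : ℂ) else 0)‖ ≤ 1 := by
          split_ifs
          · rw [Complex.norm_real, Real.norm_eq_abs]
            exact hg m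
          · simp
        exact mul_le_one₀ a1 (norm_nonneg _) (DirichletCharacter.norm_le_one ψ _)
      refine (mul_le_of_le_one_left (norm_nonneg _) hone).trans ?_
      refine (bsm_T r _ hr.1 ψ).trans ?_
      have hlogr : Real.log r ≤ L := Real.log_le_log (by exact_mod_cast hr.1) (by exact_mod_cast hr.2)
      -- the main estimate
      have hdiv1 : 1 ≤ X / m := (Nat.one_le_div_iff (by omega)).mpr hm.2
      have hYle : ((X / m + 1 : ℕ) : ℝ) ≤ 2 * X / m := by
        have a1 : ((X / m : ℕ) : ℝ) ≤ (X : ℝ) / m := Nat.cast_div_le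
        have a2 : (1 : ℝ) ≤ (X : ℝ) / m := by
          rw [le_div_iff₀ hm0, one_mul]
          exact_mod_cast hm.2
        push_cast
        have a3 : 2 * (X : ℝ) / m = X / m + X / m := by ring
        rw [a3]
        linarith
      have hYge : (X : ℝ) ^ δ ≤ ((X / m + 1 : ℕ) : ℝ) := by
        have a1 : (X : ℝ) / m < ((X / m + 1 : ℕ) : ℝ) := by
          rw [div_lt_iff₀ hm0]
          have a2 : X < (X / m + 1) * m := by
            have := Nat.lt_mul_div_succ X (show 0 < m by omega)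
            calc X < m * (X / m + 1) := this
              _ = (X / m + 1) * m := by ring
          exact_mod_cast a2
        have a2 : (X : ℝ) ^ δ ≤ X / m := by
          rw [le_div_iff₀ hm0]
          calc (X : ℝ) ^ δ * m ≤ (X : ℝ) ^ δ * (X : ℝ) ^ (1 - δ) :=
                mul_le_mul_of_nonneg_left hms (by positivity)
            _ = X := by
                rw [← Real.rpow_add hXpos]
                have : δ + (1 - δ) = 1 := by ring
                rw [this, Real.rpow_one]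
        linarith
      have hlogY : δ * L ≤ Real.log ((X / m + 1 : ℕ) : ℝ) := by
        have a1 := Real.log_le_log (by positivity) hYge
        rwa [Real.log_rpow hXpos] at a1
      have hmain := hth d ψ hψ1 (X / m + 1) (min (X / m) (b m)) (by omega)
        ((min_le_left _ _).trans (by omega))
      rw [Real.rpow_one] at hmain
      have hbound : C1 * (d : ℝ) * ((X / m + 1 : ℕ) : ℝ) / (Real.log ((X / m + 1 : ℕ) : ℝ)) ^ k' ≤
          2 * C1 * (δ⁻¹) ^ k' * X * (L ^ B / L ^ k') * (1 / m) := by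
        have hδL : 0 < δ * L := by positivity
        calc C1 * (d : ℝ) * ((X / m + 1 : ℕ) : ℝ) / (Real.log ((X / m + 1 : ℕ) : ℝ)) ^ k'
            ≤ C1 * L ^ B * (2 * X / m) / (δ * L) ^ k' := by
              refine div_le_div₀ (by positivity) ?_ (by positivity) ?_
              · refine mul_le_mul (mul_le_mul_of_nonneg_left hdB hC1.le) hYle
                  (Nat.cast_nonneg _) (by positivity)
              · exact pow_le_pow_left₀ hδL.le hlogY k'
          _ = 2 * C1 * (δ⁻¹) ^ k' * X * (L ^ B / L ^ k') * (1 / m) := by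
              rw [mul_pow, inv_pow]
              field_simp
      linarith
  refine (norm_sum_le _ _).trans ((sum_le_sum hterm).trans ?_)
  rw [sum_add_distrib, ← mul_sum]
  have hs1 : 2 * C1 * (δ⁻¹) ^ k' * X * (L ^ B / L ^ k') * ∑ m ∈ Icc 1 X, (1 / (m : ℝ)) ≤
      X / L ^ k / 2 := by
    have a1 : ∑ m ∈ Icc 1 X, (1 / (m : ℝ)) ≤ 2 * L := (bsm_harm X).trans (by linarith)
    have a2 : L ^ B / L ^ k' = 1 / (L ^ k * L ^ 2) := by
      rw [hk', div_eq_div_iff (by positivity) (by positivity)]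
      ring
    calc 2 * C1 * (δ⁻¹) ^ k' * X * (L ^ B / L ^ k') * ∑ m ∈ Icc 1 X, (1 / (m : ℝ))
        ≤ 2 * C1 * (δ⁻¹) ^ k' * X * (L ^ B / L ^ k') * (2 * L) :=
          mul_le_mul_of_nonneg_left a1 (by positivity)
      _ = (8 * C1 * (δ⁻¹) ^ k') * X / (2 * L ^ k * L) := by
          rw [a2]
          field_simp
          ring
      _ ≤ L * X / (2 * L ^ k * L) := by
          refine div_le_div_of_nonneg_right ?_ (by positivity)
          exact mul_le_mul_of_nonneg_right h1 hXpos.le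
      _ = X / L ^ k / 2 := by
          field_simp
  have hs2 : ∑ m ∈ Icc 1 X, (if (m : ℝ) ≤ (X : ℝ) ^ (1 - δ) then L else 0) ≤ X / L ^ k / 2 := by
    rw [← sum_filter, sum_const, nsmul_eq_mul]
    have a1 : (((Icc 1 X).filter fun m : ℕ => (m : ℝ) ≤ (X : ℝ) ^ (1 - δ)).card : ℝ) ≤
        (X : ℝ) ^ (1 - δ) := by
      have hsub : ((Icc 1 X).filter fun m : ℕ => (m : ℝ) ≤ (X : ℝ) ^ (1 - δ)) ⊆
          Icc 1 ⌊(X : ℝ) ^ (1 - δ)⌋₊ := by
        intro m hm
        rw [mem_filter, mem_Icc] at hm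
        rw [mem_Icc]
        exact ⟨hm.1.1, Nat.le_floor hm.2⟩
      have hc := card_le_card hsub
      rw [Nat.card_Icc, Nat.add_sub_cancel] at hc
      exact (by exact_mod_cast hc : (((Icc 1 X).filter fun m : ℕ => (m : ℝ) ≤ (X : ℝ) ^ (1 - δ)).card : ℝ)
        ≤ (⌊(X : ℝ) ^ (1 - δ)⌋₊ : ℝ)).trans (Nat.floor_le (by positivity))
    have a2 : (X : ℝ) ^ (1 - δ) * (X : ℝ) ^ δ = X := by
      rw [← Real.rpow_add hXpos]
      have : 1 - δ + δ = 1 := by ring
      rw [this, Real.rpow_one]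
    have a3 : 0 < (X : ℝ) ^ (1 - δ) := by positivity
    calc (((Icc 1 X).filter fun m : ℕ => (m : ℝ) ≤ (X : ℝ) ^ (1 - δ)).card : ℝ) * L
        ≤ (X : ℝ) ^ (1 - δ) * L := mul_le_mul_of_nonneg_right a1 hL0.le
      _ ≤ X / L ^ k / 2 := by
          rw [le_div_iff₀ (by norm_num), le_div_iff₀ (by positivity)]
          calc (X : ℝ) ^ (1 - δ) * L * 2 * L ^ k = (X : ℝ) ^ (1 - δ) * (2 * L ^ (k + 1)) := by ring
            _ ≤ (X : ℝ) ^ (1 - δ) * (X : ℝ) ^ δ := mul_le_mul_of_nonneg_left h2 a3.le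
            _ = X := a2
  linarith

theorem fb_small (k B : ℕ) (δ : ℝ) (hδ : 0 < δ) : ∃ X0 : ℕ, ∀ X : ℕ, X0 ≤ X →
    ∀ (g : ℕ → ℝ) (b : ℕ → ℕ), (∀ m, |g m| ≤ 1) → (∀ m, g m ≠ 0 → (m : ℝ) ≤ (X : ℝ) ^ (1 - δ)) →
    ∀ r ∈ Icc 1 X, ∀ d : ℕ, 1 < d → (d : ℝ) ≤ (Real.log X) ^ B → ∀ ψ : DirichletCharacter ℂ d,
      ψ.IsPrimitive → ‖CS (fun n => (FB g b n : ℂ)) X r ψ‖ ≤ X / (Real.log X) ^ k := by
  obtain ⟨X0, hX0⟩ := bsm_aux k B (min δ 1) (lt_min hδ one_pos) (min_le_right _ _)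
  refine ⟨max X0 1, fun X hX g b hg hgs => hX0 X ((le_max_left _ _).trans hX) g b hg ?_⟩
  intro m hm
  refine (hgs m hm).trans ?_
  have hX1 : (1 : ℝ) ≤ X := by exact_mod_cast (le_max_right _ _).trans hX
  exact Real.rpow_le_rpow_of_exponent_le hX1 (by linarith [min_le_left δ 1])

end Pool.Agent.Lib.BV
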