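import Mathlib

/-!
# BV: the Bombieri-Vinogradov library, definitions and basic lemmas

`PS d f` is the sum of `f` over the primitive characters mod `d`; `CS F X r χ` the sum of `F n * χ n`
over `n ≤ X` coprime to `r`; `LA D Q G` the average `∑_{D < d ≤ Q} (1/φ(d)) PS d (G d)`; `EE F X q a`
the error of `F` on `[1,X]` in the class `a` mod `q`; `th n = log n` for primes; `FB g b` the function
`m ↦ ∑_{m = m' p, p ≤ b(m')} g(m') log p`; `fr r ψ n = ψ n` if `n` is coprime to `r`;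
`DL M N D Q = √(MN)/D + (√M + √N)(1 + log Q) + Q`.
-/

set_option autoImplicit false

open Finset

namespace Pool.Agent.Lib.BV

open scoped Classical in
/-- sum over the primitive characters mod `d` -/
noncomputable def PS (d : ℕ) (f : DirichletCharacter ℂ d → ℝ) : ℝ :=
  ∑ χ ∈ univ.filter (fun χ : DirichletCharacter ℂ d => χ.IsPrimitive), f χ

/-- the character sum over `n ≤ X` coprime to `r` -/
noncomputable def CS (F : ℕ → ℂ) (X r : ℕ) {d : ℕ} (χ : DirichletCharacter ℂ d) : ℂ :=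
  ∑ n ∈ (Icc 1 X).filter (fun n => n.Coprime r), F n * χ (n : ZMod d)

/-- the large sieve average over `D < d ≤ Q` -/
noncomputable def LA (D Q : ℕ) (G : (d : ℕ) → DirichletCharacter ℂ d → ℝ) : ℝ :=
  ∑ d ∈ Ioc D Q, (1 / (d.totient : ℝ)) * PS d (G d)

/-- the error of `F` in the class `a` mod `q` -/
noncomputable def EE (F : ℕ → ℝ) (X q a : ℕ) : ℝ :=
  ∑ n ∈ (Icc 1 X).filter (fun n => n ≡ a [MOD q]), F n -
    (1 / (q.totient : ℝ)) * ∑ n ∈ (Icc 1 X).filter (fun n => n.Coprime q), F n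

/-- `log n` on the primes -/
noncomputable def th (n : ℕ) : ℝ := if n.Prime then Real.log n else 0

/-- `m ↦ ∑_{m = m' p, p ≤ b(m')} g(m') log p` -/
noncomputable def FB (g : ℕ → ℝ) (b : ℕ → ℕ) (n : ℕ) : ℝ :=
  ∑ p ∈ n.primeFactors.filter (fun p => p ≤ b (n / p)), g (n / p) * Real.log p

/-- a character restricted to integers coprime to `r` -/
noncomputable def fr (r : ℕ) {d : ℕ} (ψ : DirichletCharacter ℂ d) (n : ℕ) : ℂ :=
  if n.Coprime r then ψ (n : ZMod d) else 0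

/-- `√(MN)/D + (√M + √N)(1 + log Q) + Q` -/
noncomputable def DL (M N : ℝ) (D Q : ℕ) : ℝ :=
  √(M * N) / D + (√M + √N) * (1 + Real.log Q) + Q

theorem PS_nonneg {d : ℕ} {f : DirichletCharacter ℂ d → ℝ} (hf : ∀ χ, 0 ≤ f χ) : 0 ≤ PS d f := by
  unfold PS
  apply Finset.sum_nonneg
  intro χ _
  exact hf χ

theorem PS_mono {d : ℕ} {f g : DirichletCharacter ℂ d → ℝ}
    (h : ∀ χ : DirichletCharacter ℂ d, χ.IsPrimitive → f χ ≤ g χ) : PS d f ≤ PS d g := by
  classical
  unfold PS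
  refine sum_le_sum fun χ hχ => h χ ?_
  exact (mem_filter.mp hχ).2

theorem PS_add {d : ℕ} (f g : DirichletCharacter ℂ d → ℝ) :
    PS d (fun χ => f χ + g χ) = PS d f + PS d g := by
  unfold PS
  exact sum_add_distrib

theorem PS_mul {d : ℕ} (c : ℝ) (f : DirichletCharacter ℂ d → ℝ) :
    PS d (fun χ => c * f χ) = c * PS d f := by
  unfold PS
  rw [mul_sum]

theorem PS_sum {d : ℕ} {ι : Type*} (s : Finset ι) (f : ι → DirichletCharacter ℂ d → ℝ) :
    PS d (fun χ => ∑ i ∈ s, f i χ) = ∑ i ∈ s, PS d (f i) := by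
  unfold PS
  rw [sum_comm]

theorem card_chars (d : ℕ) (hd : 1 ≤ d) : Fintype.card (DirichletCharacter ℂ d) = d.totient := by
  have : NeZero d := ⟨by omega⟩
  have h := DirichletCharacter.card_eq_totient_of_hasEnoughRootsOfUnity ℂ d
  rw [← h, Nat.card_eq_fintype_card]

theorem PS_le_const {d : ℕ} (hd : 1 ≤ d) {f : DirichletCharacter ℂ d → ℝ} {c : ℝ} (hc : 0 ≤ c)
    (h : ∀ χ : DirichletCharacter ℂ d, χ.IsPrimitive → f χ ≤ c) : PS d f ≤ d.totient * c := by
  classical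
  unfold PS
  refine (sum_le_card_nsmul _ _ c fun χ hχ => h χ (mem_filter.mp hχ).2).trans ?_
  rw [nsmul_eq_mul, ← card_chars d hd]
  refine mul_le_mul_of_nonneg_right ?_ hc
  exact_mod_cast card_le_univ _

theorem PS_le_univ {d : ℕ} {f : DirichletCharacter ℂ d → ℝ} (hf : ∀ χ, 0 ≤ f χ) :
    PS d f ≤ ∑ χ : DirichletCharacter ℂ d, f χ := by
  classical
  unfold PS
  exact sum_le_sum_of_subset_of_nonneg (filter_subset _ _) fun χ _ _ => hf χ

theorem tot_pos {d : ℕ} (hd : 1 ≤ d) : (0 : ℝ) < d.totient := by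
  exact_mod_cast Nat.totient_pos.2 (by omega)

theorem LA_nonneg {D Q : ℕ} {G : (d : ℕ) → DirichletCharacter ℂ d → ℝ} (h : ∀ d χ, 0 ≤ G d χ) :
    0 ≤ LA D Q G := by
  unfold LA
  refine sum_nonneg fun d _ => mul_nonneg (by positivity) (PS_nonneg fun χ => h d χ)

theorem LA_mono {D Q : ℕ} {G H : (d : ℕ) → DirichletCharacter ℂ d → ℝ}
    (h : ∀ d ∈ Ioc D Q, ∀ χ : DirichletCharacter ℂ d, χ.IsPrimitive → G d χ ≤ H d χ) :
    LA D Q G ≤ LA D Q H := by
  unfold LA
  refine sum_le_sum fun d hd => mul_le_mul_of_nonneg_left (PS_mono fun χ hχ => h d hd χ hχ) (by positivity)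

theorem LA_add {D Q : ℕ} (G H : (d : ℕ) → DirichletCharacter ℂ d → ℝ) :
    LA D Q (fun d χ => G d χ + H d χ) = LA D Q G + LA D Q H := by
  unfold LA
  rw [← sum_add_distrib]
  refine sum_congr rfl fun d _ => ?_
  rw [PS_add, mul_add]

theorem LA_mul {D Q : ℕ} (c : ℝ) (G : (d : ℕ) → DirichletCharacter ℂ d → ℝ) :
    LA D Q (fun d χ => c * G d χ) = c * LA D Q G := by
  unfold LA
  rw [mul_sum]
  refine sum_congr rfl fun d _ => ?_
  rw [PS_mul]
  ring

theorem LA_sum {D Q : ℕ} {ι : Type*} (s : Finset ι) (G : ι → (d : ℕ) → DirichletCharacter ℂ d → ℝ) :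
    LA D Q (fun d χ => ∑ i ∈ s, G i d χ) = ∑ i ∈ s, LA D Q (G i) := by
  unfold LA
  rw [sum_comm]
  refine sum_congr rfl fun d _ => ?_
  rw [PS_sum, mul_sum]

/-- if `G d χ ≤ c` then the average is at most `c Q` -/
theorem LA_le_const {D Q : ℕ} {G : (d : ℕ) → DirichletCharacter ℂ d → ℝ} {c : ℝ} (hc : 0 ≤ c)
    (h : ∀ d ∈ Ioc D Q, ∀ χ : DirichletCharacter ℂ d, χ.IsPrimitive → G d χ ≤ c) :
    LA D Q G ≤ c * Q := by
  unfold LA
  have h1 : ∀ d ∈ Ioc D Q, (1 / (d.totient : ℝ)) * PS d (G d) ≤ c := by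
    intro d hd
    have h2 : 1 ≤ d := by
      rw [mem_Ioc] at hd
      omega
    have h3 := tot_pos h2
    have h4 := PS_le_const h2 hc (h d hd)
    rw [one_div, inv_mul_le_iff₀ h3]
    exact h4
  refine (sum_le_card_nsmul _ _ c h1).trans ?_
  rw [nsmul_eq_mul, Nat.card_Ioc, mul_comm]
  refine mul_le_mul_of_nonneg_left ?_ hc
  exact_mod_cast Nat.sub_le _ _

theorem norm_CS_le (F : ℕ → ℂ) (X r : ℕ) {d : ℕ} (χ : DirichletCharacter ℂ d) :
    ‖CS F X r χ‖ ≤ ∑ n ∈ Icc 1 X, ‖F n‖ := by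
  unfold CS
  refine (norm_sum_le _ _).trans ?_
  refine (sum_le_sum fun n _ => ?_).trans
    (sum_le_sum_of_subset_of_nonneg (filter_subset _ _) fun n _ _ => norm_nonneg _)
  rw [norm_mul]
  exact mul_le_of_le_one_right (norm_nonneg _) (DirichletCharacter.norm_le_one χ _)

theorem CS_sub (F G : ℕ → ℂ) (X r : ℕ) {d : ℕ} (χ : DirichletCharacter ℂ d) :
    CS (fun n => F n - G n) X r χ = CS F X r χ - CS G X r χ := by
  unfold CS
  rw [← sum_sub_distrib]
  exact sum_congr rfl fun n _ => by ring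

theorem CS_eq_fr (F : ℕ → ℂ) (X r : ℕ) {d : ℕ} (χ : DirichletCharacter ℂ d) :
    CS F X r χ = ∑ n ∈ Icc 1 X, F n * fr r χ n := by
  unfold CS fr
  rw [sum_filter]
  refine sum_congr rfl fun n _ => ?_
  split_ifs <;> simp

theorem fr_mul (r : ℕ) {d : ℕ} (ψ : DirichletCharacter ℂ d) (m n : ℕ) :
    fr r ψ (m * n) = fr r ψ m * fr r ψ n := by
  unfold fr
  by_cases h1 : m.Coprime r <;> by_cases h2 : n.Coprime r
  · rw [if_pos h1, if_pos h2, if_pos (Nat.Coprime.mul_left h1 h2)]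
    push_cast
    rw [map_mul]
  · rw [if_neg h2, mul_zero, if_neg]
    exact fun h => h2 (Nat.Coprime.coprime_mul_left h)
  · rw [if_neg h1, zero_mul, if_neg]
    exact fun h => h1 (Nat.Coprime.coprime_mul_right h)
  · rw [if_neg h1, zero_mul, if_neg]
    exact fun h => h1 (Nat.Coprime.coprime_mul_right h)

theorem norm_fr_le (r : ℕ) {d : ℕ} (ψ : DirichletCharacter ℂ d) (n : ℕ) : ‖fr r ψ n‖ ≤ 1 := by
  unfold fr
  split_ifs
  · exact DirichletCharacter.norm_le_one ψ _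
  · simp

theorem ne_one_of_prim {d : ℕ} (hd : 1 < d) {ψ : DirichletCharacter ℂ d} (h : ψ.IsPrimitive) : ψ ≠ 1 := by
  have : NeZero d := ⟨by omega⟩
  intro h1
  rw [DirichletCharacter.isPrimitive_def, h1, DirichletCharacter.conductor_one] at h
  omega

theorem th_nonneg (n : ℕ) : 0 ≤ th n := by
  unfold th
  split_ifs
  · exact Real.log_natCast_nonneg n
  · exact le_rfl

theorem th_le (n : ℕ) : th n ≤ Real.log n := by
  unfold th
  split_ifs
  · exact le_rfl
  · exact Real.log_natCast_nonneg n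

theorem th_le_vonMangoldt (n : ℕ) : th n ≤ ArithmeticFunction.vonMangoldt n := by
  unfold th
  split_ifs with h
  · rw [ArithmeticFunction.vonMangoldt_apply_prime h]
  · exact ArithmeticFunction.vonMangoldt_nonneg

theorem abs_FB_le (g : ℕ → ℝ) (b : ℕ → ℕ) (hg : ∀ m, |g m| ≤ 1) (n : ℕ) (hn : 1 ≤ n) :
    |FB g b n| ≤ Real.log n := by
  unfold FB
  refine (abs_sum_le_sum_abs _ _).trans ?_
  have h1 : ∑ p ∈ n.primeFactors.filter (fun p => p ≤ b (n / p)), |g (n / p) * Real.log p| ≤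
      ∑ p ∈ n.primeFactors, Real.log p := by
    refine (sum_le_sum fun p _ => ?_).trans
      (sum_le_sum_of_subset_of_nonneg (filter_subset _ _) fun p _ _ => Real.log_natCast_nonneg p)
    rw [abs_mul, abs_of_nonneg (Real.log_natCast_nonneg p)]
    exact mul_le_of_le_one_left (Real.log_natCast_nonneg p) (hg _)
  refine h1.trans ?_
  rw [← Real.log_prod (fun p hp => by
    have := (Nat.prime_of_mem_primeFactors hp).pos
    positivity)]
  refine Real.log_le_log ?_ ?_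
  · refine prod_pos fun p hp => ?_
    have := (Nat.prime_of_mem_primeFactors hp).pos
    positivity
  · have h2 : (∏ p ∈ n.primeFactors, p) ∣ n := Nat.prod_primeFactors_dvd n
    have h3 := Nat.le_of_dvd (by omega) h2
    have h4 : ((∏ p ∈ n.primeFactors, p : ℕ) : ℝ) ≤ n := by exact_mod_cast h3
    rwa [Nat.cast_prod] at h4

theorem DL_nonneg (M N : ℝ) (D Q : ℕ) : 0 ≤ DL M N D Q := by
  unfold DL
  have := Real.log_natCast_nonneg Q
  positivity

theorem DL_mono {M M' N N' : ℝ} (D Q : ℕ) (h1 : M ≤ M') (h2 : N ≤ N') (hM : 0 ≤ M) (hN : 0 ≤ N) :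
    DL M N D Q ≤ DL M' N' D Q := by
  unfold DL
  have := Real.log_natCast_nonneg Q
  have h3 : √(M * N) ≤ √(M' * N') := Real.sqrt_le_sqrt (mul_le_mul h1 h2 hN (hM.trans h1))
  have h4 := Real.sqrt_le_sqrt h1
  have h5 := Real.sqrt_le_sqrt h2
  gcongr

end Pool.Agent.Lib.BV
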