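import Pool.Agent.Lib.BV.Defs

/-!
# BV-Om: mean value of K^omega(q)/phi(q)

PROOF. (1) For K ∈ ℕ: S_K(Q) := ∑_{q≤Q} K^ω(q)/q ≤ (1 + log Q)^K, by induction on K. K = 0: 0^ω(q) = 1 only for q = 1 (for q ≥ 2 ω ≥ 1). Step:
(K+1)^ω(q) = ∑_{T ⊆ primeFactors q} K^|T| (`Finset.sum_pow_mul_eq_add_pow` or `Finset.prod_add_one`/(K+1)^n binomial over powerset) ≤ ∑_{d | q} K^ω(d)
by the injection T ↦ ∏_{p∈T} p (squarefree divisor of q with exactly the prime factors T). Then
∑_{q≤Q} (1/q) ∑_{d|q} K^ω(d) = ∑_{d≤Q} (K^ω(d)/d) ∑_{e ≤ Q/d} 1/e ≤ S_K(Q) (1 + log Q) (harmonic_le_one_add_log, see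
`Vaughan_harmonic` in Pool/Agent/Lib/SW/Vaughan.lean). (2) q/φ(q) = ∏_{p|q} p/(p-1) ≤ 2^ω(q) (`Nat.totient_mul_prod_primeFactors`/
`Nat.totient_eq_mul_prod_factors`), so K^ω(q)/φ(q) ≤ (2K)^ω(q)/q. Hence the sum is ≤ S_{2K}(Q).
-/

set_option autoImplicit false

open Finset

namespace Pool.Agent.Lib.BV

private theorem Om_harmonic (Q : ℕ) : ∑ e ∈ Icc 1 Q, (1 : ℝ) / e ≤ 1 + Real.log Q := by
  have h := harmonic_le_one_add_log Q
  rw [harmonic_eq_sum_Icc] at h
  push_cast at h
  simpa only [one_div] using h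

private theorem Om_binom (K : ℕ) (q : ℕ) (hq : q ≠ 0) :
    ((K + 1 : ℕ) : ℝ) ^ q.primeFactors.card ≤
      ∑ d ∈ q.divisors, (K : ℝ) ^ d.primeFactors.card := by
  have h1 := Finset.sum_pow_mul_eq_add_pow (K : ℝ) 1 q.primeFactors
  have h2 : ((K + 1 : ℕ) : ℝ) ^ q.primeFactors.card =
      ∑ t ∈ q.primeFactors.powerset, (K : ℝ) ^ t.card := by
    push_cast
    rw [← h1]
    exact sum_congr rfl fun t _ => by rw [one_pow, mul_one]
  have hpf : ∀ t ∈ q.primeFactors.powerset, (∏ p ∈ t, p).primeFactors = t := by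
    intro t ht
    exact Nat.primeFactors_prod fun p hp => Nat.prime_of_mem_primeFactors (mem_powerset.1 ht hp)
  have hinj : Set.InjOn (fun t : Finset ℕ => ∏ p ∈ t, p) (q.primeFactors.powerset : Set (Finset ℕ)) := by
    intro s hs t ht hst
    have h3 := hpf s (mem_coe.1 hs)
    have h4 := hpf t (mem_coe.1 ht)
    simp only at hst
    rw [← h3, ← h4, hst]
  rw [h2]
  calc ∑ t ∈ q.primeFactors.powerset, (K : ℝ) ^ t.card
      = ∑ t ∈ q.primeFactors.powerset, (K : ℝ) ^ (∏ p ∈ t, p).primeFactors.card :=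
        sum_congr rfl fun t ht => by rw [hpf t ht]
    _ = ∑ d ∈ q.primeFactors.powerset.image (fun t : Finset ℕ => ∏ p ∈ t, p),
          (K : ℝ) ^ d.primeFactors.card :=
        (sum_image (f := fun d : ℕ => (K : ℝ) ^ d.primeFactors.card) hinj).symm
    _ ≤ ∑ d ∈ q.divisors, (K : ℝ) ^ d.primeFactors.card := by
        apply sum_le_sum_of_subset_of_nonneg
        · intro d hd
          obtain ⟨t, ht, rfl⟩ := mem_image.1 hd
          rw [Nat.mem_divisors]
          refine ⟨?_, hq⟩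
          exact (prod_dvd_prod_of_subset _ _ _ (mem_powerset.1 ht)).trans
            (Nat.prod_primeFactors_dvd q)
        · intro d _ _
          positivity

private theorem Om_S (K Q : ℕ) :
    ∑ q ∈ Icc 1 Q, (K : ℝ) ^ q.primeFactors.card / q ≤ (1 + Real.log Q) ^ K := by
  induction K with
  | zero =>
    rw [pow_zero]
    have h1 : ∀ q ∈ Icc 1 Q, ((0 : ℕ) : ℝ) ^ q.primeFactors.card / q ≤ if q = 1 then 1 else 0 := by
      intro q hq
      obtain ⟨h1, _⟩ := mem_Icc.1 hq
      split_ifs with h2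
      · rw [h2]
        simp
      · have h3 : q.primeFactors.card ≠ 0 := by
          rw [Finset.card_ne_zero, Nat.nonempty_primeFactors]
          omega
        rw [Nat.cast_zero, zero_pow h3, zero_div]
    refine (sum_le_sum h1).trans ?_
    rw [sum_ite_eq']
    split_ifs <;> norm_num
  | succ K ih =>
    have hlog : 0 ≤ Real.log Q := Real.log_natCast_nonneg Q
    set g : ℕ → ℝ := fun d => (K : ℝ) ^ d.primeFactors.card with hg
    have hg0 : ∀ d, 0 ≤ g d := fun d => by positivity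
    calc ∑ q ∈ Icc 1 Q, ((K + 1 : ℕ) : ℝ) ^ q.primeFactors.card / q
        ≤ ∑ q ∈ Icc 1 Q, ∑ d ∈ q.divisors, g d / q := by
          refine sum_le_sum fun q hq => ?_
          rw [← sum_div]
          have h0 : q ≠ 0 := by
            have := (mem_Icc.1 hq).1
            omega
          exact div_le_div_of_nonneg_right (Om_binom K q h0) (Nat.cast_nonneg _)
      _ = ∑ x ∈ (Icc 1 Q).sigma (fun q => q.divisors), g x.2 / x.1 := by
          rw [sum_sigma]
      _ ≤ ∑ y ∈ Icc 1 Q ×ˢ Icc 1 Q, g y.1 / y.1 * (1 / y.2) := by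
          have hinj : Set.InjOn (fun x : (_ : ℕ) × ℕ => ((x.2, x.1 / x.2) : ℕ × ℕ))
              (((Icc 1 Q).sigma (fun q => q.divisors) : Finset ((_ : ℕ) × ℕ)) :
                Set ((_ : ℕ) × ℕ)) := by
            rintro ⟨a, b⟩ hx ⟨c, d⟩ hy hxy
            simp only [coe_sigma, Set.mem_sigma_iff, mem_coe, Nat.mem_divisors] at hx hy
            simp only [Prod.mk.injEq] at hxy
            obtain ⟨h1, h2⟩ := hxy
            subst h1
            have h3 : a = c := by
              rw [← Nat.div_mul_cancel hx.2.1, ← Nat.div_mul_cancel hy.2.1, h2]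
            rw [h3]
          have hval : ∀ x ∈ (Icc 1 Q).sigma (fun q => q.divisors),
              g x.2 / x.1 = (fun y : ℕ × ℕ => g y.1 / y.1 * (1 / (y.2 : ℝ))) (x.2, x.1 / x.2) := by
            rintro ⟨q, d⟩ hx
            rw [mem_sigma, mem_Icc, Nat.mem_divisors] at hx
            obtain ⟨h1, h2, h3⟩ := hx
            have hd0 : (d : ℝ) ≠ 0 := by
              have : d ≠ 0 := fun h => h3 (Nat.eq_zero_of_zero_dvd (h ▸ h2))
              exact_mod_cast this
            have hq0 : (q : ℝ) ≠ 0 := by exact_mod_cast h3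
            show g d / q = g d / d * (1 / ((q / d : ℕ) : ℝ))
            rw [Nat.cast_div h2 hd0]
            field_simp
          rw [sum_congr rfl hval, ← sum_image (f := fun y : ℕ × ℕ => g y.1 / y.1 * (1 / (y.2 : ℝ)))
            hinj]
          apply sum_le_sum_of_subset_of_nonneg
          · intro y hy
            obtain ⟨⟨q, d⟩, hx, rfl⟩ := mem_image.1 hy
            rw [mem_sigma, mem_Icc, Nat.mem_divisors] at hx
            obtain ⟨⟨h1, h1'⟩, h2, h3⟩ := hx
            simp only at h1 h1' h2 h3 ⊢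
            have hdpos : 0 < d := Nat.pos_of_dvd_of_pos h2 h1
            have hdle : d ≤ q := Nat.le_of_dvd h1 h2
            rw [mem_product, mem_Icc, mem_Icc]
            refine ⟨⟨hdpos, hdle.trans h1'⟩, ?_, (Nat.div_le_self _ _).trans h1'⟩
            exact Nat.div_pos hdle hdpos
          · intro y _ _
            have := hg0 y.1
            positivity
      _ = (∑ d ∈ Icc 1 Q, g d / d) * ∑ e ∈ Icc 1 Q, (1 : ℝ) / e := by
          rw [sum_mul_sum, sum_product]
      _ ≤ (1 + Real.log Q) ^ K * (1 + Real.log Q) :=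
          mul_le_mul ih (Om_harmonic Q) (sum_nonneg fun e _ => by positivity) (by positivity)
      _ = (1 + Real.log Q) ^ (K + 1) := (pow_succ _ _).symm

private theorem Om_tot (q : ℕ) (hq : 0 < q) : (q : ℝ) ≤ 2 ^ q.primeFactors.card * q.totient := by
  have h1 := Nat.totient_mul_prod_primeFactors q
  have h2 : ∏ p ∈ q.primeFactors, p ≤ 2 ^ q.primeFactors.card * ∏ p ∈ q.primeFactors, (p - 1) := by
    rw [← prod_const, ← prod_mul_distrib]
    refine prod_le_prod' fun p hp => ?_
    have := (Nat.prime_of_mem_primeFactors hp).two_le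
    omega
  have h3 : 0 < ∏ p ∈ q.primeFactors, p :=
    prod_pos fun p hp => (Nat.prime_of_mem_primeFactors hp).pos
  have h4 : q * ∏ p ∈ q.primeFactors, p ≤
      (2 ^ q.primeFactors.card * q.totient) * ∏ p ∈ q.primeFactors, p := by
    calc q * ∏ p ∈ q.primeFactors, p
        ≤ q * (2 ^ q.primeFactors.card * ∏ p ∈ q.primeFactors, (p - 1)) :=
          Nat.mul_le_mul_left _ h2
      _ = 2 ^ q.primeFactors.card * (q * ∏ p ∈ q.primeFactors, (p - 1)) := by ring
      _ = 2 ^ q.primeFactors.card * (q.totient * ∏ p ∈ q.primeFactors, p) := by rw [h1]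
      _ = _ := by ring
  exact_mod_cast Nat.le_of_mul_le_mul_right h4 h3

theorem sum_pow_omega (K Q : ℕ) :
    ∑ q ∈ Icc 1 Q, (K : ℝ) ^ q.primeFactors.card / q.totient ≤ (1 + Real.log Q) ^ (2 * K) := by
  refine le_trans ?_ (Om_S (2 * K) Q)
  refine sum_le_sum fun q hq => ?_
  have hq1 : 0 < q := (mem_Icc.1 hq).1
  have hq0 : (0 : ℝ) < q := by exact_mod_cast hq1
  have hφ := tot_pos (show 1 ≤ q from hq1)
  rw [div_le_div_iff₀ hφ hq0]
  push_cast
  rw [mul_pow]
  have h1 := Om_tot q hq1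
  have h2 : (0 : ℝ) ≤ (K : ℝ) ^ q.primeFactors.card := by positivity
  nlinarith [mul_le_mul_of_nonneg_left h1 h2]

end Pool.Agent.Lib.BV
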