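import Pool.Agent.Lib.BV.Defs

/-!
# BV-PrimA: the error in terms of non-principal characters

PROOF. For (a,q) = 1: indicator of n ≡ a (mod q) is (1/φ(q)) ∑_χ χ(a⁻¹) χ(n) (`DirichletCharacter.sum_char_inv_mul_char_eq ℂ`, a a unit mod q by
`ZMod.isUnit_iff_coprime`; n ≡ a [MOD q] iff (n : ZMod q) = a, `ZMod.natCast_eq_natCast_iff`). So
∑_{n≡a} F(n) = (1/φ(q)) ∑_χ χ(a⁻¹) ∑_n F(n) χ(n). The term χ = 1 is (1/φ(q)) ∑_{(n,q)=1} F(n) (`MulChar.one_apply`, zero for non-units), the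
subtracted main term. Norms: ‖χ(a⁻¹)‖ ≤ 1. (Compare SWF_key and SWF_triv in Pool/Agent/Lib/SW/SWFinal.lean for Lean tactics.)
-/

set_option autoImplicit false

open Finset

namespace Pool.Agent.Lib.BV

private theorem primA_key (F : ℕ → ℝ) {q : ℕ} [NeZero q] {a : ℕ} (ha : Nat.Coprime a q)
    (S : Finset ℕ) :
    (q.totient : ℂ) * ((∑ n ∈ S.filter (fun n => n ≡ a [MOD q]), F n : ℝ) : ℂ) =
      ∑ χ : DirichletCharacter ℂ q, χ ((a : ZMod q)⁻¹) * ∑ n ∈ S, (F n : ℂ) * χ (n : ZMod q) := by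
  have hu : IsUnit (a : ZMod q) := (ZMod.isUnit_iff_coprime a q).2 ha
  have h1 : ∑ χ : DirichletCharacter ℂ q, χ ((a : ZMod q)⁻¹) * ∑ n ∈ S, (F n : ℂ) * χ (n : ZMod q)
      = ∑ n ∈ S, (∑ χ : DirichletCharacter ℂ q, χ ((a : ZMod q)⁻¹) * χ (n : ZMod q)) *
        ((F n : ℝ) : ℂ) := by
    simp_rw [Finset.mul_sum, Finset.sum_mul]
    rw [Finset.sum_comm]
    refine Finset.sum_congr rfl fun n _ => Finset.sum_congr rfl fun χ _ => ?_
    ring
  rw [h1]
  simp_rw [DirichletCharacter.sum_char_inv_mul_char_eq ℂ hu]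
  rw [Finset.sum_filter]
  push_cast
  rw [Finset.mul_sum]
  refine Finset.sum_congr rfl fun n _ => ?_
  by_cases h : n ≡ a [MOD q]
  · rw [if_pos h, if_pos ((ZMod.natCast_eq_natCast_iff _ _ _).2 h.symm)]
  · rw [if_neg h, if_neg fun h' => h ((ZMod.natCast_eq_natCast_iff _ _ _).1 h').symm]
    simp

private theorem primA_triv (F : ℕ → ℝ) {q : ℕ} (S : Finset ℕ) :
    ∑ n ∈ S, (F n : ℂ) * (1 : DirichletCharacter ℂ q) (n : ZMod q) =
      ((∑ n ∈ S.filter (fun n => n.Coprime q), F n : ℝ) : ℂ) := by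
  rw [Finset.sum_filter]
  push_cast
  refine Finset.sum_congr rfl fun n _ => ?_
  by_cases h : Nat.Coprime n q
  · rw [if_pos h, MulChar.one_apply ((ZMod.isUnit_iff_coprime n q).2 h), mul_one]
  · rw [if_neg h, MulChar.map_nonunit _ fun h' => h ((ZMod.isUnit_iff_coprime n q).1 h'), mul_zero]
    simp

open scoped Classical in
theorem EE_le_chars (F : ℕ → ℝ) (X q a : ℕ) (hq : 1 ≤ q) (ha : a.Coprime q) :
    |EE F X q a| ≤ (1 / (q.totient : ℝ)) *
      ∑ χ ∈ univ.filter (fun χ : DirichletCharacter ℂ q => χ ≠ 1),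
        ‖∑ n ∈ Icc 1 X, (F n : ℂ) * χ (n : ZMod q)‖ := by
  have : NeZero q := ⟨by omega⟩
  have hφ := tot_pos hq
  have hkey := primA_key F ha (Icc 1 X)
  have hu : IsUnit ((a : ZMod q)⁻¹) := by
    have h5 : IsUnit (a : ZMod q) := (ZMod.isUnit_iff_coprime a q).2 ha
    refine isUnit_iff_exists_inv.2 ⟨(a : ZMod q), ?_⟩
    rw [mul_comm]
    exact ZMod.mul_inv_of_unit _ h5
  have hfil : univ.filter (fun χ : DirichletCharacter ℂ q => χ ≠ 1) = univ.erase 1 := by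
    ext χ
    simp
  rw [← Finset.add_sum_erase _ _ (Finset.mem_univ (1 : DirichletCharacter ℂ q)),
    MulChar.one_apply hu, one_mul, primA_triv] at hkey
  have hrest : ‖∑ χ ∈ Finset.univ.erase (1 : DirichletCharacter ℂ q),
      χ ((a : ZMod q)⁻¹) * ∑ n ∈ Finset.Icc 1 X, (F n : ℂ) * χ (n : ZMod q)‖ ≤
      ∑ χ ∈ univ.filter (fun χ : DirichletCharacter ℂ q => χ ≠ 1),
        ‖∑ n ∈ Icc 1 X, (F n : ℂ) * χ (n : ZMod q)‖ := by
    rw [hfil]
    refine (norm_sum_le _ _).trans (sum_le_sum fun χ _ => ?_)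
    rw [norm_mul]
    exact mul_le_of_le_one_left (norm_nonneg _) (DirichletCharacter.norm_le_one χ _)
  generalize ∑ χ ∈ Finset.univ.erase (1 : DirichletCharacter ℂ q),
      χ ((a : ZMod q)⁻¹) * ∑ n ∈ Finset.Icc 1 X, (F n : ℂ) * χ (n : ZMod q) = R at hkey hrest
  generalize hB : ∑ χ ∈ univ.filter (fun χ : DirichletCharacter ℂ q => χ ≠ 1),
        ‖∑ n ∈ Icc 1 X, (F n : ℂ) * χ (n : ZMod q)‖ = B at hrest
  unfold EE
  generalize ∑ n ∈ (Icc 1 X).filter (fun n => n ≡ a [MOD q]), F n = P at hkey ⊢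
  generalize ∑ n ∈ (Icc 1 X).filter (fun n => n.Coprime q), F n = M at hkey ⊢
  have h1 : (((q.totient : ℝ) * (P - 1 / (q.totient : ℝ) * M) : ℝ) : ℂ) = R := by
    have h2 : (q.totient : ℝ) * (P - 1 / (q.totient : ℝ) * M) = (q.totient : ℝ) * P - M := by
      field_simp
    rw [h2]
    push_cast
    rw [hkey]
    ring
  have h3 : (q.totient : ℝ) * |P - 1 / (q.totient : ℝ) * M| ≤ B := by
    rw [← abs_of_pos hφ, ← abs_mul, abs_of_pos hφ, ← Real.norm_eq_abs, ← Complex.norm_real, h1]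
    exact hrest
  rw [one_div, le_inv_mul_iff₀ hφ, ← one_div]
  rw [← hB] at h3
  exact h3.trans (le_of_eq (Finset.sum_congr (by ext χ; simp) fun _ _ => rfl))

end Pool.Agent.Lib.BV
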