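import Pool.Agent.Lib.BV.Defs

/-!
# BV-PrimB: reduction to primitive characters

PROOF. Let χ ≠ 1 mod q, d = χ.conductor, ψ = χ.primitiveCharacter (primitive mod d, d | q, d > 1 by `eq_one_iff_conductor_eq_one`, d ≠ 0). For every n:
χ(n) = ψ(n) if (n,q) = 1 and χ(n) = 0 otherwise (`primitiveCharacter_apply_of_isCoprime` / `changeLevel_eq_cast_of_dvd'`). And
ψ(n) = 0 unless (n,d) = 1; (n,q) = 1 iff (n,d) = 1 and (n, q/d) = 1 (q = d (q/d)). Hence ∑_{n ≤ X} F(n) χ(n) = CS F X (q/d) ψ. The map
χ ↦ (d, ψ) is injective: χ = changeLevel ψ (`changeLevel_primitiveCharacter`). So the sum over χ ≠ 1 of f(χ.conductor, χ.primitiveCharacter) is at most the sum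
over all d | q, d > 1 and all primitive ψ mod d (terms ≥ 0): with the Sigma type (d : ℕ) × DirichletCharacter ℂ d, use
`Finset.sum_le_sum_of_injOn`-like argument: image of the filter under the injective map is a subset of
(q.divisors.filter (1 < ·)).sigma (fun d => univ.filter IsPrimitive) (`Finset.sum_image`, `Finset.sum_sigma`).
-/

set_option autoImplicit false

open Finset

namespace Pool.Agent.Lib.BV

private theorem primB_apply {q : ℕ} [NeZero q] (χ : DirichletCharacter ℂ q) (n : ℕ) :
    χ (n : ZMod q) =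
      if n.Coprime (q / χ.conductor) then χ.primitiveCharacter (n : ZMod χ.conductor) else 0 := by
  have hd : χ.conductor * (q / χ.conductor) = q := Nat.mul_div_cancel' χ.conductor_dvd_level
  by_cases h : n.Coprime q
  · have h1 : n.Coprime (q / χ.conductor) := h.coprime_dvd_right ⟨_, (mul_comm _ _).trans hd |>.symm⟩
    rw [if_pos h1]
    have h2 := DirichletCharacter.primitiveCharacter_apply_of_isCoprime χ (a := (n : ℤ))
      (Nat.isCoprime_iff_coprime.mpr h)
    simp only [Int.cast_natCast] at h2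
    exact h2.symm
  · rw [MulChar.map_nonunit _ fun h' => h ((ZMod.isUnit_iff_coprime n q).1 h')]
    split_ifs with h1
    · have h2 : ¬ n.Coprime χ.conductor := by
        intro h3
        apply h
        rw [← hd]
        exact Nat.Coprime.mul_right h3 h1
      rw [MulChar.map_nonunit _ fun h' => h2 ((ZMod.isUnit_iff_coprime n χ.conductor).1 h')]
    · rfl

private theorem primB_CS (F : ℕ → ℂ) (X : ℕ) {q : ℕ} [NeZero q] (χ : DirichletCharacter ℂ q) :
    ∑ n ∈ Icc 1 X, F n * χ (n : ZMod q) = CS F X (q / χ.conductor) χ.primitiveCharacter := by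
  unfold CS
  rw [sum_filter]
  refine sum_congr rfl fun n _ => ?_
  rw [primB_apply χ n]
  split_ifs <;> simp

open scoped Classical in
theorem chars_le_prim (F : ℕ → ℂ) (X q : ℕ) (hq : 1 ≤ q) :
    ∑ χ ∈ univ.filter (fun χ : DirichletCharacter ℂ q => χ ≠ 1),
      ‖∑ n ∈ Icc 1 X, F n * χ (n : ZMod q)‖ ≤
        ∑ d ∈ q.divisors.filter (fun d => 1 < d), PS d (fun ψ => ‖CS F X (q / d) ψ‖) := by
  have : NeZero q := ⟨by omega⟩
  set g : DirichletCharacter ℂ q → (d : ℕ) × DirichletCharacter ℂ d :=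
    fun χ => ⟨χ.conductor, χ.primitiveCharacter⟩ with hg
  set f : ((d : ℕ) × DirichletCharacter ℂ d) → ℝ := fun p => ‖CS F X (q / p.1) p.2‖ with hf
  have hinj : Function.Injective g := by
    have h1 : ∀ χ : DirichletCharacter ℂ q, ∀ p : (d : ℕ) × DirichletCharacter ℂ d, g χ = p →
        ∀ n : ℕ, χ (n : ZMod q) = if n.Coprime (q / p.1) then p.2 (n : ZMod p.1) else 0 := by
      intro χ p hp n
      subst hp
      exact primB_apply χ n
    intro χ χ' h
    apply MulChar.ext'
    intro a
    have h2 := h1 χ (g χ') h a.val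
    have h3 := h1 χ' (g χ') rfl a.val
    rw [← h3] at h2
    rwa [ZMod.natCast_zmod_val] at h2
  have h1 : ∑ χ ∈ univ.filter (fun χ : DirichletCharacter ℂ q => χ ≠ 1),
      ‖∑ n ∈ Icc 1 X, F n * χ (n : ZMod q)‖ =
      ∑ p ∈ (univ.filter (fun χ : DirichletCharacter ℂ q => χ ≠ 1)).image g, f p := by
    rw [sum_image fun a _ b _ hab => hinj hab]
    refine sum_congr rfl fun χ _ => ?_
    rw [primB_CS]
  have h2 : (univ.filter (fun χ : DirichletCharacter ℂ q => χ ≠ 1)).image g ⊆
      (q.divisors.filter (fun d => 1 < d)).sigma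
        (fun d => univ.filter (fun ψ : DirichletCharacter ℂ d => ψ.IsPrimitive)) := by
    intro p hp
    rw [mem_image] at hp
    obtain ⟨χ, hχ, rfl⟩ := hp
    rw [mem_filter] at hχ
    rw [mem_sigma, mem_filter, mem_filter, Nat.mem_divisors]
    refine ⟨⟨⟨χ.conductor_dvd_level, by omega⟩, ?_⟩, mem_univ _, χ.primitiveCharacter_isPrimitive⟩
    have h3 : χ.conductor ≠ 0 := χ.conductor_ne_zero
    have h4 : χ.conductor ≠ 1 := fun h5 => hχ.2 (DirichletCharacter.eq_one_iff_conductor_eq_one.mpr h5)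
    show 1 < χ.conductor
    omega
  refine (le_of_eq ((Finset.sum_congr (by ext χ; simp) fun _ _ => rfl).trans h1)).trans ?_
  refine (sum_le_sum_of_subset_of_nonneg h2 fun p _ _ => norm_nonneg _).trans (le_of_eq ?_)
  rw [sum_sigma]
  refine sum_congr rfl fun d _ => ?_
  unfold PS
  rfl

end Pool.Agent.Lib.BV
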