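import Pool.Agent.Lib.BV.Defs

/-!
# BV-Reidx: reindexing q = d r

PROOF. Put r = q/d. φ(q) = φ(d r) ≥ φ(d) φ(r) (`Nat.totient_super_multiplicative`), so (1/φ(q)) G d (q/d) ≤ (1/φ(r)) (1/φ(d)) G d r. The pairs (q,d),
q ≤ Q, d | q, d > 1 inject into the pairs (r,d) with r = q/d ∈ Icc 1 Q, d ∈ Ioc 1 Q by (q,d) ↦ (q/d, d) (q = d r). All terms are ≥ 0, so the sum over the
image is at most the full sum (`Finset.sum_sigma'`, `Finset.sum_le_sum_of_subset_of_nonneg`, `Finset.sum_image`; or bound the sum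
over d first: ∑_{q ≤ Q} ∑_{d | q} f(q,d) = ∑_{d ≤ Q} ∑_{r ≤ Q/d} f(d r, d)).
-/

set_option autoImplicit false

open Finset

namespace Pool.Agent.Lib.BV

theorem reindex (G : ℕ → ℕ → ℝ) (hG : ∀ d r, 0 ≤ G d r) (Q : ℕ) :
    ∑ q ∈ Icc 1 Q, (1 / (q.totient : ℝ)) * ∑ d ∈ q.divisors.filter (fun d => 1 < d), G d (q / d) ≤
      ∑ r ∈ Icc 1 Q, (1 / (r.totient : ℝ)) * ∑ d ∈ Ioc 1 Q, (1 / (d.totient : ℝ)) * G d r := by
  have h1 : ∀ q ∈ Icc 1 Q, (1 / (q.totient : ℝ)) * ∑ d ∈ q.divisors.filter (fun d => 1 < d), G d (q / d) ≤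
      ∑ d ∈ q.divisors.filter (fun d => 1 < d),
        (1 / ((q / d).totient : ℝ)) * ((1 / (d.totient : ℝ)) * G d (q / d)) := by
    intro q hq
    rw [mul_sum]
    refine sum_le_sum fun d hd => ?_
    rw [mem_filter, Nat.mem_divisors] at hd
    rw [← mul_assoc]
    refine mul_le_mul_of_nonneg_right ?_ (hG _ _)
    have hd0 : 0 < d := by omega
    have hr0 : 0 < q / d := Nat.div_pos (Nat.le_of_dvd (Nat.pos_of_ne_zero hd.1.2) hd.1.1) hd0
    have h2 : (0 : ℝ) < (q / d).totient := by exact_mod_cast Nat.totient_pos.2 hr0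
    have h3 : (0 : ℝ) < d.totient := by exact_mod_cast Nat.totient_pos.2 hd0
    rw [one_div_mul_one_div]
    apply one_div_le_one_div_of_le (mul_pos h2 h3)
    have h4 := Nat.totient_super_multiplicative (q / d) d
    rw [Nat.div_mul_cancel hd.1.1] at h4
    exact_mod_cast h4
  refine (sum_le_sum h1).trans ?_
  simp_rw [mul_sum]
  rw [sum_sigma', sum_sigma']
  set f : (Σ _ : ℕ, ℕ) → ℝ := fun y =>
    (1 / (y.1.totient : ℝ)) * ((1 / (y.2.totient : ℝ)) * G y.2 y.1) with hf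
  have h5 : ∀ s : Finset (Σ _ : ℕ, ℕ), (∀ y ∈ s, 0 < y.2 ∧ y.2 ∣ y.1) →
      ∑ y ∈ s, f ⟨y.1 / y.2, y.2⟩ = ∑ y ∈ s.image (fun y => (⟨y.1 / y.2, y.2⟩ : Σ _ : ℕ, ℕ)), f y := by
    intro s hs
    rw [sum_image]
    rintro ⟨q, d⟩ hx ⟨q', d'⟩ hy hxy
    have h6 := hs _ hx
    have h7 := hs _ hy
    simp only [Sigma.mk.injEq, heq_eq_eq] at hxy h6 h7 ⊢
    obtain ⟨h8, h9⟩ := hxy
    subst h9
    refine ⟨?_, rfl⟩
    rw [← Nat.div_mul_cancel h6.2, ← Nat.div_mul_cancel h7.2, h8]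
  have h10 := h5 ((Icc 1 Q).sigma fun q => q.divisors.filter (fun d => 1 < d)) (by
    rintro ⟨q, d⟩ hy
    rw [mem_sigma, mem_filter, Nat.mem_divisors] at hy
    exact ⟨by omega, hy.2.1.1⟩)
  refine (le_of_eq h10).trans ?_
  apply sum_le_sum_of_subset_of_nonneg
  · rintro y hy
    rw [mem_image] at hy
    obtain ⟨⟨q, d⟩, h11, rfl⟩ := hy
    rw [mem_sigma, mem_filter, Nat.mem_divisors, mem_Icc] at h11
    obtain ⟨⟨h12, h13⟩, ⟨h14, h15⟩, h16⟩ := h11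
    simp only at h12 h13 h14 h15 h16
    rw [mem_sigma, mem_Icc, mem_Ioc]
    have h17 : d ≤ q := Nat.le_of_dvd (by omega) h14
    have h18 : 0 < d := by omega
    exact ⟨⟨Nat.div_pos h17 h18, (Nat.div_le_self q d).trans h13⟩, h16, h17.trans h13⟩
  · intro y _ _
    simp only [hf]
    exact mul_nonneg (by positivity) (mul_nonneg (by positivity) (hG _ _))

end Pool.Agent.Lib.BV
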