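import Pool.Agent.Lib.BV.Defs
import Pool.Agent.Lib.BV.PrimA
import Pool.Agent.Lib.BV.PrimB
import Pool.Agent.Lib.BV.Reidx
import Pool.Agent.Lib.BV.Om

/-!
# BV-Red: reduction of the mean error to primitive characters

PROOF. By `EE_le_chars`, `chars_le_prim` and `reindex` with G d r = PS d (‖CS F X r ψ‖) (≥ 0, `PS_nonneg`):
∑_q |EE| ≤ ∑_{r≤Q} (1/φ(r)) ∑_{1<d≤Q} (1/φ(d)) PS d(‖CS F X r ψ‖). For fixed r ∈ Icc 1 Q split d ≤ D and d > D: the first part is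
≤ ∑_{1<d≤D} (1/φ(d)) φ(d) e1 ≤ D e1 (`PS_le_const`), the second is LA D Q ≤ e2 (Ioc 1 Q ⊆ Ioc 1 D ∪ Ioc D Q, terms ≥ 0). Finally
∑_{r ≤ Q} 1/φ(r) ≤ (1 + log Q)² (`sum_pow_omega` with K = 1).
-/

set_option autoImplicit false

open Finset

namespace Pool.Agent.Lib.BV

theorem red (F : ℕ → ℝ) (X Q D : ℕ) (e1 e2 : ℝ) (he1 : 0 ≤ e1) (he2 : 0 ≤ e2)
    (h1 : ∀ r ∈ Icc 1 Q, ∀ d ∈ Ioc 1 D, ∀ ψ : DirichletCharacter ℂ d, ψ.IsPrimitive →
      ‖CS (fun n => (F n : ℂ)) X r ψ‖ ≤ e1)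
    (h2 : ∀ r ∈ Icc 1 Q, LA D Q (fun _ ψ => ‖CS (fun n => (F n : ℂ)) X r ψ‖) ≤ e2)
    (a : ℕ → ℕ) (ha : ∀ q ∈ Icc 1 Q, (a q).Coprime q) :
    ∑ q ∈ Icc 1 Q, |EE F X q (a q)| ≤ (1 + Real.log Q) ^ 2 * (D * e1 + e2) := by
  classical
  set G : ℕ → ℕ → ℝ := fun d r => PS d (fun ψ => ‖CS (fun n => (F n : ℂ)) X r ψ‖) with hG
  have hG0 : ∀ d r, 0 ≤ G d r := fun d r => PS_nonneg fun χ => norm_nonneg _
  have s1 : ∑ q ∈ Icc 1 Q, |EE F X q (a q)| ≤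
      ∑ q ∈ Icc 1 Q, (1 / (q.totient : ℝ)) * ∑ d ∈ q.divisors.filter (fun d => 1 < d), G d (q / d) := by
    refine sum_le_sum fun q hq => ?_
    have hq1 := (mem_Icc.mp hq).1
    refine (EE_le_chars F X q (a q) hq1 (ha q hq)).trans ?_
    refine mul_le_mul_of_nonneg_left ?_ (by positivity)
    exact chars_le_prim (fun n => (F n : ℂ)) X q hq1
  refine s1.trans ((reindex G hG0 Q).trans ?_)
  have s2 : ∀ r ∈ Icc 1 Q, (1 / (r.totient : ℝ)) * ∑ d ∈ Ioc 1 Q, (1 / (d.totient : ℝ)) * G d r ≤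
      (((1 : ℕ) : ℝ) ^ r.primeFactors.card / r.totient) * (D * e1 + e2) := by
    intro r hr
    rw [Nat.cast_one, one_pow]
    refine mul_le_mul_of_nonneg_left ?_ (by positivity)
    have h4 : ∑ d ∈ Ioc 1 Q, (1 / (d.totient : ℝ)) * G d r ≤
        ∑ d ∈ Ioc 1 D, (1 / (d.totient : ℝ)) * G d r + ∑ d ∈ Ioc D Q, (1 / (d.totient : ℝ)) * G d r := by
      have h5 : ∀ d, 0 ≤ (1 / (d.totient : ℝ)) * G d r := fun d =>
        mul_nonneg (by positivity) (hG0 d r)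
      rw [← sum_union]
      · refine sum_le_sum_of_subset_of_nonneg ?_ fun d _ _ => h5 d
        intro d hd
        rw [mem_union, mem_Ioc, mem_Ioc]
        rw [mem_Ioc] at hd
        omega
      · rw [disjoint_left]
        intro d hd hd'
        rw [mem_Ioc] at hd hd'
        omega
    refine h4.trans (add_le_add ?_ (h2 r hr))
    have h6 : ∀ d ∈ Ioc 1 D, (1 / (d.totient : ℝ)) * G d r ≤ e1 := by
      intro d hd
      have hd1 : 1 ≤ d := by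
        rw [mem_Ioc] at hd
        omega
      have h7 := tot_pos hd1
      rw [one_div, inv_mul_le_iff₀ h7]
      exact PS_le_const hd1 he1 (h1 r hr d hd)
    refine (sum_le_card_nsmul _ _ e1 h6).trans ?_
    rw [nsmul_eq_mul, Nat.card_Ioc]
    refine mul_le_mul_of_nonneg_right ?_ he1
    exact_mod_cast Nat.sub_le _ _
  refine (sum_le_sum s2).trans ?_
  rw [← sum_mul]
  refine mul_le_mul_of_nonneg_right ?_ (by positivity)
  have h8 := sum_pow_omega 1 Q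
  rwa [mul_one] at h8

end Pool.Agent.Lib.BV
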