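import Pool.Agent.Lib.BV.Defs

/-!
# BV-Triv: trivial bound for the error

PROOF. Number of n ∈ Icc 1 X with n ≡ a (mod q) is ≤ X/q + 1 ≤ 2X/q (q ≤ X) ≤ 2X/φ(q) (φ(q) ≤ q). (`Nat.count_modEq_card` or
`Int.Ioc_filter_modEq_card`; a simple injection: the map n ↦ n / q into range (X/q + 1) is injective on the class.) So the first sum is ≤ 2 L X/φ(q) in absolute value,
the second is ≤ L X/φ(q).
-/

set_option autoImplicit false

open Finset

namespace Pool.Agent.Lib.BV

theorem Triv_card (X q a : ℕ) (hq : 1 ≤ q) :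
    ((Icc 1 X).filter (fun n => n ≡ a [MOD q])).card ≤ X / q + 1 := by
  have h : ((Icc 1 X).filter (fun n => n ≡ a [MOD q])).card ≤ (range (X / q + 1)).card := by
    refine card_le_card_of_injOn (fun n => n / q) ?_ ?_
    · intro n hn
      rw [mem_coe, mem_filter, mem_Icc] at hn
      rw [mem_coe, mem_range]
      exact Nat.lt_succ_of_le (Nat.div_le_div_right hn.1.2)
    · intro m hm n hn hmn
      rw [mem_coe, mem_filter] at hm hn
      simp only at hmn
      have h1 : m % q = n % q := hm.2.trans hn.2.symm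
      rw [← Nat.div_add_mod m q, ← Nat.div_add_mod n q, hmn, h1]
  rwa [card_range] at h

theorem EE_trivial (F : ℕ → ℝ) (X q a : ℕ) (L : ℝ) (hL : 0 ≤ L) (hF : ∀ n ∈ Icc 1 X, |F n| ≤ L)
    (hq : 1 ≤ q) (hqX : q ≤ X) : |EE F X q a| ≤ 3 * L * X / q.totient := by
  have hφ := tot_pos hq
  have hq0 : (0 : ℝ) < q := by exact_mod_cast hq
  have hφq : (q.totient : ℝ) ≤ q := by exact_mod_cast Nat.totient_le q
  have hqX' : (q : ℝ) ≤ X := by exact_mod_cast hqX
  have h1 : |∑ n ∈ (Icc 1 X).filter (fun n => n ≡ a [MOD q]), F n| ≤ 2 * L * X / q.totient := by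
    refine (abs_sum_le_sum_abs _ _).trans ?_
    refine (sum_le_card_nsmul _ _ L fun n hn => hF n (mem_filter.mp hn).1).trans ?_
    rw [nsmul_eq_mul]
    have h2 : (((Icc 1 X).filter (fun n => n ≡ a [MOD q])).card : ℝ) ≤ 2 * X / q.totient := by
      have h3 : (((Icc 1 X).filter (fun n => n ≡ a [MOD q])).card : ℝ) ≤ ((X / q : ℕ) : ℝ) + 1 := by
        exact_mod_cast Triv_card X q a hq
      have h4 : ((X / q : ℕ) : ℝ) ≤ X / q := Nat.cast_div_le
      have h5 : (1 : ℝ) ≤ X / q := by
        rw [one_le_div hq0]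
        exact hqX'
      have h6 : (X : ℝ) / q ≤ X / q.totient := div_le_div_of_nonneg_left (by positivity) hφ hφq
      calc (((Icc 1 X).filter (fun n => n ≡ a [MOD q])).card : ℝ) ≤ X / q + X / q := by linarith
        _ ≤ X / q.totient + X / q.totient := by linarith
        _ = 2 * X / q.totient := by ring
    calc _ ≤ 2 * X / q.totient * L := mul_le_mul_of_nonneg_right h2 hL
      _ = 2 * L * X / q.totient := by ring
  have h2 : |(1 / (q.totient : ℝ)) * ∑ n ∈ (Icc 1 X).filter (fun n => n.Coprime q), F n| ≤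
      L * X / q.totient := by
    rw [abs_mul, abs_of_nonneg (by positivity : (0 : ℝ) ≤ 1 / (q.totient : ℝ))]
    have h3 : |∑ n ∈ (Icc 1 X).filter (fun n => n.Coprime q), F n| ≤ X * L := by
      refine (abs_sum_le_sum_abs _ _).trans ?_
      refine (sum_le_card_nsmul _ _ L fun n hn => hF n (mem_filter.mp hn).1).trans ?_
      rw [nsmul_eq_mul]
      refine mul_le_mul_of_nonneg_right ?_ hL
      have h4 : ((Icc 1 X).filter (fun n => n.Coprime q)).card ≤ X := by
        refine (card_filter_le _ _).trans ?_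
        simp
      exact_mod_cast h4
    calc _ ≤ 1 / (q.totient : ℝ) * (X * L) := mul_le_mul_of_nonneg_left h3 (by positivity)
      _ = L * X / q.totient := by ring
  unfold EE
  refine (abs_sub _ _).trans ?_
  calc _ ≤ 2 * L * X / q.totient + L * X / q.totient := add_le_add h1 h2
    _ = 3 * L * X / q.totient := by ring

end Pool.Agent.Lib.BV
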