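import Pool.Agent.Lib.BV.Defs
import Pool.Agent.Lib.BV.Triv
import Pool.Agent.Lib.BV.Om

/-!
# BV-Wt: weights K^omega(q) by Cauchy-Schwarz

PROOF. K^ω|E| = (K^(2ω)|E|)^(1/2) |E|^(1/2), so by Cauchy-Schwarz (`Finset.sum_mul_sq_le_sq_mul_sq` or `Real.sum_mul_le_sqrt_mul_sqrt`) the square of the left side is
≤ (∑ (K²)^ω(q) |E_q|)(∑ |E_q|) ≤ (3 L X ∑ (K²)^ω(q)/φ(q)) W ≤ 3 L X (1 + log Q)^(2K²) W by `EE_trivial` (q ≤ Q ≤ X) and
`sum_pow_omega` with K² (a natural number, cast: ((K^2 : ℕ) : ℝ)^ω = (K^ω)²).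
-/

set_option autoImplicit false

open Finset

namespace Pool.Agent.Lib.BV

theorem weighted (F : ℕ → ℝ) (X Q K : ℕ) (L W : ℝ) (hL : 0 ≤ L) (hF : ∀ n ∈ Icc 1 X, |F n| ≤ L)
    (hQ : Q ≤ X) (a : ℕ → ℕ) (hW : ∑ q ∈ Icc 1 Q, |EE F X q (a q)| ≤ W) :
    ∑ q ∈ Icc 1 Q, (K : ℝ) ^ q.primeFactors.card * |EE F X q (a q)| ≤
      √(3 * L * X * (1 + Real.log Q) ^ (2 * K ^ 2) * W) := by
  have hlog := Real.log_natCast_nonneg Q
  have hW0 : 0 ≤ ∑ q ∈ Icc 1 Q, |EE F X q (a q)| := sum_nonneg fun q _ => abs_nonneg _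
  apply Real.le_sqrt_of_sq_le
  have h1 : (∑ q ∈ Icc 1 Q, (K : ℝ) ^ q.primeFactors.card * |EE F X q (a q)|) ^ 2 ≤
      (∑ q ∈ Icc 1 Q, (((K : ℝ) ^ q.primeFactors.card) ^ 2 * |EE F X q (a q)|)) *
        ∑ q ∈ Icc 1 Q, |EE F X q (a q)| := by
    have h2 := sum_mul_sq_le_sq_mul_sq (Icc 1 Q)
      (fun q => (K : ℝ) ^ q.primeFactors.card * √|EE F X q (a q)|) (fun q => √|EE F X q (a q)|)
    have e1 : ∀ q, (K : ℝ) ^ q.primeFactors.card * √|EE F X q (a q)| * √|EE F X q (a q)| =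
        (K : ℝ) ^ q.primeFactors.card * |EE F X q (a q)| := by
      intro q
      rw [mul_assoc, Real.mul_self_sqrt (abs_nonneg _)]
    have e2 : ∀ q, ((K : ℝ) ^ q.primeFactors.card * √|EE F X q (a q)|) ^ 2 =
        ((K : ℝ) ^ q.primeFactors.card) ^ 2 * |EE F X q (a q)| := by
      intro q
      rw [mul_pow, Real.sq_sqrt (abs_nonneg _)]
    have e3 : ∀ q, √|EE F X q (a q)| ^ 2 = |EE F X q (a q)| := fun q => Real.sq_sqrt (abs_nonneg _)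
    simp only [e1, e2, e3] at h2
    exact h2
  refine h1.trans ?_
  refine mul_le_mul ?_ hW hW0 (by positivity)
  have h3 : ∀ q ∈ Icc 1 Q, ((K : ℝ) ^ q.primeFactors.card) ^ 2 * |EE F X q (a q)| ≤
      3 * L * X * (((K ^ 2 : ℕ) : ℝ) ^ q.primeFactors.card / q.totient) := by
    intro q hq
    rw [mem_Icc] at hq
    have h4 := EE_trivial F X q (a q) L hL hF hq.1 (hq.2.trans hQ)
    have e4 : ((K : ℝ) ^ q.primeFactors.card) ^ 2 = ((K ^ 2 : ℕ) : ℝ) ^ q.primeFactors.card := by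
      push_cast
      rw [← pow_mul, ← pow_mul, mul_comm]
    rw [e4]
    calc ((K ^ 2 : ℕ) : ℝ) ^ q.primeFactors.card * |EE F X q (a q)| ≤
        ((K ^ 2 : ℕ) : ℝ) ^ q.primeFactors.card * (3 * L * X / q.totient) :=
          mul_le_mul_of_nonneg_left h4 (by positivity)
      _ = _ := by ring
  refine (sum_le_sum h3).trans ?_
  rw [← mul_sum]
  exact mul_le_mul_of_nonneg_left (sum_pow_omega (K ^ 2) Q) (by positivity)

end Pool.Agent.Lib.BV
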