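import Pool.Agent.Lib.BV.Defs
import Pool.Agent.Lib.BV.Red
import Pool.Agent.Lib.BV.Wt

/-!
# BV-Eng: the engine: small and large conductors give the weighted mean value theorem

PROOF. Take k = 2A + 2K² + 4. Let X be large, ℓ = log X ≥ 1, D = ⌊ℓ^B⌋ (so d ≤ D implies (d:ℝ) ≤ ℓ^B), e1 = X/ℓ^(k+B), e2 = X/ℓ^k: D e1 ≤ X/ℓ^k. `red` gives
∑|EE| ≤ W := (1 + ℓ)² 2 X/ℓ^k (log Q ≤ log X). `weighted` with L = 1 + ℓ: the left side is ≤ √(3 (1+ℓ) X (1+ℓ)^(2K²) 2 (1+ℓ)² X/ℓ^k)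
≤ X √(6 (2ℓ)^(2K²+3)/ℓ^k) = X √(6 2^(2K²+3)/ℓ^(2A+1)) ≤ X/ℓ^A as soon as ℓ ≥ 6 2^(2K²+3). (Q = 0: the sum is empty. log Q ≤ log X for 1 ≤ Q ≤ X.)
-/

set_option autoImplicit false

open Finset

namespace Pool.Agent.Lib.BV

/-- the numerical part of the engine -/
theorem Eng_num (A K k : ℕ) (hk : k = 2 * A + 2 * K ^ 2 + 4) (X ℓ : ℝ) (hX : 0 ≤ X)
    (hℓ1 : 1 ≤ ℓ) (hℓ : 6 * 2 ^ (2 * K ^ 2 + 3) ≤ ℓ) (lq : ℝ) (h0 : 0 ≤ lq) (hq : lq ≤ ℓ) (W : ℝ)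
    (hW : W ≤ (1 + ℓ) ^ 2 * (2 * (X / ℓ ^ k))) :
    √(3 * (1 + ℓ) * X * (1 + lq) ^ (2 * K ^ 2) * W) ≤ X / ℓ ^ A := by
  have hℓ0 : 0 < ℓ := by linarith
  rw [Real.sqrt_le_left (by positivity), div_pow]
  have h1 : (1 + lq) ^ (2 * K ^ 2) ≤ (2 * ℓ) ^ (2 * K ^ 2) :=
    pow_le_pow_left₀ (by linarith) (by linarith) _
  have h2 : (1 + ℓ) ^ 2 * (2 * (X / ℓ ^ k)) ≤ (2 * ℓ) ^ 2 * (2 * (X / ℓ ^ k)) := by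
    gcongr
    linarith
  have h3 : 3 * (1 + ℓ) * X * (1 + lq) ^ (2 * K ^ 2) * W ≤
      3 * (2 * ℓ) * X * (2 * ℓ) ^ (2 * K ^ 2) * ((2 * ℓ) ^ 2 * (2 * (X / ℓ ^ k))) := by
    have h4 : 3 * (1 + ℓ) * X * (1 + lq) ^ (2 * K ^ 2) ≤ 3 * (2 * ℓ) * X * (2 * ℓ) ^ (2 * K ^ 2) := by
      gcongr
      linarith
    have h5 : 0 ≤ 3 * (1 + ℓ) * X * (1 + lq) ^ (2 * K ^ 2) := by positivity
    calc 3 * (1 + ℓ) * X * (1 + lq) ^ (2 * K ^ 2) * W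
        ≤ 3 * (1 + ℓ) * X * (1 + lq) ^ (2 * K ^ 2) * ((2 * ℓ) ^ 2 * (2 * (X / ℓ ^ k))) :=
          mul_le_mul_of_nonneg_left (hW.trans h2) h5
      _ ≤ _ := mul_le_mul_of_nonneg_right h4 (by positivity)
  refine h3.trans ?_
  have h6 : 3 * (2 * ℓ) * X * (2 * ℓ) ^ (2 * K ^ 2) * ((2 * ℓ) ^ 2 * (2 * (X / ℓ ^ k))) =
      (6 * 2 ^ (2 * K ^ 2 + 3)) * (X ^ 2 * ℓ ^ (2 * K ^ 2 + 3) / ℓ ^ k) := by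
    rw [mul_pow 2 ℓ (2 * K ^ 2), pow_add 2 (2 * K ^ 2) 3, pow_add ℓ (2 * K ^ 2) 3]
    ring
  rw [h6, hk, show 2 * A + 2 * K ^ 2 + 4 = (2 * K ^ 2 + 3) + (A * 2 + 1) by ring,
    pow_add ℓ (2 * K ^ 2 + 3), pow_succ ℓ (A * 2), pow_mul]
  have h7 : (6 * 2 ^ (2 * K ^ 2 + 3)) * (X ^ 2 * ℓ ^ (2 * K ^ 2 + 3) /
      (ℓ ^ (2 * K ^ 2 + 3) * ((ℓ ^ A) ^ 2 * ℓ))) =
      ((6 * 2 ^ (2 * K ^ 2 + 3)) / ℓ) * (X ^ 2 / (ℓ ^ A) ^ 2) := by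
    field_simp
  rw [h7]
  have h8 : (6 * 2 ^ (2 * K ^ 2 + 3)) / ℓ ≤ 1 := by
    rw [div_le_one hℓ0]
    exact hℓ
  exact mul_le_of_le_one_left (by positivity) h8

theorem engine (A K : ℕ) : ∃ k : ℕ, ∀ B : ℕ, ∃ X0 : ℕ, ∀ X : ℕ, X0 ≤ X → ∀ Q : ℕ, Q ≤ X →
    ∀ F : ℕ → ℝ, (∀ n ∈ Icc 1 X, |F n| ≤ 1 + Real.log X) →
    (∀ r ∈ Icc 1 Q, ∀ d : ℕ, 1 < d → (d : ℝ) ≤ (Real.log X) ^ B → ∀ ψ : DirichletCharacter ℂ d,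
      ψ.IsPrimitive → ‖CS (fun n => (F n : ℂ)) X r ψ‖ ≤ X / (Real.log X) ^ (k + B)) →
    (∀ r ∈ Icc 1 Q, LA ⌊(Real.log X) ^ B⌋₊ Q (fun _ ψ => ‖CS (fun n => (F n : ℂ)) X r ψ‖) ≤
      X / (Real.log X) ^ k) →
    ∀ a : ℕ → ℕ, (∀ q ∈ Icc 1 Q, (a q).Coprime q) →
    ∑ q ∈ Icc 1 Q, (K : ℝ) ^ q.primeFactors.card * |EE F X q (a q)| ≤ X / (Real.log X) ^ A := by
  refine ⟨2 * A + 2 * K ^ 2 + 4, fun B => ?_⟩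
  set k := 2 * A + 2 * K ^ 2 + 4 with hk
  obtain ⟨X0, hX0⟩ := exists_nat_ge (Real.exp (6 * 2 ^ (2 * K ^ 2 + 3)))
  refine ⟨max 1 X0, fun X hX Q hQ F hF h1 h2 a ha => ?_⟩
  rw [max_le_iff] at hX
  have hX1 : (1 : ℝ) ≤ X := by exact_mod_cast hX.1
  set ℓ := Real.log X with hℓdef
  have hℓ : 6 * 2 ^ (2 * K ^ 2 + 3) ≤ ℓ := by
    rw [hℓdef, Real.le_log_iff_exp_le (by linarith)]
    exact hX0.trans (by exact_mod_cast hX.2)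
  have hℓ1 : 1 ≤ ℓ := by
    have h3 : (1 : ℝ) ≤ 2 ^ (2 * K ^ 2 + 3) := one_le_pow₀ (by norm_num)
    linarith
  have hℓ0 : 0 < ℓ := by linarith
  have hlq0 := Real.log_natCast_nonneg Q
  have hlq : Real.log Q ≤ ℓ := by
    rcases Nat.eq_zero_or_pos Q with h3 | h3
    · rw [h3, Nat.cast_zero, Real.log_zero]
      linarith
    · exact Real.log_le_log (by exact_mod_cast h3) (by exact_mod_cast hQ)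
  have hD : ((⌊ℓ ^ B⌋₊ : ℕ) : ℝ) ≤ ℓ ^ B := Nat.floor_le (by positivity)
  have h3 := red F X Q ⌊ℓ ^ B⌋₊ (X / ℓ ^ (k + B)) (X / ℓ ^ k) (by positivity) (by positivity)
    (fun r hr d hd ψ hψ => by
      rw [mem_Ioc] at hd
      refine h1 r hr d hd.1 ?_ ψ hψ
      exact le_trans (by exact_mod_cast hd.2) hD) h2 a ha
  have h4 : ((⌊ℓ ^ B⌋₊ : ℕ) : ℝ) * (X / ℓ ^ (k + B)) + X / ℓ ^ k ≤ 2 * (X / ℓ ^ k) := by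
    have h5 : ((⌊ℓ ^ B⌋₊ : ℕ) : ℝ) * (X / ℓ ^ (k + B)) ≤ ℓ ^ B * (X / ℓ ^ (k + B)) :=
      mul_le_mul_of_nonneg_right hD (by positivity)
    have h6 : ℓ ^ B * (X / ℓ ^ (k + B)) = X / ℓ ^ k := by
      rw [pow_add]
      field_simp
    linarith
  have h5 : (1 + Real.log Q) ^ 2 * (((⌊ℓ ^ B⌋₊ : ℕ) : ℝ) * (X / ℓ ^ (k + B)) + X / ℓ ^ k) ≤
      (1 + ℓ) ^ 2 * (2 * (X / ℓ ^ k)) := by
    refine mul_le_mul ?_ h4 (by positivity) (by positivity)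
    exact pow_le_pow_left₀ (by linarith) (by linarith) 2
  have h6 := weighted F X Q K (1 + ℓ) _ (by linarith) hF hQ a (h3.trans h5)
  refine h6.trans ?_
  exact Eng_num A K k hk X ℓ (by linarith) hℓ1 hℓ (Real.log Q) hlq0 hlq _ le_rfl

end Pool.Agent.Lib.BV
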