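import Pool.Agent.Lib.BV.Defs
import Pool.Agent.Lib.SW.TypeSums
import Pool.Agent.Lib.SW.StripChar

/-!
# BV-PI: character sums over integers coprime to r

PROOF. (1) For χ ≠ 1 mod d and every z: ‖∑_{n∈Icc 1 z} χ(n)‖ ≤ d: sums over blocks of d consecutive integers vanish (∑_{x : ZMod d} χ x = 0,
`MulChar.sum_eq_zero_of_ne_one`), so the sum equals a sum of at most d terms of modulus ≤ 1. (Induct in z, or z = d (z/d) + z % d.)
(2) 1_{(n,r)=1} = ∑_{e | gcd(n,r)} μ(e) (see `GT.RE.sum_moebius_divisors` or Mathlib `ArithmeticFunction.moebius_mul_coe_zeta`), so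
∑_{n≤y,(n,r)=1} χ(n) = ∑_{e | r} μ(e) χ(e) ∑_{m ≤ y/e} χ(m), of modulus ≤ (number of divisors of r) d. (3) With log: SW `abel_log` with z i = fr r χ i and G = (number of divisors) d:
‖∑_{i ≤ K} log i z i‖ ≤ 2 log K G (for every k ≤ K the partial sum is ≤ G by (2)).
-/

set_option autoImplicit false

open Finset

namespace Pool.Agent.Lib.BV

private theorem PI_char {d : ℕ} [NeZero d] (χ : DirichletCharacter ℂ d) (hχ : χ ≠ 1) (z : ℕ) :
    ‖∑ n ∈ Icc 1 z, χ (n : ZMod d)‖ ≤ d := by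
  have h := Pool.Agent.Lib.SW.char_sum_le hχ 0 z
  have h2 : Ioc 0 z = Icc 1 z := by
    ext n
    simp only [mem_Ioc, mem_Icc]
    omega
  rw [h2] at h
  exact h

/-- Detection of coprimality. -/
private theorem PI_detect (n r : ℕ) (hr : 1 ≤ r) (w : ℂ) :
    (if n.Coprime r then w else 0) =
      ∑ e ∈ r.divisors, if e ∣ n then ((ArithmeticFunction.moebius e : ℤ) : ℂ) * w else 0 := by
  have hg : Nat.gcd n r ≠ 0 := Nat.gcd_ne_zero_right (by omega)
  have h2 := Pool.Agent.Lib.GT.RE.sum_moebius_divisors _ hg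
  have h3 : (Nat.gcd n r).divisors = r.divisors.filter (fun d => d ∣ n) := by
    ext d
    rw [Nat.mem_divisors, mem_filter, Nat.mem_divisors, Nat.dvd_gcd_iff]
    constructor
    · rintro ⟨⟨h4, h5⟩, _⟩
      exact ⟨⟨h5, by omega⟩, h4⟩
    · rintro ⟨⟨h5, _⟩, h4⟩
      exact ⟨⟨h4, h5⟩, hg⟩
  rw [h3] at h2
  rw [← sum_filter, ← sum_mul]
  have h4 : (∑ e ∈ r.divisors.filter (fun d => d ∣ n), ((ArithmeticFunction.moebius e : ℤ) : ℂ)) =
      if Nat.gcd n r = 1 then 1 else 0 := by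
    have h5 : ((∑ e ∈ r.divisors.filter (fun d => d ∣ n), (ArithmeticFunction.moebius e : ℤ) : ℤ) :
        ℂ) = ((if Nat.gcd n r = 1 then 1 else 0 : ℤ) : ℂ) := by rw [h2]
    push_cast at h5
    exact h5
  rw [h4]
  by_cases h : n.Coprime r
  · rw [if_pos h, if_pos (show Nat.gcd n r = 1 from h), one_mul]
  · rw [if_neg h, if_neg (show ¬ Nat.gcd n r = 1 from h), zero_mul]

theorem char_sum_coprime {d : ℕ} [NeZero d] (χ : DirichletCharacter ℂ d) (hχ : χ ≠ 1) (y r : ℕ)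
    (hr : 1 ≤ r) : ‖∑ n ∈ Icc 1 y, fr r χ n‖ ≤ (r.divisors.card : ℝ) * d := by
  have h1 : ∑ n ∈ Icc 1 y, fr r χ n = ∑ e ∈ r.divisors,
      ((ArithmeticFunction.moebius e : ℤ) : ℂ) * χ (e : ZMod d) *
        ∑ m ∈ Icc 1 (y / e), χ (m : ZMod d) := by
    have h2 : ∀ n ∈ Icc 1 y, fr r χ n = ∑ e ∈ r.divisors,
        if e ∣ n then ((ArithmeticFunction.moebius e : ℤ) : ℂ) * χ (n : ZMod d) else 0 := by
      intro n _
      rw [← PI_detect n r hr]
      rfl
    rw [sum_congr rfl h2, sum_comm]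
    refine sum_congr rfl fun e he => ?_
    have hepos : 0 < e := Nat.pos_of_mem_divisors he
    rw [← sum_filter, mul_sum]
    refine sum_nbij' (fun n => n / e) (fun m => e * m) ?_ ?_ ?_ ?_ ?_
    · intro n hn
      rw [mem_filter, mem_Icc] at hn
      obtain ⟨⟨h3, h4⟩, h5⟩ := hn
      rw [mem_Icc]
      exact ⟨Nat.div_pos (Nat.le_of_dvd h3 h5) hepos, Nat.div_le_div_right h4⟩
    · intro m hm
      rw [mem_Icc] at hm
      rw [mem_filter, mem_Icc]
      refine ⟨⟨Nat.mul_pos hepos hm.1, ?_⟩, dvd_mul_right e m⟩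
      calc e * m ≤ e * (y / e) := Nat.mul_le_mul_left _ hm.2
        _ ≤ y := Nat.mul_div_le y e
    · intro n hn
      rw [mem_filter] at hn
      exact Nat.mul_div_cancel' hn.2
    · intro m _
      exact Nat.mul_div_cancel_left m hepos
    · intro n hn
      rw [mem_filter] at hn
      obtain ⟨m, rfl⟩ := hn.2
      rw [Nat.mul_div_cancel_left m hepos]
      push_cast
      rw [map_mul, mul_assoc]
  rw [h1]
  refine (norm_sum_le _ _).trans ?_
  rw [← nsmul_eq_mul]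
  apply sum_le_card_nsmul
  intro e _
  rw [norm_mul, norm_mul]
  have h3 : ‖((ArithmeticFunction.moebius e : ℤ) : ℂ)‖ ≤ 1 := by
    rw [Complex.norm_intCast]
    exact_mod_cast ArithmeticFunction.abs_moebius_le_one
  have h4 : ‖χ (e : ZMod d)‖ ≤ 1 := DirichletCharacter.norm_le_one χ _
  have h5 := PI_char χ hχ (y / e)
  calc ‖((ArithmeticFunction.moebius e : ℤ) : ℂ)‖ * ‖χ (e : ZMod d)‖ *
        ‖∑ m ∈ Icc 1 (y / e), χ (m : ZMod d)‖
      ≤ 1 * 1 * (d : ℝ) := by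
        apply mul_le_mul (mul_le_mul h3 h4 (norm_nonneg _) zero_le_one) h5 (norm_nonneg _)
        norm_num
    _ = d := by ring

theorem char_sum_coprime_log {d : ℕ} [NeZero d] (χ : DirichletCharacter ℂ d) (hχ : χ ≠ 1) (y r : ℕ)
    (hr : 1 ≤ r) :
    ‖∑ n ∈ Icc 1 y, (Real.log n : ℂ) * fr r χ n‖ ≤ 2 * Real.log y * ((r.divisors.card : ℝ) * d) :=
  Pool.Agent.Lib.SW.abel_log (fun n => fr r χ n) _ y
    fun k _ => char_sum_coprime χ hχ k r hr

end Pool.Agent.Lib.BV
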