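import Pool.Agent.Lib.BV.Defs
import Pool.Agent.Lib.BV.PI
import Pool.Agent.Lib.SW.Vaughan

/-!
# BV-Ty1: type I sums in Vaughan identity

PROOF. fr is completely multiplicative (`fr_mul`), so the inner sums are fr(m) ∑_{k ≤ X/m} log k fr(k) resp. fr(m) ∑_{k≤X/m} fr(k). First double sum: |μ(m)| ≤ 1, ‖fr m‖ ≤ 1 and
`char_sum_coprime_log`: ≤ ∑_{m≤U} 2 log(X/m) τ(r) d ≤ 2 U (log X) τ(r) d. Second: |cUV| ≤ log m ≤ log X (`SW.abs_cUV_le`, m ≤ UV ≤ X) and `char_sum_coprime`: ≤ U V (log X) τ(r) d.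
Total ≤ 3 U V (log X) τ(r) d since V ≥ 1.
-/

set_option autoImplicit false

open Finset

namespace Pool.Agent.Lib.BV

open scoped ArithmeticFunction.Moebius in
theorem type1 {d : ℕ} [NeZero d] (χ : DirichletCharacter ℂ d) (hχ : χ ≠ 1) (X U V r : ℕ) (hU : 1 ≤ U)
    (hV : 1 ≤ V) (hUV : U * V ≤ X) (hr : 1 ≤ r) :
    ‖∑ m ∈ Icc 1 U, ((μ m : ℝ) : ℂ) * ∑ k ∈ Icc 1 (X / m), (Real.log k : ℂ) * fr r χ (m * k) -
      ∑ m ∈ Icc 1 (U * V), (SW.cUV U V m : ℂ) * ∑ k ∈ Icc 1 (X / m), fr r χ (m * k)‖ ≤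
        3 * U * V * Real.log X * ((r.divisors.card : ℝ) * d) := by
  obtain ⟨T, hT⟩ : ∃ T : ℝ, T = (r.divisors.card : ℝ) * d := ⟨_, rfl⟩
  have hT0 : 0 ≤ T := by rw [hT]; positivity
  have hL0 : 0 ≤ Real.log X := Real.log_natCast_nonneg X
  have hmu : ∀ m : ℕ, |((μ m : ℤ) : ℝ)| ≤ 1 := by
    intro m
    have h := ArithmeticFunction.abs_moebius_le_one (n := m)
    rw [← Int.cast_abs]
    exact_mod_cast h
  have h1 : ‖∑ m ∈ Icc 1 U, ((μ m : ℝ) : ℂ) *
      ∑ k ∈ Icc 1 (X / m), (Real.log k : ℂ) * fr r χ (m * k)‖ ≤ U * (2 * Real.log X * T) := by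
    refine (norm_sum_le _ _).trans ?_
    have hc : (U : ℝ) * (2 * Real.log X * T) = ∑ m ∈ Icc 1 U, (2 * Real.log X * T) := by
      rw [sum_const, Nat.card_Icc, Nat.add_sub_cancel, nsmul_eq_mul]
    rw [hc]
    refine sum_le_sum fun m _ => ?_
    have h2 : ∑ k ∈ Icc 1 (X / m), (Real.log k : ℂ) * fr r χ (m * k) =
        fr r χ m * ∑ k ∈ Icc 1 (X / m), (Real.log k : ℂ) * fr r χ k := by
      rw [mul_sum]
      refine sum_congr rfl fun k _ => ?_
      rw [fr_mul]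
      ring
    rw [h2, norm_mul, norm_mul, Complex.norm_real, Real.norm_eq_abs]
    have h3 := char_sum_coprime_log χ hχ (X / m) r hr
    rw [← hT] at h3
    have h4 : Real.log ((X / m : ℕ) : ℝ) ≤ Real.log X := by
      rcases Nat.eq_zero_or_pos (X / m) with h0 | h0
      · rw [h0, Nat.cast_zero, Real.log_zero]
        exact hL0
      · exact Real.log_le_log (by exact_mod_cast h0) (by exact_mod_cast Nat.div_le_self X m)
    have h5 := norm_fr_le r χ m
    calc |((μ m : ℤ) : ℝ)| * (‖fr r χ m‖ * ‖∑ k ∈ Icc 1 (X / m), (Real.log k : ℂ) * fr r χ k‖)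
        ≤ 1 * (1 * (2 * Real.log ((X / m : ℕ) : ℝ) * T)) := by
          have h6 := hmu m
          gcongr
      _ ≤ 2 * Real.log X * T := by
          rw [one_mul, one_mul]
          gcongr
  have h2 : ‖∑ m ∈ Icc 1 (U * V), (SW.cUV U V m : ℂ) * ∑ k ∈ Icc 1 (X / m), fr r χ (m * k)‖ ≤
      (U * V : ℕ) * (Real.log X * T) := by
    refine (norm_sum_le _ _).trans ?_
    have hc : ((U * V : ℕ) : ℝ) * (Real.log X * T) = ∑ m ∈ Icc 1 (U * V), (Real.log X * T) := by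
      rw [sum_const, Nat.card_Icc, Nat.add_sub_cancel, nsmul_eq_mul]
    rw [hc]
    refine sum_le_sum fun m hm => ?_
    rw [mem_Icc] at hm
    have h2 : ∑ k ∈ Icc 1 (X / m), fr r χ (m * k) =
        fr r χ m * ∑ k ∈ Icc 1 (X / m), fr r χ k := by
      rw [mul_sum]
      refine sum_congr rfl fun k _ => ?_
      rw [fr_mul]
    rw [h2, norm_mul, norm_mul, Complex.norm_real, Real.norm_eq_abs]
    have h3 := char_sum_coprime χ hχ (X / m) r hr
    rw [← hT] at h3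
    have h4 := SW.abs_cUV_le U V m hm.1
    have h5 := norm_fr_le r χ m
    have h6 : Real.log m ≤ Real.log X :=
      Real.log_le_log (by exact_mod_cast hm.1) (by exact_mod_cast hm.2.trans hUV)
    have h7 : |SW.cUV U V m| ≤ Real.log X := h4.trans h6
    calc |SW.cUV U V m| * (‖fr r χ m‖ * ‖∑ k ∈ Icc 1 (X / m), fr r χ k‖)
        ≤ Real.log X * (1 * T) := by gcongr
      _ = Real.log X * T := by ring
  refine (norm_sub_le _ _).trans ((add_le_add h1 h2).trans ?_)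
  rw [← hT]
  have hU1 : (1 : ℝ) ≤ U := by exact_mod_cast hU
  have hV1 : (1 : ℝ) ≤ V := by exact_mod_cast hV
  have h8 : (U : ℝ) * (2 * Real.log X * T) ≤ U * V * (2 * Real.log X * T) := by
    have h9 : 0 ≤ (U : ℝ) * (2 * Real.log X * T) := by positivity
    nlinarith
  push_cast
  linarith

end Pool.Agent.Lib.BV
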