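import Pool.Agent.Lib.BV.Defs
import Pool.Agent.Lib.BV.Ty2
import Pool.Agent.Lib.SW.Vaughan

/-!
# BV-VT2: type II sums in Vaughan identity

PROOF. `type2` with α l = Λ(l) [(l,r)=1], β j = bU U j [(j,r)=1] [U < j], M1 = V, M2 = X / U, b l = X + 1 (no threshold): for l > X/U the range Ioc U (X/l) is empty (X/l ≤ U), for l ≤ X/U the inner sum is the sum over
Icc 1 (X/l) of β; Λ(l) fr(l j) = α l ψ(l) ψ(j) [(j,r)=1]. Lα: ∑_{M<l≤2M} Λ(l)² ≤ C1 (2M)(1 + log(2M)) ≤ 4 C1 (1 + log X) M for M ≤ X (`SW.sum_vonMangoldt_sq_le`; log(2M) ≤ log 2 + log X ≤ 1 + log X). Lβ: ∑_{n≤N}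
bU(n)² ≤ ∑ τ(n)² ≤ N (1 + log N)³ ≤ (1+log X)³ N (`SW.abs_bU_le`, `SW.sum_divisors_sq_le`; N = 0 trivial). √(Lα Lβ) ≤ C2 (1 + log X)². Then
√M2 ≤ √(X/U) and √(X/M1) = √(X/V). Total power of (1 + log X) is 5 ≤ 6.
-/

set_option autoImplicit false

open Finset

namespace Pool.Agent.Lib.BV

open scoped ArithmeticFunction.vonMangoldt

private noncomputable def vtA (r l : ℕ) : ℂ := if l.Coprime r then ((Λ l : ℝ) : ℂ) else 0

private noncomputable def vtB (U r j : ℕ) : ℂ :=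
  if U < j then (if j.Coprime r then (SW.bU U j : ℂ) else 0) else 0

private theorem vt_inner (X U r l : ℕ) (hU : 1 ≤ U) {d : ℕ} (ψ : DirichletCharacter ℂ d) :
    ((Λ l : ℝ) : ℂ) * ∑ j ∈ Ioc U (X / l), (SW.bU U j : ℂ) * fr r ψ (l * j) =
      ∑ n ∈ (Icc 1 (X / l)).filter (fun n => n < X + 1),
        vtA r l * vtB U r n * ψ (l : ZMod d) * ψ (n : ZMod d) := by
  rw [filter_true_of_mem (s := Icc 1 (X / l))]
  · have hsub : Ioc U (X / l) ⊆ Icc 1 (X / l) := by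
      intro n hn
      rw [mem_Ioc] at hn
      rw [mem_Icc]
      omega
    rw [← sum_subset hsub]
    · rw [mul_sum]
      refine sum_congr rfl fun j hj => ?_
      rw [mem_Ioc] at hj
      rw [fr_mul]
      unfold vtA vtB fr
      rw [if_pos hj.1]
      by_cases h1 : l.Coprime r
      · by_cases h2 : j.Coprime r
        · rw [if_pos h1, if_pos h2, if_pos h1, if_pos h2]
          ring
        · rw [if_pos h1, if_neg h2, if_pos h1, if_neg h2]
          ring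
      · by_cases h2 : j.Coprime r
        · rw [if_neg h1, if_pos h2, if_neg h1, if_pos h2]
          ring
        · rw [if_neg h1, if_neg h2, if_neg h1, if_neg h2]
          ring
    · intro n _ hn
      rw [mem_Ioc] at hn
      have h3 : ¬ U < n ∨ ¬ n ≤ X / l := by
        by_contra h4
        push Not at h4
        exact hn h4
      unfold vtB
      rcases h3 with h3 | h3
      · rw [if_neg h3]
        ring
      · exfalso
        have h5 : n ∈ Icc 1 (X / l) := by assumption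
        exact h3 (mem_Icc.mp h5).2
  · intro n hn
    rw [mem_Icc] at hn
    have := Nat.div_le_self X l
    omega

private theorem vt_sum (X U V r : ℕ) (hU : 1 ≤ U) {d : ℕ} (ψ : DirichletCharacter ℂ d) :
    ∑ l ∈ Ioc V X, ((Λ l : ℝ) : ℂ) * ∑ j ∈ Ioc U (X / l), (SW.bU U j : ℂ) * fr r ψ (l * j) =
      ∑ l ∈ Ioc V (X / U), ∑ n ∈ (Icc 1 (X / l)).filter (fun n => n < X + 1),
        vtA r l * vtB U r n * ψ (l : ZMod d) * ψ (n : ZMod d) := by
  have hsub : Ioc V (X / U) ⊆ Ioc V X := Ioc_subset_Ioc_right (Nat.div_le_self X U)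
  rw [← sum_subset hsub]
  · exact sum_congr rfl fun l _ => vt_inner X U r l hU ψ
  · intro l hl hl2
    rw [mem_Ioc] at hl hl2
    have h1 : X / U < l := by
      by_contra h
      exact hl2 ⟨hl.1, by omega⟩
    have h2 : X < l * U := (Nat.div_lt_iff_lt_mul (by omega)).mp h1
    have h3 : X / l < U := by
      rw [Nat.div_lt_iff_lt_mul (by omega), mul_comm]
      exact h2
    rw [Ioc_eq_empty (by omega), sum_empty, mul_zero]

theorem vaughan_type2 : ∃ C : ℝ, 0 < C ∧ ∀ (X Q D U V r : ℕ), 1 ≤ D → 1 ≤ U → 1 ≤ V → U ≤ X → V ≤ X →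
    Q ≤ X → LA D Q (fun _ ψ => ‖∑ l ∈ Ioc V X, ((Λ l : ℝ) : ℂ) *
      ∑ j ∈ Ioc U (X / l), (SW.bU U j : ℂ) * fr r ψ (l * j)‖) ≤
        C * (1 + Real.log X) ^ 6 * √X * (√X / D + √((X : ℝ) / U) + √((X : ℝ) / V) + Q) := by
  obtain ⟨C0, hC0, ht2⟩ := type2
  obtain ⟨C1, hC1, hL⟩ := SW.sum_vonMangoldt_sq_le
  refine ⟨C0 * (2 * √C1), by positivity, fun X Q D U V r hD hU hV hUX hVX hQ => ?_⟩
  have hX : 1 ≤ X := hU.trans hUX
  have hlX : 0 ≤ Real.log X := Real.log_natCast_nonneg X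
  set L : ℝ := 1 + Real.log X with hLdef
  have hL1 : 1 ≤ L := by rw [hLdef]; linarith
  have hα : ∀ M, V ≤ M → M ≤ X → ∑ l ∈ Ioc M (2 * M), ‖vtA r l‖ ^ 2 ≤ (4 * C1 * L) * M := by
    intro M hM1 hM2
    have hMpos : 1 ≤ M := hV.trans hM1
    have h1 : ∑ l ∈ Ioc M (2 * M), ‖vtA r l‖ ^ 2 ≤ ∑ l ∈ Icc 1 (2 * M), (Λ l) ^ 2 := by
      refine (sum_le_sum (g := fun l => (Λ l) ^ 2) fun l _ => ?_).trans
        (sum_le_sum_of_subset_of_nonneg ?_ fun l _ _ => by positivity)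
      · unfold vtA
        split_ifs
        · rw [Complex.norm_real, Real.norm_eq_abs, sq_abs]
        · rw [norm_zero, zero_pow two_ne_zero]
          positivity
      · intro l hl
        rw [mem_Ioc] at hl
        rw [mem_Icc]
        omega
    refine h1.trans ((hL (2 * M) (by omega)).trans ?_)
    have h2 : (0 : ℝ) < M := by exact_mod_cast hMpos
    have h3 : Real.log ((2 * M : ℕ) : ℝ) ≤ 1 + Real.log X := by
      push_cast
      rw [Real.log_mul (by norm_num) h2.ne']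
      have h4 : Real.log (M : ℝ) ≤ Real.log X := Real.log_le_log h2 (by exact_mod_cast hM2)
      have h5 := Real.log_two_lt_d9
      linarith
    push_cast at h3 ⊢
    have h6 : 1 + Real.log (2 * (M : ℝ)) ≤ 2 * L := by rw [hLdef]; linarith
    calc C1 * (2 * (M : ℝ)) * (1 + Real.log (2 * (M : ℝ))) ≤ C1 * (2 * (M : ℝ)) * (2 * L) :=
          mul_le_mul_of_nonneg_left h6 (by positivity)
      _ = 4 * C1 * L * M := by ring
  have hβ : ∀ N, N ≤ X → ∑ n ∈ Icc 1 N, ‖vtB U r n‖ ^ 2 ≤ (L ^ 3) * N := by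
    intro N hN
    rcases Nat.eq_zero_or_pos N with rfl | hNpos
    · simp
    · have h1 : ∑ n ∈ Icc 1 N, ‖vtB U r n‖ ^ 2 ≤ ∑ n ∈ Icc 1 N, ((n.divisors.card : ℝ)) ^ 2 := by
        refine sum_le_sum fun n _ => ?_
        have h2 : ‖vtB U r n‖ ≤ (n.divisors.card : ℝ) := by
          unfold vtB
          split_ifs
          · rw [Complex.norm_real, Real.norm_eq_abs]
            exact SW.abs_bU_le U n
          · rw [norm_zero]
            positivity
          · rw [norm_zero]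
            positivity
        exact pow_le_pow_left₀ (norm_nonneg _) h2 2
      refine h1.trans ((SW.sum_divisors_sq_le N hNpos).trans ?_)
      have h3 : (0 : ℝ) < N := by exact_mod_cast hNpos
      have h4 : Real.log (N : ℝ) ≤ Real.log X := Real.log_le_log h3 (by exact_mod_cast hN)
      have h5 : 0 ≤ Real.log (N : ℝ) := Real.log_natCast_nonneg N
      have h6 : (1 + Real.log (N : ℝ)) ^ 3 ≤ L ^ 3 :=
        pow_le_pow_left₀ (by positivity) (by rw [hLdef]; linarith) 3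
      calc (N : ℝ) * (1 + Real.log (N : ℝ)) ^ 3 ≤ N * L ^ 3 := mul_le_mul_of_nonneg_left h6 h3.le
        _ = L ^ 3 * N := by ring
  have hmain := ht2 X Q D V (X / U) (4 * C1 * L) (L ^ 3) (vtA r) (vtB U r) (fun _ => X + 1) hD hV
    (Nat.div_le_self X U) hQ (by positivity) (by positivity) hα hβ
  have hLA : LA D Q (fun _ ψ => ‖∑ l ∈ Ioc V X, ((Λ l : ℝ) : ℂ) *
      ∑ j ∈ Ioc U (X / l), (SW.bU U j : ℂ) * fr r ψ (l * j)‖) =
      LA D Q (fun d ψ => ‖∑ l ∈ Ioc V (X / U), ∑ n ∈ (Icc 1 (X / l)).filter (fun n => n < X + 1),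
        vtA r l * vtB U r n * ψ (l : ZMod d) * ψ (n : ZMod d)‖) := by
    congr 1
    funext d ψ
    rw [vt_sum X U V r hU ψ]
  rw [hLA]
  refine hmain.trans ?_
  have hsq : √(4 * C1 * L * L ^ 3) = 2 * √C1 * L ^ 2 := by
    rw [show 4 * C1 * L * L ^ 3 = (2 * L ^ 2) ^ 2 * C1 by ring, Real.sqrt_mul (by positivity),
      Real.sqrt_sq (by positivity)]
    ring
  rw [hsq]
  have hM2 : √((X / U : ℕ) : ℝ) ≤ √((X : ℝ) / U) := Real.sqrt_le_sqrt Nat.cast_div_le
  have hbr : √(X : ℝ) / D + √((X / U : ℕ) : ℝ) + √((X : ℝ) / V) + Q ≤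
      √(X : ℝ) / D + √((X : ℝ) / U) + √((X : ℝ) / V) + Q := by linarith
  have hbr0 : 0 ≤ √(X : ℝ) / D + √((X : ℝ) / U) + √((X : ℝ) / V) + Q := by positivity
  have hL56 : L ^ 5 ≤ L ^ 6 := pow_le_pow_right₀ hL1 (by norm_num)
  calc C0 * L ^ 3 * (2 * √C1 * L ^ 2) * √(X : ℝ) *
        (√(X : ℝ) / D + √((X / U : ℕ) : ℝ) + √((X : ℝ) / V) + Q)
      ≤ C0 * L ^ 3 * (2 * √C1 * L ^ 2) * √(X : ℝ) *
        (√(X : ℝ) / D + √((X : ℝ) / U) + √((X : ℝ) / V) + Q) :=
        mul_le_mul_of_nonneg_left hbr (by positivity)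
    _ = L ^ 5 * (C0 * (2 * √C1) * √(X : ℝ) *
        (√(X : ℝ) / D + √((X : ℝ) / U) + √((X : ℝ) / V) + Q)) := by ring
    _ ≤ L ^ 6 * (C0 * (2 * √C1) * √(X : ℝ) *
        (√(X : ℝ) / D + √((X : ℝ) / U) + √((X : ℝ) / V) + Q)) :=
        mul_le_mul_of_nonneg_right hL56 (by positivity)
    _ = C0 * (2 * √C1) * L ^ 6 * √(X : ℝ) *
        (√(X : ℝ) / D + √((X : ℝ) / U) + √((X : ℝ) / V) + Q) := by ring

end Pool.Agent.Lib.BV
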