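import Pool.Agent.Lib.BV.Defs
import Pool.Agent.Lib.BV.Ty1
import Pool.Agent.Lib.BV.VT2
import Pool.Agent.Lib.BV.SWt
import Pool.Agent.Lib.MP_bc6037_nt.DivBound

/-!
# BV-PLg: large conductors for the primes

PROOF. B = k + 8; D = ⌊(log X)^B⌋ ≥ (log X)^B/2 ≥ 1. If ε ≥ 1/2 then Q ≤ 1, Ioc D Q is empty, LA = 0. Let ε < 1/2 and U = V = ⌊X^(ε/2)⌋ (≥ 1, ≥ X^(ε/2)/2, U V ≤ X^ε ≤ X). For 1 ≤ D < d ≤ Q, ψ primitive mod d (ψ ≠ 1), by `CS_eq_fr`:
CS th X r ψ = ∑_{n≤X} Λ(n) fr(n) - ∑_{n ≤ X} (Λ(n) - th n) fr(n), the second of modulus ≤ C √X (1 + log X) (`sum_vonMangoldt_sub_th`, `th_le_vonMangoldt`). ∑_{n≤X} Λ fr = ∑_{n ≤ V} + ∑_{V<n≤X}; the first is ≤ V log X ≤ √X log X;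
the second is by `SW.vaughan U V X (fr r ψ)` = (type I) + (type II). Type I (`type1`): ≤ 3 U V (log X) τ(r) d with d ≤ Q and τ(r) ≤ C r^(ε/4) ≤ C X^(ε/4) (divisor bound:
`Pool.Agent.Lib.MP_bc6037_nt.card_divisors_le_rpow` in the imported DivBound). LA of a quantity ≤ c is ≤ c Q (`LA_le_const`): type I gives ≤ 3 X^ε (log X) C X^(ε/4) Q² ≤
3 C X^(1 - 3ε/4) log X; the trivial parts give ≤ C √X (1 + log X) Q ≤ C X^(1-ε)(1 + log X). Type II (`vaughan_type2`): ≤ C (1 + log X)^6 √X (√X/D + 2·√2 X^(1/2 - ε/4) + X^(1/2-ε)) ≤ C' (log X)^6 (X/(log X)^B + X^(1-ε/4)).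
Everything together ≤ X/(log X)^k for X large, because B = k + 8. (`LA_mono`, `LA_add`.)
-/

set_option autoImplicit false

open Finset

namespace Pool.Agent.Lib.BV

open scoped ArithmeticFunction.vonMangoldt in
/-- the pointwise bound of the character sum -/
private theorem PLg_point (X U V r : ℕ) (hU : 1 ≤ U) (hV : 1 ≤ V) (hUV : U * V ≤ X) (hVX : V ≤ X)
    (hr : 1 ≤ r) {d : ℕ} [NeZero d] (ψ : DirichletCharacter ℂ d) (hψ : ψ ≠ 1) :
    ‖CS (fun n => (th n : ℂ)) X r ψ‖ ≤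
      (∑ n ∈ Icc 1 X, (ArithmeticFunction.vonMangoldt n - th n) + V * Real.log X +
        3 * U * V * Real.log X * ((r.divisors.card : ℝ) * d)) +
      ‖∑ l ∈ Ioc V X, ((Λ l : ℝ) : ℂ) * ∑ j ∈ Ioc U (X / l), (SW.bU U j : ℂ) * fr r ψ (l * j)‖ := by
  have h1 : CS (fun n => (th n : ℂ)) X r ψ =
      ∑ n ∈ Icc 1 V, ((Λ n : ℝ) : ℂ) * fr r ψ n + ∑ n ∈ Ioc V X, ((Λ n : ℝ) : ℂ) * fr r ψ n -
        ∑ n ∈ Icc 1 X, ((Λ n - th n : ℝ) : ℂ) * fr r ψ n := by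
    have h2 : ∑ n ∈ Icc 1 V, ((Λ n : ℝ) : ℂ) * fr r ψ n + ∑ n ∈ Ioc V X, ((Λ n : ℝ) : ℂ) * fr r ψ n =
        ∑ n ∈ Icc 1 X, ((Λ n : ℝ) : ℂ) * fr r ψ n := by
      have h3 : Icc 1 X = Icc 1 V ∪ Ioc V X := by
        ext n
        simp only [mem_Icc, mem_union, mem_Ioc]
        omega
      have h4 : Disjoint (Icc 1 V) (Ioc V X) := by
        rw [Finset.disjoint_left]
        intro n hn hn'
        rw [mem_Icc] at hn
        rw [mem_Ioc] at hn'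
        omega
      rw [h3, sum_union h4]
    rw [h2, CS_eq_fr, ← sum_sub_distrib]
    refine sum_congr rfl fun n _ => ?_
    push_cast
    ring
  have hV2 := SW.vaughan U V X (fr r ψ)
  have ht := type1 ψ hψ X U V r hU hV hUV hr
  rw [h1, hV2]
  have hA : ‖∑ n ∈ Icc 1 V, ((Λ n : ℝ) : ℂ) * fr r ψ n‖ ≤ V * Real.log X := by
    refine (norm_sum_le _ _).trans ?_
    refine (sum_le_card_nsmul _ _ (Real.log X) fun n hn => ?_).trans ?_
    · rw [mem_Icc] at hn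
      rw [norm_mul, Complex.norm_real, Real.norm_of_nonneg ArithmeticFunction.vonMangoldt_nonneg]
      refine (mul_le_of_le_one_right ArithmeticFunction.vonMangoldt_nonneg (norm_fr_le r ψ n)).trans ?_
      refine ArithmeticFunction.vonMangoldt_le_log.trans ?_
      refine Real.log_le_log ?_ ?_
      · exact_mod_cast (by omega : 0 < n)
      · exact_mod_cast hn.2.trans hVX
    · rw [nsmul_eq_mul, Nat.card_Icc]
      simp
  have hB : ‖∑ n ∈ Icc 1 X, ((Λ n - th n : ℝ) : ℂ) * fr r ψ n‖ ≤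
      ∑ n ∈ Icc 1 X, (ArithmeticFunction.vonMangoldt n - th n) := by
    refine (norm_sum_le _ _).trans (sum_le_sum fun n _ => ?_)
    have h5 : 0 ≤ Λ n - th n := sub_nonneg.2 (th_le_vonMangoldt n)
    rw [norm_mul, Complex.norm_real, Real.norm_of_nonneg h5]
    exact mul_le_of_le_one_right h5 (norm_fr_le r ψ n)
  refine (norm_sub_le _ _).trans ?_
  have h6 := norm_add_le (∑ n ∈ Icc 1 V, ((Λ n : ℝ) : ℂ) * fr r ψ n)
    (∑ m ∈ Icc 1 U, ((ArithmeticFunction.moebius m : ℝ) : ℂ) *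
        ∑ k ∈ Icc 1 (X / m), (Real.log k : ℂ) * fr r ψ (m * k) -
      ∑ m ∈ Icc 1 (U * V), (SW.cUV U V m : ℂ) * ∑ k ∈ Icc 1 (X / m), fr r ψ (m * k) +
      ∑ l ∈ Ioc V X, ((Λ l : ℝ) : ℂ) * ∑ j ∈ Ioc U (X / l), (SW.bU U j : ℂ) * fr r ψ (l * j))
  have h7 := norm_add_le (∑ m ∈ Icc 1 U, ((ArithmeticFunction.moebius m : ℝ) : ℂ) *
        ∑ k ∈ Icc 1 (X / m), (Real.log k : ℂ) * fr r ψ (m * k) -
      ∑ m ∈ Icc 1 (U * V), (SW.cUV U V m : ℂ) * ∑ k ∈ Icc 1 (X / m), fr r ψ (m * k))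
      (∑ l ∈ Ioc V X, ((Λ l : ℝ) : ℂ) * ∑ j ∈ Ioc U (X / l), (SW.bU U j : ℂ) * fr r ψ (l * j))
  linarith

/-- the real variable estimate -/
private theorem PLg_event (k : ℕ) (ε K : ℝ) (hε : 0 < ε) (hK : 0 < K) :
    ∀ᶠ X : ℕ in Filter.atTop, 1 ≤ Real.log X ∧
      K * ((1 + Real.log X) ^ 6 * (X : ℝ) ^ (1 - ε / 4) +
        (1 + Real.log X) ^ 6 * (X / (Real.log X) ^ (k + 8))) ≤ X / (Real.log X) ^ k := by
  have hL : Filter.Tendsto (fun X : ℕ => Real.log X) Filter.atTop Filter.atTop :=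
    Real.tendsto_log_atTop.comp tendsto_natCast_atTop_atTop
  have h1 : ∀ᶠ X : ℕ in Filter.atTop, max 1 (128 * K) ≤ Real.log X := hL.eventually_ge_atTop _
  have h2 : ∀ᶠ X : ℕ in Filter.atTop, ‖(Real.log X) ^ ((k : ℝ) + 6)‖ ≤
      (1 / (128 * K)) * ‖(X : ℝ) ^ (ε / 4)‖ := by
    have h3 := (isLittleO_log_rpow_rpow_atTop ((k : ℝ) + 6) (s := ε / 4) (by positivity)).def
      (c := 1 / (128 * K)) (by positivity)
    exact tendsto_natCast_atTop_atTop.eventually h3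
  have h3 : ∀ᶠ X : ℕ in Filter.atTop, 1 ≤ X := Filter.eventually_ge_atTop 1
  filter_upwards [h1, h2, h3] with X h1 h2 h3
  have hx : (0 : ℝ) < X := by exact_mod_cast h3
  have hL1 : 1 ≤ Real.log X := (le_max_left _ _).trans h1
  have hL2 : 128 * K ≤ Real.log X := (le_max_right _ _).trans h1
  refine ⟨hL1, ?_⟩
  set L := Real.log X with hLdef
  have hL0 : 0 < L := by linarith
  have hW : (X : ℝ) ^ (1 - ε / 4) = X / (X : ℝ) ^ (ε / 4) := by
    rw [Real.rpow_sub hx, Real.rpow_one]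
  have hz : 0 < (X : ℝ) ^ (ε / 4) := Real.rpow_pos_of_pos hx _
  set z := (X : ℝ) ^ (ε / 4) with hzdef
  rw [Real.norm_of_nonneg (by positivity), Real.norm_of_nonneg hz.le] at h2
  have h4 : L ^ ((k : ℝ) + 6) = L ^ (k + 6) := by
    rw [← Real.rpow_natCast]
    congr 1
    push_cast
    ring
  rw [h4] at h2
  rw [hW]
  have h5 : (1 + L) ^ 6 ≤ 64 * L ^ 6 := by
    have : (1 + L) ^ 6 ≤ (2 * L) ^ 6 := by
      gcongr
      linarith
    calc (1 + L) ^ 6 ≤ (2 * L) ^ 6 := this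
      _ = 64 * L ^ 6 := by ring
  have h6 : K * (64 * L ^ 6 * (X / z)) ≤ (X / L ^ k) / 2 := by
    rw [div_div, le_div_iff₀ (by positivity)]
    have h7 : K * (64 * L ^ 6 * (X / z)) * (L ^ k * 2) = X * (128 * K * L ^ (k + 6) / z) := by
      rw [pow_add]
      field_simp
      ring
    rw [h7]
    have h8 : 128 * K * L ^ (k + 6) / z ≤ 1 := by
      rw [div_le_one hz]
      have : 128 * K * L ^ (k + 6) ≤ 128 * K * (1 / (128 * K) * z) := by gcongr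
      calc 128 * K * L ^ (k + 6) ≤ 128 * K * (1 / (128 * K) * z) := this
        _ = z := by field_simp
    calc (X : ℝ) * (128 * K * L ^ (k + 6) / z) ≤ X * 1 := by gcongr
      _ = X := mul_one _
  have h9 : K * (64 * L ^ 6 * (X / L ^ (k + 8))) ≤ (X / L ^ k) / 2 := by
    rw [div_div, le_div_iff₀ (by positivity)]
    have h7 : K * (64 * L ^ 6 * (X / L ^ (k + 8))) * (L ^ k * 2) = X * (128 * K / L ^ 2) := by
      rw [pow_add]
      field_simp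
      ring
    rw [h7]
    have h8 : 128 * K / L ^ 2 ≤ 1 := by
      rw [div_le_one (by positivity)]
      nlinarith
    calc (X : ℝ) * (128 * K / L ^ 2) ≤ X * 1 := by gcongr
      _ = X := mul_one _
  calc K * ((1 + L) ^ 6 * (X / z) + (1 + L) ^ 6 * (X / L ^ (k + 8)))
      ≤ K * (64 * L ^ 6 * (X / z) + 64 * L ^ 6 * (X / L ^ (k + 8))) := by gcongr
    _ = K * (64 * L ^ 6 * (X / z)) + K * (64 * L ^ 6 * (X / L ^ (k + 8))) := by ring
    _ ≤ (X / L ^ k) / 2 + (X / L ^ k) / 2 := add_le_add h6 h9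
    _ = X / L ^ k := by ring

private theorem PLg_floor {t : ℝ} (ht : 1 ≤ t) : 1 ≤ ⌊t⌋₊ ∧ (⌊t⌋₊ : ℝ) ≤ t ∧ t ≤ 2 * ⌊t⌋₊ := by
  have h1 : 1 ≤ ⌊t⌋₊ := (Nat.one_le_floor_iff t).2 ht
  have h2 : (⌊t⌋₊ : ℝ) ≤ t := Nat.floor_le (by linarith)
  have h3 : t < ⌊t⌋₊ + 1 := Nat.lt_floor_add_one t
  have h4 : (1 : ℝ) ≤ ⌊t⌋₊ := by exact_mod_cast h1
  exact ⟨h1, h2, by linarith⟩

theorem theta_large (k : ℕ) (ε : ℝ) (hε : 0 < ε) : ∃ B X0 : ℕ, ∀ X : ℕ, X0 ≤ X →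
    ∀ Q : ℕ, (Q : ℝ) ≤ (X : ℝ) ^ (1 / 2 - ε) →
    ∀ r ∈ Icc 1 Q, LA ⌊(Real.log X) ^ B⌋₊ Q (fun _ ψ => ‖CS (fun n => (th n : ℂ)) X r ψ‖) ≤
      X / (Real.log X) ^ k := by
  obtain ⟨C0, hC0, hth⟩ := sum_vonMangoldt_sub_th
  obtain ⟨Cτ, hCτ, hdiv⟩ := MP_bc6037_nt.card_divisors_le_rpow (η := ε / 4) (by positivity)
  obtain ⟨C2, hC2, hty2⟩ := vaughan_type2
  set K : ℝ := C0 + 1 + 3 * Cτ + 4 * C2 with hK
  have hKpos : 0 < K := by positivity
  obtain ⟨X0, hX0⟩ := Filter.eventually_atTop.1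
    ((PLg_event k ε K hε hKpos).and (Filter.eventually_ge_atTop 3))
  refine ⟨k + 8, X0, fun X hX Q hQ r hr => ?_⟩
  obtain ⟨⟨hL1, hfin⟩, hX3⟩ := hX0 X hX
  have hx1 : (1 : ℝ) ≤ X := by exact_mod_cast (by omega : 1 ≤ X)
  have hx0 : (0 : ℝ) < X := by linarith
  have hL0 : 0 < Real.log X := by linarith
  rw [mem_Icc] at hr
  obtain ⟨hD1, hD2, hD3⟩ := PLg_floor (one_le_pow₀ hL1 (n := k + 8))
  set D := ⌊(Real.log X) ^ (k + 8)⌋₊ with hD
  set L := Real.log X with hLdef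
  rcases le_or_gt (1 / 2) ε with hε2 | hε2
  · -- no moduli
    have h1 : (X : ℝ) ^ (1 / 2 - ε) ≤ 1 := Real.rpow_le_one_of_one_le_of_nonpos hx1 (by linarith)
    have h2 : Q ≤ 1 := by exact_mod_cast hQ.trans h1
    have h3 : Ioc D Q = ∅ := Finset.Ioc_eq_empty (by omega)
    have h4 : LA D Q (fun _ ψ => ‖CS (fun n => (th n : ℂ)) X r ψ‖) = 0 := by
      unfold LA
      rw [h3, sum_empty]
    rw [h4]
    positivity
  · have hxe : (1 : ℝ) ≤ (X : ℝ) ^ (ε / 2) := Real.one_le_rpow hx1 (by positivity)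
    obtain ⟨hU1, hU2, hU3⟩ := PLg_floor hxe
    set U := ⌊(X : ℝ) ^ (ε / 2)⌋₊ with hU
    have hU1' : (1 : ℝ) ≤ U := by exact_mod_cast hU1
    have hee : (X : ℝ) ^ (ε / 2) * (X : ℝ) ^ (ε / 2) = (X : ℝ) ^ ε := by
      rw [← Real.rpow_add hx0]
      congr 1
      ring
    have hUUe : (U : ℝ) * U ≤ (X : ℝ) ^ ε := by
      rw [← hee]
      gcongr
    have hxε : (X : ℝ) ^ ε ≤ X := by
      calc (X : ℝ) ^ ε ≤ (X : ℝ) ^ (1 : ℝ) := Real.rpow_le_rpow_of_exponent_le hx1 (by linarith)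
        _ = X := Real.rpow_one _
    have hUU : U * U ≤ X := by
      have h1 : ((U * U : ℕ) : ℝ) ≤ X := by
        push_cast
        exact hUUe.trans hxε
      exact_mod_cast h1
    have hUX : U ≤ X := (Nat.le_mul_self U).trans hUU
    have hQx : (X : ℝ) ^ (1 / 2 - ε) ≤ X := by
      calc (X : ℝ) ^ (1 / 2 - ε) ≤ (X : ℝ) ^ (1 : ℝ) :=
            Real.rpow_le_rpow_of_exponent_le hx1 (by linarith)
        _ = X := Real.rpow_one _
    have hQX : Q ≤ X := by exact_mod_cast hQ.trans hQx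
    set W := (X : ℝ) ^ (1 - ε / 4) with hW
    have hW0 : 0 < W := Real.rpow_pos_of_pos hx0 _
    have hQ0 : (0 : ℝ) ≤ Q := Nat.cast_nonneg Q
    -- products
    have hsq : √(X : ℝ) = (X : ℝ) ^ (1 / 2 : ℝ) := Real.sqrt_eq_rpow _
    have hp1 : √(X : ℝ) * Q ≤ W := by
      rw [hsq]
      calc (X : ℝ) ^ (1 / 2 : ℝ) * Q ≤ (X : ℝ) ^ (1 / 2 : ℝ) * (X : ℝ) ^ (1 / 2 - ε) := by gcongr
        _ = (X : ℝ) ^ (1 - ε) := by
          rw [← Real.rpow_add hx0]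
          congr 1
          ring
        _ ≤ W := Real.rpow_le_rpow_of_exponent_le hx1 (by linarith)
    have hp2 : (U : ℝ) * Q ≤ W := by
      calc (U : ℝ) * Q ≤ (X : ℝ) ^ (ε / 2) * (X : ℝ) ^ (1 / 2 - ε) := by gcongr
        _ = (X : ℝ) ^ (1 / 2 - ε / 2) := by
          rw [← Real.rpow_add hx0]
          congr 1
          ring
        _ ≤ W := Real.rpow_le_rpow_of_exponent_le hx1 (by linarith)
    have hτ : (r.divisors.card : ℝ) ≤ Cτ * (X : ℝ) ^ (ε / 4) := by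
      refine (hdiv r (by omega)).trans ?_
      have h1 : (r : ℝ) ≤ X := by exact_mod_cast hr.2.trans hQX
      gcongr
    have hp3 : 3 * U * U * L * ((r.divisors.card : ℝ) * Q) * Q ≤ 3 * Cτ * L * W := by
      have h1 : (Q : ℝ) * Q ≤ (X : ℝ) ^ (1 - 2 * ε) := by
        calc (Q : ℝ) * Q ≤ (X : ℝ) ^ (1 / 2 - ε) * (X : ℝ) ^ (1 / 2 - ε) := by gcongr
          _ = (X : ℝ) ^ (1 - 2 * ε) := by
            rw [← Real.rpow_add hx0]
            congr 1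
            ring
      have h2 : (X : ℝ) ^ ε * (X : ℝ) ^ (ε / 4) * (X : ℝ) ^ (1 - 2 * ε) ≤ W := by
        rw [← Real.rpow_add hx0, ← Real.rpow_add hx0]
        exact Real.rpow_le_rpow_of_exponent_le hx1 (by linarith)
      calc 3 * U * U * L * ((r.divisors.card : ℝ) * Q) * Q =
            3 * L * ((U * U) * r.divisors.card * (Q * Q)) := by ring
        _ ≤ 3 * L * ((X : ℝ) ^ ε * (Cτ * (X : ℝ) ^ (ε / 4)) * (X : ℝ) ^ (1 - 2 * ε)) := by gcongr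
        _ = 3 * Cτ * L * ((X : ℝ) ^ ε * (X : ℝ) ^ (ε / 4) * (X : ℝ) ^ (1 - 2 * ε)) := by ring
        _ ≤ 3 * Cτ * L * W := by gcongr
    have hp4 : √(X : ℝ) * √((X : ℝ) / U) ≤ 3 / 2 * W := by
      have h1 : (X : ℝ) / U ≤ 2 * (X : ℝ) ^ (1 - ε / 2) := by
        rw [div_le_iff₀ (by linarith)]
        calc (X : ℝ) = (X : ℝ) ^ (1 - ε / 2) * (X : ℝ) ^ (ε / 2) := by
              rw [← Real.rpow_add hx0]
              rw [show 1 - ε / 2 + ε / 2 = (1 : ℝ) by ring, Real.rpow_one]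
          _ ≤ (X : ℝ) ^ (1 - ε / 2) * (2 * U) := by gcongr
          _ = 2 * (X : ℝ) ^ (1 - ε / 2) * U := by ring
      rw [← Real.sqrt_mul hx0.le]
      refine Real.sqrt_le_iff.2 ⟨by positivity, ?_⟩
      have h2 : (X : ℝ) * (X : ℝ) ^ (1 - ε / 2) = W ^ 2 := by
        rw [hW, ← Real.rpow_natCast, ← Real.rpow_mul hx0.le]
        nth_rewrite 1 [← Real.rpow_one (X : ℝ)]
        rw [← Real.rpow_add hx0]
        congr 1
        push_cast
        ring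
      calc (X : ℝ) * (X / U) ≤ X * (2 * (X : ℝ) ^ (1 - ε / 2)) := by gcongr
        _ = 2 * W ^ 2 := by rw [← h2]; ring
        _ ≤ (3 / 2 * W) ^ 2 := by nlinarith [sq_nonneg W]
    have hp5 : √(X : ℝ) * (√(X : ℝ) / D) ≤ 2 * (X / L ^ (k + 8)) := by
      rw [← mul_div_assoc, Real.mul_self_sqrt hx0.le]
      have hD0 : (0 : ℝ) < D := by exact_mod_cast hD1
      rw [div_le_iff₀ hD0]
      have h1 : 2 * ((X : ℝ) / L ^ (k + 8)) * D = X * ((2 * D) / L ^ (k + 8)) := by ring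
      rw [h1]
      have h2 : 1 ≤ (2 * (D : ℝ)) / L ^ (k + 8) := by
        rw [le_div_iff₀ (by positivity), one_mul]
        exact hD3
      nlinarith
    -- assembly
    have hpt : LA D Q (fun _ ψ => ‖CS (fun n => (th n : ℂ)) X r ψ‖) ≤
        LA D Q (fun d ψ => (C0 * √X * (1 + L) + U * L +
          3 * U * U * L * ((r.divisors.card : ℝ) * Q)) +
          ‖∑ l ∈ Ioc U X, ((ArithmeticFunction.vonMangoldt l : ℝ) : ℂ) *
            ∑ j ∈ Ioc U (X / l), (SW.bU U j : ℂ) * fr r ψ (l * j)‖) := by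
      refine LA_mono fun d hd χ hχ => ?_
      rw [mem_Ioc] at hd
      have : NeZero d := ⟨by omega⟩
      have h1 := PLg_point X U U r hU1 hU1 hUU hUX hr.1 χ (ne_one_of_prim (by omega) hχ)
      have h2 := hth X (by omega)
      have h3 : (d : ℝ) ≤ Q := by exact_mod_cast hd.2
      have h4 : 3 * U * U * L * ((r.divisors.card : ℝ) * d) ≤
          3 * U * U * L * ((r.divisors.card : ℝ) * Q) := by gcongr
      linarith
    refine hpt.trans ?_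
    rw [LA_add (fun _ _ => C0 * √X * (1 + L) + U * L +
          3 * U * U * L * ((r.divisors.card : ℝ) * Q))]
    have hc : LA D Q (fun _ _ => C0 * √X * (1 + L) + U * L +
          3 * U * U * L * ((r.divisors.card : ℝ) * Q)) ≤ (C0 * √X * (1 + L) + U * L +
          3 * U * U * L * ((r.divisors.card : ℝ) * Q)) * Q :=
      LA_le_const (by positivity) fun d _ χ _ => le_rfl
    have ht2 := hty2 X Q D U U r hD1 hU1 hU1 hUX hUX hQX
    have h10 : (C0 * √X * (1 + L) + U * L + 3 * U * U * L * ((r.divisors.card : ℝ) * Q)) * Q ≤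
        (C0 + 1 + 3 * Cτ) * ((1 + L) ^ 6 * W) := by
      have h11 : 1 + L ≤ (1 + L) ^ 6 := by
        calc 1 + L = (1 + L) ^ 1 := (pow_one _).symm
          _ ≤ (1 + L) ^ 6 := pow_le_pow_right₀ (by linarith) (by norm_num)
      have h12 : (C0 * √X * (1 + L) + U * L + 3 * U * U * L * ((r.divisors.card : ℝ) * Q)) * Q =
          C0 * (1 + L) * (√X * Q) + L * (U * Q) +
            3 * U * U * L * ((r.divisors.card : ℝ) * Q) * Q := by ring
      rw [h12]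
      have h13 : C0 * (1 + L) * (√X * Q) ≤ C0 * (1 + L) * W := by gcongr
      have h14 : L * (U * Q) ≤ (1 + L) * W := by gcongr; linarith
      have h15 : 3 * Cτ * L * W ≤ 3 * Cτ * ((1 + L) * W) := by
        have : L * W ≤ (1 + L) * W := by gcongr; linarith
        nlinarith
      have h16 : (C0 + 1 + 3 * Cτ) * ((1 + L) * W) ≤ (C0 + 1 + 3 * Cτ) * ((1 + L) ^ 6 * W) := by
        gcongr
      linarith
    have h20 : C2 * (1 + L) ^ 6 * √X * (√X / D + √((X : ℝ) / U) + √((X : ℝ) / U) + Q) ≤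
        4 * C2 * ((1 + L) ^ 6 * W) + 2 * C2 * ((1 + L) ^ 6 * (X / L ^ (k + 8))) := by
      have h21 : C2 * (1 + L) ^ 6 * √X * (√X / D + √((X : ℝ) / U) + √((X : ℝ) / U) + Q) =
          C2 * (1 + L) ^ 6 * (√X * (√X / D) + 2 * (√X * √((X : ℝ) / U)) + √X * Q) := by ring
      rw [h21]
      have h22 : √X * (√X / D) + 2 * (√X * √((X : ℝ) / U)) + √X * Q ≤
          2 * (X / L ^ (k + 8)) + 2 * (3 / 2 * W) + W := by linarith
      calc C2 * (1 + L) ^ 6 * (√X * (√X / D) + 2 * (√X * √((X : ℝ) / U)) + √X * Q)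
          ≤ C2 * (1 + L) ^ 6 * (2 * (X / L ^ (k + 8)) + 2 * (3 / 2 * W) + W) := by gcongr
        _ = 4 * C2 * ((1 + L) ^ 6 * W) + 2 * C2 * ((1 + L) ^ 6 * (X / L ^ (k + 8))) := by ring
    have h30 : 2 * C2 * ((1 + L) ^ 6 * (X / L ^ (k + 8))) ≤ K * ((1 + L) ^ 6 * (X / L ^ (k + 8))) := by
      have : 2 * C2 ≤ K := by
        rw [hK]
        linarith
      gcongr
    have h31 : (C0 + 1 + 3 * Cτ) * ((1 + L) ^ 6 * W) + 4 * C2 * ((1 + L) ^ 6 * W) =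
        K * ((1 + L) ^ 6 * W) := by
      rw [hK]
      ring
    have h32 : K * ((1 + L) ^ 6 * W + (1 + L) ^ 6 * (X / L ^ (k + 8))) =
        K * ((1 + L) ^ 6 * W) + K * ((1 + L) ^ 6 * (X / L ^ (k + 8))) := by ring
    rw [h32] at hfin
    linarith

end Pool.Agent.Lib.BV
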