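import Pool.Agent.Lib.BV.Defs
import Pool.Agent.Lib.BV.SWt

/-!
# BV-PSm: small conductors for the primes

PROOF. CS th X r ψ = ∑_{p≤X} th(p) ψ(p) - ∑_{p ≤ X, (p,r) > 1} th(p) ψ(p). First sum: `theta_char` with exponent k + B + 1, ε = 1, Y = y = X: ≤ C (log X)^B X/(log X)^(k+B+1) = C X/(log X)^(k+1)
≤ X/(2 (log X)^k) for X large. Second: th(n) ≠ 0 with (n,r) > 1 means n is a prime dividing r: ≤ ∑_{p | r} log p ≤ log r ≤ log X ≤ X/(2 (log X)^k) for X large.
-/

set_option autoImplicit false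

open Finset

namespace Pool.Agent.Lib.BV

private theorem psm_noncoprime (X r : ℕ) (hr : 1 ≤ r) :
    ∑ n ∈ (Icc 1 X).filter (fun n => ¬ n.Coprime r), th n ≤ Real.log r := by
  classical
  have h1 : ∑ n ∈ (Icc 1 X).filter (fun n => ¬ n.Coprime r), th n =
      ∑ n ∈ ((Icc 1 X).filter (fun n => ¬ n.Coprime r)).filter (fun n => n.Prime), th n := by
    symm
    refine Finset.sum_filter_of_ne fun n _ hne => ?_
    by_contra h
    unfold th at hne
    rw [if_neg h] at hne
    exact hne rfl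
  rw [h1]
  have h2 : ∑ n ∈ ((Icc 1 X).filter (fun n => ¬ n.Coprime r)).filter (fun n => n.Prime), th n ≤
      ∑ p ∈ r.primeFactors, Real.log p := by
    refine (sum_le_sum fun n hn => th_le n).trans
      (sum_le_sum_of_subset_of_nonneg (fun n hn => ?_) fun n _ _ => Real.log_natCast_nonneg n)
    rw [mem_filter, mem_filter] at hn
    rw [Nat.mem_primeFactors]
    refine ⟨hn.2, ?_, by omega⟩
    by_contra h
    exact hn.1.2 ((Nat.Prime.coprime_iff_not_dvd hn.2).mpr h)
  refine h2.trans ?_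
  rw [← Real.log_prod (fun p hp => by
    have := (Nat.prime_of_mem_primeFactors hp).pos
    positivity)]
  refine Real.log_le_log ?_ ?_
  · refine prod_pos fun p hp => ?_
    have := (Nat.prime_of_mem_primeFactors hp).pos
    positivity
  · have h2 : (∏ p ∈ r.primeFactors, p) ∣ r := Nat.prod_primeFactors_dvd r
    have h3 := Nat.le_of_dvd (by omega) h2
    have h4 : ((∏ p ∈ r.primeFactors, p : ℕ) : ℝ) ≤ r := by exact_mod_cast h3
    rwa [Nat.cast_prod] at h4

theorem theta_small (k B : ℕ) : ∃ X0 : ℕ, ∀ X : ℕ, X0 ≤ X → ∀ r ∈ Icc 1 X, ∀ d : ℕ, 1 < d →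
    (d : ℝ) ≤ (Real.log X) ^ B → ∀ ψ : DirichletCharacter ℂ d, ψ.IsPrimitive →
      ‖CS (fun n => (th n : ℂ)) X r ψ‖ ≤ X / (Real.log X) ^ k := by
  classical
  obtain ⟨C, hC, hmain⟩ := theta_char (k + B + 1) 1 one_pos
  have hlog : Filter.Tendsto (fun n : ℕ => Real.log (n : ℝ)) Filter.atTop Filter.atTop :=
    Real.tendsto_log_atTop.comp tendsto_natCast_atTop_atTop
  have hev1 := hlog.eventually_ge_atTop (2 * C)
  have hev2 := hlog.eventually_gt_atTop 0
  have hev3 : ∀ᶠ n : ℕ in Filter.atTop, 2 * (Real.log n) ^ (k + 1) ≤ n := by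
    have h1 := (Real.isLittleO_pow_log_id_atTop (n := k + 1)).comp_tendsto
      (tendsto_natCast_atTop_atTop (R := ℝ))
    have h2 := h1.def (show (0 : ℝ) < 1 / 2 by norm_num)
    filter_upwards [h2, hev2] with n hn hn2
    simp only [Function.comp, id] at hn
    rw [Real.norm_of_nonneg (by positivity), Real.norm_of_nonneg (by positivity)] at hn
    linarith
  obtain ⟨X0, hX0⟩ := Filter.eventually_atTop.mp (hev1.and (hev2.and (hev3.and
    (Filter.eventually_ge_atTop 2))))
  refine ⟨X0, fun X hX r hr d hd hdB ψ hψ => ?_⟩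
  obtain ⟨h1, h2, h3, h4⟩ := hX0 X hX
  have hne : NeZero d := ⟨by omega⟩
  have hψ1 := ne_one_of_prim hd hψ
  have h5 := hmain d ψ hψ1 X X h4 le_rfl
  rw [Real.rpow_one] at h5
  rw [mem_Icc] at hr
  have hsplit : CS (fun n => (th n : ℂ)) X r ψ = ∑ p ∈ Icc 1 X, (th p : ℂ) * ψ (p : ZMod d) -
      ∑ n ∈ (Icc 1 X).filter (fun n => ¬ n.Coprime r), (th n : ℂ) * ψ (n : ZMod d) := by
    unfold CS
    rw [← Finset.sum_filter_add_sum_filter_not (Icc 1 X) (fun n => n.Coprime r)]
    ring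
  have h6 : ‖∑ n ∈ (Icc 1 X).filter (fun n => ¬ n.Coprime r), (th n : ℂ) * ψ (n : ZMod d)‖ ≤
      Real.log X := by
    refine (norm_sum_le _ _).trans ?_
    refine (sum_le_sum (g := fun n => th n) fun n _ => ?_).trans ?_
    · rw [norm_mul, Complex.norm_real, Real.norm_of_nonneg (th_nonneg n)]
      exact mul_le_of_le_one_right (th_nonneg n) (DirichletCharacter.norm_le_one ψ _)
    · refine (psm_noncoprime X r hr.1).trans ?_
      refine Real.log_le_log ?_ ?_
      · exact_mod_cast hr.1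
      · exact_mod_cast hr.2
  have hX0' : (0 : ℝ) ≤ X := by positivity
  rw [hsplit]
  refine (norm_sub_le _ _).trans ?_
  have h7 : C * (d : ℝ) * X / (Real.log X) ^ (k + B + 1) ≤ X / (Real.log X) ^ k / 2 := by
    rw [div_div, div_le_div_iff₀ (by positivity) (by positivity)]
    have h8 : C * (d : ℝ) * 2 ≤ (Real.log X) ^ B * Real.log X := by
      have : (0 : ℝ) ≤ (Real.log X) ^ B := by positivity
      have hd0 : (0 : ℝ) ≤ d := by positivity
      nlinarith
    have h9 : (Real.log X) ^ (k + B + 1) = (Real.log X) ^ k * ((Real.log X) ^ B * Real.log X) := by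
      ring
    rw [h9]
    have h10 : (0 : ℝ) ≤ X * (Real.log X) ^ k := by positivity
    nlinarith
  have h8 : Real.log X ≤ X / (Real.log X) ^ k / 2 := by
    rw [div_div, le_div_iff₀ (by positivity)]
    have h9 : Real.log X * ((Real.log X) ^ k * 2) = 2 * (Real.log X) ^ (k + 1) := by
      rw [pow_succ]
      ring
    rw [h9]
    exact h3
  linarith

end Pool.Agent.Lib.BV
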