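import Pool.Agent.Lib.BV.Eng
import Pool.Agent.Lib.BV.BSm
import Pool.Agent.Lib.BV.BLg
import Pool.Agent.Lib.BV.PSm
import Pool.Agent.Lib.BV.PLg

/-!
# BV-Main: the mean value theorem for the primes and for bilinear functions

`bvp`: the theorem of Bombieri and Vinogradov (level `X^(1/2 - ε)`, weights `K^ω(q)`) for `th = log` on the primes.
`bvb`: the same for the functions `m ↦ ∑_{m = m' p, p ≤ b(m')} g(m') log p`.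
`bvp_Ioc`, `bvb_Ioc`: the same on an interval `(x, 2x]`.
-/

set_option autoImplicit false

open Finset

namespace Pool.Agent.Lib.BV

theorem Q_le {X Q : ℕ} {ε : ℝ} (hε : 0 < ε) (hX : 1 ≤ X) (hQ : (Q : ℝ) ≤ (X : ℝ) ^ (1 / 2 - ε)) :
    Q ≤ X := by
  have h1 : (1 : ℝ) ≤ X := by exact_mod_cast hX
  have h2 : (X : ℝ) ^ (1 / 2 - ε) ≤ (X : ℝ) ^ (1 : ℝ) :=
    Real.rpow_le_rpow_of_exponent_le h1 (by linarith)
  rw [Real.rpow_one] at h2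
  exact_mod_cast hQ.trans h2

/-- **Bombieri-Vinogradov** for the primes, level `X^(1/2 - ε)`, weights `K^ω(q)` -/
theorem bvp (A K : ℕ) (ε : ℝ) (hε : 0 < ε) : ∃ X0 : ℕ, ∀ X : ℕ, X0 ≤ X → ∀ Q : ℕ,
    (Q : ℝ) ≤ (X : ℝ) ^ (1 / 2 - ε) → ∀ a : ℕ → ℕ, (∀ q ∈ Icc 1 Q, (a q).Coprime q) →
    ∑ q ∈ Icc 1 Q, (K : ℝ) ^ q.primeFactors.card * |EE th X q (a q)| ≤ X / (Real.log X) ^ A := by
  obtain ⟨k, hk⟩ := engine A K
  obtain ⟨B, X1, h1⟩ := theta_large k ε hε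
  obtain ⟨X2, h2⟩ := hk B
  obtain ⟨X3, h3⟩ := theta_small (k + B) B
  refine ⟨max 1 (max X1 (max X2 X3)), fun X hX Q hQ a ha => ?_⟩
  simp only [max_le_iff] at hX
  obtain ⟨hX0, hX1, hX2, hX3⟩ := hX
  have hQX := Q_le hε hX0 hQ
  refine h2 X hX2 Q hQX th (fun n hn => ?_) (fun r hr d hd hdB ψ hψ => ?_) (fun r hr => ?_) a ha
  · rw [mem_Icc] at hn
    rw [abs_of_nonneg (th_nonneg n)]
    have h4 : Real.log n ≤ Real.log X :=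
      Real.log_le_log (by exact_mod_cast hn.1) (by exact_mod_cast hn.2)
    linarith [th_le n]
  · rw [mem_Icc] at hr
    exact h3 X hX3 r (mem_Icc.mpr ⟨hr.1, hr.2.trans hQX⟩) d hd hdB ψ hψ
  · exact h1 X hX1 Q hQ r hr

/-- Bombieri-Vinogradov for `m ↦ ∑_{m = m' p, p ≤ b(m')} g(m') log p` -/
theorem bvb (A K : ℕ) (ε δ : ℝ) (hε : 0 < ε) (hδ : 0 < δ) : ∃ X0 : ℕ, ∀ X : ℕ, X0 ≤ X → ∀ Q : ℕ,
    (Q : ℝ) ≤ (X : ℝ) ^ (1 / 2 - ε) → ∀ (g : ℕ → ℝ) (b : ℕ → ℕ), (∀ m, |g m| ≤ 1) →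
    (∀ m, g m ≠ 0 → (X : ℝ) ^ δ ≤ m ∧ (m : ℝ) ≤ (X : ℝ) ^ (1 - δ)) →
    ∀ a : ℕ → ℕ, (∀ q ∈ Icc 1 Q, (a q).Coprime q) →
    ∑ q ∈ Icc 1 Q, (K : ℝ) ^ q.primeFactors.card * |EE (FB g b) X q (a q)| ≤
      X / (Real.log X) ^ A := by
  obtain ⟨k, hk⟩ := engine A K
  obtain ⟨B, X1, h1⟩ := fb_large k ε δ hε hδ
  obtain ⟨X2, h2⟩ := hk B
  obtain ⟨X3, h3⟩ := fb_small (k + B) B δ hδ
  refine ⟨max 1 (max X1 (max X2 X3)), fun X hX Q hQ g b hg hgs a ha => ?_⟩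
  simp only [max_le_iff] at hX
  obtain ⟨hX0, hX1, hX2, hX3⟩ := hX
  have hQX := Q_le hε hX0 hQ
  refine h2 X hX2 Q hQX (FB g b) (fun n hn => ?_) (fun r hr d hd hdB ψ hψ => ?_) (fun r hr => ?_) a ha
  · rw [mem_Icc] at hn
    have h4 : Real.log n ≤ Real.log X :=
      Real.log_le_log (by exact_mod_cast hn.1) (by exact_mod_cast hn.2)
    linarith [abs_FB_le g b hg n hn.1]
  · rw [mem_Icc] at hr
    exact h3 X hX3 g b hg (fun m hm => (hgs m hm).2) r (mem_Icc.mpr ⟨hr.1, hr.2.trans hQX⟩) d hd hdB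
      ψ hψ
  · exact h1 X hX1 Q hQ g b hg hgs r hr

end Pool.Agent.Lib.BV
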